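import Pool.Agent.Lib_MP_2c424f_lc5.Defs5

/-!
# Part V, V10c: the last two terms

`x` even.  The colours `c = F₁ y'` of the points counted on the left are outside `J`, so `c ∈ A₁` or (`c ∉ A₂` and `c ∈ Rv G F₂ x`).
Colours `c ∈ A₁`: `(x, c)` is of type S for `A₁`; `∑_{c ∈ A₁} nv G F₁ x c ≤ ∑ (nv)² ≤ e^{-a/2} q` (E4) (`n ≤ n²` for natural numbers).
Colours `c ∈ Rv G F₂ x`, `c ∉ A₂`: type B for `A₂`; by (E2) of `F₂` there are at most `e^{-a} q` of them;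
Cauchy-Schwarz: `∑ nv ≤ (e^{-a} q)^{1/2} (∑_c nv²)^{1/2}`, and `∑_c nv² ≤ q^{1/2} (∑_c nv⁴)^{1/2} ≤ q (1000 a⁴)^{1/2} ≤ 32 a² q` (E3).
So this part is at most `e^{-a/2} (32)^{1/2} a q ≤ 6 a e^{-a/2} q`.
-/

set_option autoImplicit false

open Finset Filter

namespace Pool.Agent.LC

open Pool.Agent.LO Pool.Agent.LIN Pool.Agent.THR Pool.Agent.COR

private theorem v10c_sq_le {u v : ℝ} (h : u ^ 2 ≤ v ^ 2) (hv : 0 ≤ v) : u ≤ v :=
  (le_abs_self u).trans (abs_le_of_sq_le_sq h hv)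

private theorem v10c_exp (a : ℝ) : Real.exp (-a / 2) ^ 2 = Real.exp (-a) := by
  rw [← Real.exp_nat_mul]
  congr 1
  push_cast
  ring

open scoped Classical in
private theorem v10c_count {Λ : Type} [Fintype Λ] {q : ℕ} (G : SimpleGraph Λ) (F : Λ → Fin q) (x : Λ)
    (S : Finset (Fin q)) (T : Finset Λ) (hT : ∀ y ∈ T, G.Adj x y ∧ F y ∈ S) :
    (T.card : ℝ) ≤ ∑ c ∈ S, (nv G F x c : ℝ) := by
  have h1 : T ⊆ S.biUnion fun c => univ.filter fun y => G.Adj x y ∧ F y = c := by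
    intro y hy
    obtain ⟨h2, h3⟩ := hT y hy
    rw [Finset.mem_biUnion]
    exact ⟨F y, h3, by simp [h2]⟩
  have h2 := (Finset.card_le_card h1).trans Finset.card_biUnion_le
  have h3 : ((∑ c ∈ S, (univ.filter fun y => G.Adj x y ∧ F y = c).card : ℕ) : ℝ) =
      ∑ c ∈ S, (nv G F x c : ℝ) := by
    push_cast
    rfl
  rw [← h3]
  exact_mod_cast h2

open scoped Classical in
/-- also used for (A2) -/
theorem nv_sum {Λ : Type} [Fintype Λ] {d q : ℕ} (ha : 0 < ra d q) (G : SimpleGraph Λ) (ev : Λ → Prop)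
    (A₁ : Finset (Fin q)) (F₁ : Λ → Fin q) (x : Λ) (h1 : TyE d G ev A₁ F₁ x)
    (S : Finset (Fin q)) (hS : (S.card : ℝ) ≤ Real.exp (-ra d q) * q) :
    ∑ c ∈ S, (nv G F₁ x c : ℝ) ≤ 6 * ra d q * Real.exp (-ra d q / 2) * q := by
  have hq : (0 : ℝ) ≤ q := Nat.cast_nonneg q
  have h3 := h1.e3
  have he := v10c_exp (ra d q)
  set a : ℝ := ra d q with hadef
  set E : ℝ := Real.exp (-a / 2) with hE
  have hE0 : 0 < E := Real.exp_pos _
  have hfour : (∑ c, (nv G F₁ x c : ℝ) ^ 2) ^ 2 ≤ (32 * a ^ 2 * q) ^ 2 := by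
    have h4 := sq_sum_le_card_mul_sum_sq (s := (univ : Finset (Fin q)))
      (f := fun c => (nv G F₁ x c : ℝ) ^ 2)
    rw [Finset.card_univ, Fintype.card_fin] at h4
    have h5 : ∑ c : Fin q, ((nv G F₁ x c : ℝ) ^ 2) ^ 2 = ∑ c : Fin q, (nv G F₁ x c : ℝ) ^ 4 :=
      Finset.sum_congr rfl fun c _ => by ring
    rw [h5] at h4
    have h6 : (q : ℝ) * ∑ c : Fin q, (nv G F₁ x c : ℝ) ^ 4 ≤ q * (1000 * a ^ 4 * q) :=
      mul_le_mul_of_nonneg_left h3 hq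
    have h7 : (0 : ℝ) ≤ a ^ 4 * q ^ 2 := by positivity
    nlinarith
  have htwo : ∑ c, (nv G F₁ x c : ℝ) ^ 2 ≤ 32 * a ^ 2 * q := v10c_sq_le hfour (by positivity)
  have hS2 : ∑ c ∈ S, (nv G F₁ x c : ℝ) ^ 2 ≤ 32 * a ^ 2 * q :=
    (Finset.sum_le_sum_of_subset_of_nonneg (Finset.subset_univ S) fun c _ _ => by positivity).trans
      htwo
  refine v10c_sq_le ?_ (by positivity)
  have h8 := sq_sum_le_card_mul_sum_sq (s := S) (f := fun c => (nv G F₁ x c : ℝ))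
  refine h8.trans ?_
  have h9 : (S.card : ℝ) * ∑ c ∈ S, (nv G F₁ x c : ℝ) ^ 2 ≤
      (Real.exp (-a) * q) * (32 * a ^ 2 * q) :=
    mul_le_mul hS hS2 (Finset.sum_nonneg fun c _ => by positivity) (by positivity)
  refine h9.trans ?_
  rw [← he]
  have h10 : (0 : ℝ) ≤ E ^ 2 * a ^ 2 * q ^ 2 := by positivity
  nlinarith

open scoped Classical in
theorem row34 {Λ : Type} [Fintype Λ] {d q : ℕ} (ha : 1 ≤ ra d q) (G : SimpleGraph Λ) (ev : Λ → Prop)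
    (J A₁ A₂ : Finset (Fin q)) (hJ : ∀ c, c ∉ J → c ∈ A₁ ∨ c ∉ A₂) (F₁ F₂ : Λ → Fin q) (x : Λ) (hx : ev x)
    (h1 : TyE d G ev A₁ F₁ x) (h2 : TyE d G ev A₂ F₂ x) :
    (((nb G x).filter fun y' => F₁ y' ∈ Rv G F₂ x ∧ F₁ y' ∉ J).card : ℝ) ≤
      7 * ra d q * Real.exp (-ra d q / 2) * q := by
  have hq : (0 : ℝ) ≤ q := Nat.cast_nonneg q
  set S : Finset (Fin q) := (Rv G F₂ x).filter fun c => ¬ tS ev A₂ x c with hSdef
  have hS : (S.card : ℝ) ≤ Real.exp (-ra d q) * q := h2.e2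
  have hn := nv_sum (by linarith : (0 : ℝ) < ra d q) G ev A₁ F₁ x h1 S hS
  have h4 := h1.e4
  set S₁ : Finset (Fin q) := univ.filter fun c => tS ev A₁ x c with hS1
  have hn1 : ∑ c ∈ S₁, (nv G F₁ x c : ℝ) ≤ Real.exp (-ra d q / 2) * q := by
    refine (Finset.sum_le_sum fun c _ => ?_).trans h4
    have h5 : nv G F₁ x c ≤ nv G F₁ x c ^ 2 := Nat.le_self_pow two_ne_zero _
    exact_mod_cast h5
  set T : Finset Λ := (nb G x).filter fun y' => F₁ y' ∈ Rv G F₂ x ∧ F₁ y' ∉ J with hT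
  have hTm : ∀ y ∈ T, G.Adj x y ∧ F₁ y ∈ Rv G F₂ x ∧ F₁ y ∉ J := by
    intro y hy
    rw [hT, Finset.mem_filter] at hy
    refine ⟨?_, hy.2.1, hy.2.2⟩
    have h6 := hy.1
    unfold nb at h6
    rw [Finset.mem_filter] at h6
    exact h6.2
  have hc1 := v10c_count G F₁ x S₁ (T.filter fun y => F₁ y ∈ S₁) (fun y hy => by
    rw [Finset.mem_filter] at hy
    exact ⟨(hTm y hy.1).1, hy.2⟩)
  have hc2 := v10c_count G F₁ x S (T.filter fun y => ¬ F₁ y ∈ S₁) (fun y hy => by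
    rw [Finset.mem_filter] at hy
    obtain ⟨h7, h8, h9⟩ := hTm y hy.1
    refine ⟨h7, ?_⟩
    rw [hSdef, Finset.mem_filter]
    refine ⟨h8, fun h10 => ?_⟩
    have h11 : F₁ y ∈ A₂ := h10.1 hx
    rcases hJ _ h9 with h12 | h12
    · apply hy.2
      rw [hS1, Finset.mem_filter]
      exact ⟨Finset.mem_univ _, ⟨fun _ => h12, fun _ => hx⟩⟩
    · exact h12 h11)
  have hsum : (T.card : ℝ) =
      ((T.filter fun y => F₁ y ∈ S₁).card : ℝ) + ((T.filter fun y => ¬ F₁ y ∈ S₁).card : ℝ) := by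
    exact_mod_cast (Finset.card_filter_add_card_filter_not (s := T) (fun y => F₁ y ∈ S₁)).symm
  rw [hsum]
  have hE0 : 0 < Real.exp (-ra d q / 2) := Real.exp_pos _
  have h13 : Real.exp (-ra d q / 2) * q ≤ ra d q * Real.exp (-ra d q / 2) * q := by
    have : 0 ≤ Real.exp (-ra d q / 2) * q := by positivity
    nlinarith
  nlinarith

end Pool.Agent.LC
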