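import Pool.Agent.Lib_MP_2c424f_lc5.Defs5

/-!
# Part V, V10b: the first two terms

`y` odd, `f₁` satisfies `TyO` at `y` with respect to `A₁`, `f₂` with respect to `A₂`, and `c ∉ A₁` or `c ∈ A₂`.
If `c ∈ A₂`: `(y, c)` is of type B for `A₂`; (O3) of `f₂`: the sum is at most `∑ nc G f₂ x y c ≤ e^{-a/2} 2d`.
If `c ∉ A₁`: `(y, c)` is of type S for `A₁`; `Rv G f₁ x ⊆ Rc G f₁ x y`, so by (O1) at most `ep 2d` of the `x ~ y` contribute;
Cauchy-Schwarz and (O2) of `f₂`: the sum is at most `(ep 2d)^{1/2} (20 a² 2d)^{1/2} = 2d (20 ep a²)^{1/2} = 2d (20 a)^{1/2} e^{-a/2}`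
(`ep = e^{-a}/a`), and `(20 a)^{1/2} ≤ a` for `a ≥ 20`.
-/

set_option autoImplicit false

open Finset Filter

namespace Pool.Agent.LC

open Pool.Agent.LO Pool.Agent.LIN Pool.Agent.THR Pool.Agent.COR

open scoped Classical in
theorem row12 {Λ : Type} [Fintype Λ] {d q : ℕ} (ha : 20 ≤ ra d q) (G : SimpleGraph Λ) (ev : Λ → Prop)
    (A₁ A₂ : Finset (Fin q)) (f₁ f₂ : Λ → Fin q) (y : Λ) (hy : ¬ ev y) (h1 : TyO d G ev A₁ f₁ y)
    (h2 : TyO d G ev A₂ f₂ y) (c : Fin q) (hc : c ∉ A₁ ∨ c ∈ A₂) :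
    ∑ x ∈ nb G y, (if c ∈ Rv G f₁ x then (nc G f₂ x y c : ℝ) else 0) ≤
      ra d q * Real.exp (-ra d q / 2) * (2 * d) := by
  have ha0 : (0 : ℝ) < ra d q := by linarith
  have he : (0 : ℝ) < Real.exp (-ra d q / 2) := Real.exp_pos _
  have hd : (0 : ℝ) ≤ 2 * (d : ℝ) := by positivity
  rcases hc with hc | hc
  · -- `c ∉ A₁`
    have ht : tS ev A₁ y c := by
      unfold tS
      exact ⟨fun h => absurd h hy, fun h => absurd h hc⟩
    have o1 := h1.o1 c ht
    have o2 := h2.o2 c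
    set S : Finset Λ := (nb G y).filter fun x => c ∈ Rc G f₁ x y with hS
    have hle : ∑ x ∈ nb G y, (if c ∈ Rv G f₁ x then (nc G f₂ x y c : ℝ) else 0) ≤ ∑ x ∈ S, (nc G f₂ x y c : ℝ) := by
      rw [← Finset.sum_filter]
      refine Finset.sum_le_sum_of_subset_of_nonneg ?_ (fun _ _ _ => Nat.cast_nonneg _)
      intro x hx
      rw [Finset.mem_filter] at hx
      rw [hS, Finset.mem_filter]
      refine ⟨hx.1, ?_⟩
      have h := hx.2
      unfold Rv at h
      unfold Rc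
      rw [Finset.mem_filter] at h ⊢
      exact ⟨Finset.mem_univ _, fun z hz _ => h.2 z hz⟩
    refine hle.trans ?_
    have hcs : (∑ x ∈ S, (nc G f₂ x y c : ℝ)) ^ 2 ≤ (S.card : ℝ) * ∑ x ∈ S, (nc G f₂ x y c : ℝ) ^ 2 :=
      sq_sum_le_card_mul_sum_sq
    have hsub : ∑ x ∈ S, (nc G f₂ x y c : ℝ) ^ 2 ≤ 20 * ra d q ^ 2 * (2 * d) := by
      refine le_trans ?_ o2
      exact Finset.sum_le_sum_of_subset_of_nonneg (Finset.filter_subset _ _) (fun _ _ _ => sq_nonneg _)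
    have hsq : (∑ x ∈ S, (nc G f₂ x y c : ℝ)) ^ 2 ≤ (ra d q * Real.exp (-ra d q / 2) * (2 * d)) ^ 2 := by
      refine hcs.trans ?_
      have hep : (0 : ℝ) ≤ ep d q * (2 * d) := by unfold ep; positivity
      refine (mul_le_mul o1 hsub (Finset.sum_nonneg fun _ _ => sq_nonneg _) hep).trans ?_
      have hee : Real.exp (-ra d q) = Real.exp (-ra d q / 2) ^ 2 := by
        rw [sq, ← Real.exp_add]
        congr 1
        ring
      have hk : ep d q * (2 * d) * (20 * ra d q ^ 2 * (2 * d)) =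
          20 * ra d q * Real.exp (-ra d q / 2) ^ 2 * (2 * d) ^ 2 := by
        unfold ep
        rw [hee]
        field_simp
      rw [hk]
      have : 20 * ra d q ≤ ra d q ^ 2 := by nlinarith
      calc 20 * ra d q * Real.exp (-ra d q / 2) ^ 2 * (2 * d) ^ 2
          ≤ ra d q ^ 2 * Real.exp (-ra d q / 2) ^ 2 * (2 * d) ^ 2 := by gcongr
        _ = (ra d q * Real.exp (-ra d q / 2) * (2 * d)) ^ 2 := by ring
    exact le_of_sq_le_sq hsq (by positivity)
  · -- `c ∈ A₂`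
    have ht : ¬ tS ev A₂ y c := by
      unfold tS
      exact fun h => hy (h.2 hc)
    have o3 := h2.o3 c ht
    have hle : ∑ x ∈ nb G y, (if c ∈ Rv G f₁ x then (nc G f₂ x y c : ℝ) else 0) ≤ ∑ x ∈ nb G y, (nc G f₂ x y c : ℝ) := by
      refine Finset.sum_le_sum fun x _ => ?_
      split_ifs
      · exact le_refl _
      · exact Nat.cast_nonneg _
    refine (hle.trans o3).trans ?_
    have : (0 : ℝ) ≤ Real.exp (-ra d q / 2) * (2 * d) := by positivity
    nlinarith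

end Pool.Agent.LC
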