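import Pool.Agent.Lib_MP_2c424f_lc5.V10a
import Pool.Agent.Lib_MP_2c424f_lc5.V10b
import Pool.Agent.Lib_MP_2c424f_lc5.V10c

/-!
# Part V, V10: (A1), rows of the two-step conflict walk

`B ⊆ A`, `J = A \ B`.  `∑_{y'} Mk y y' = ∑_{x ~ y} ∑_{y' ~ x, y' ≠ y} pc x y y'`.  `pc_row` for the `x ~ y` (even, typical).
First term: `c = g y ∉ J`, i.e. `c ∉ A` or `c ∈ B`: `row12` with `(f, A)`, `(g, B)`.  Second term: `c = f y`: `c ∉ B` or `c ∈ A` always:
`row12` with `(g, B)`, `(f, A)`.  Third: `row34` with `(F₁, A₁) = (f, A)`, `(F₂, A₂) = (g, B)` (`c ∉ J → c ∈ A ∨ c ∉ B`); fourth: `(g, B)`,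
`(f, A)` (`c ∉ J → c ∈ B ∨ c ∉ A`).  At most `2d` points `x`; `2d/q = a`:
`∑ ≤ 2 · (3/q) a e^{-a/2} 2d + 2 · (9/q²) 2d · 7 a e^{-a/2} q = (6 a² + 126 a²) e^{-a/2} ≤ 200 a² e^{-a/2}`.
-/

set_option autoImplicit false

open Finset Filter

namespace Pool.Agent.LC

open Pool.Agent.LO Pool.Agent.LIN Pool.Agent.THR Pool.Agent.COR

open scoped Classical in
theorem row_le {Λ : Type} [Fintype Λ] {d q : ℕ} (hR : Rg d q) (hq : 1 ≤ q) (G : SimpleGraph Λ) (ev : Λ → Prop)
    (hP : Par G ev) (A B : Finset (Fin q)) (hB : B ⊆ A) (f g : Λ → Fin q) (y : Λ) (hy : ¬ ev y)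
    (hc : cert d G ev A B f g y) :
    ∑ y', Mk G (A \ B) f g y y' ≤ rh d q := by
  obtain ⟨⟨hAf, hBg, hdy⟩, hx⟩ := hc
  have hq0 : (0 : ℝ) < q := by exact_mod_cast hq
  set J : Finset (Fin q) := A \ B with hJ
  have hJ1 : ∀ c, c ∉ J → c ∉ A ∨ c ∈ B := by
    intro c hc
    by_cases h : c ∈ A
    · right
      by_contra h2
      exact hc (mem_sdiff.2 ⟨h, h2⟩)
    · exact Or.inl h
  set a : ℝ := ra d q with ha
  have hqa : a * q = 2 * d := by
    rw [ha, ra]
    field_simp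
  have ha1000 : (1000 : ℝ) ≤ a := by
    have h1 : (1000 : ℝ) * q ≤ 2 * d := by exact_mod_cast hR.2.1
    rw [← hqa] at h1
    exact le_of_mul_le_mul_right h1 hq0
  have ha0 : 0 < a := by linarith
  set E : ℝ := Real.exp (-a / 2) with hE
  have hE0 : 0 < E := Real.exp_pos _
  have hev : ∀ x ∈ nb G y, ev x := by
    intro x hx
    have h1 : G.Adj y x := by simpa [nb] using hx
    have h2 := hP x y h1.symm
    exact h2.2 hy
  -- rewrite the sum
  have h1 : ∑ y', Mk G J f g y y' = ∑ x ∈ nb G y, ∑ y' ∈ (nb G x).erase y, pc G J f g x y y' := by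
    unfold Mk
    rw [sum_comm]
    have h2 : ∀ x : Λ, (∑ y' : Λ, if G.Adj y x ∧ G.Adj x y' ∧ y ≠ y' then pc G J f g x y y' else 0) =
        if G.Adj y x then ∑ y' ∈ (nb G x).erase y, pc G J f g x y y' else 0 := by
      intro x
      by_cases h : G.Adj y x
      · simp only [h, true_and, if_true]
        rw [← sum_filter]
        apply sum_congr _ (fun _ _ => rfl)
        ext y'
        simp only [mem_filter, mem_univ, true_and, mem_erase, nb]
        constructor
        · rintro ⟨h3, h4⟩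
          exact ⟨fun h5 => h4 h5.symm, h3⟩
        · rintro ⟨h3, h4⟩
          exact ⟨h4, fun h5 => h3 h5.symm⟩
      · simp [h]
    rw [sum_congr rfl fun x _ => h2 x, ← sum_filter]
    rfl
  rw [h1]
  have h2 : ∑ x ∈ nb G y, ∑ y' ∈ (nb G x).erase y, pc G J f g x y y' ≤
      ∑ x ∈ nb G y, (3 / (q : ℝ) * (if g y ∈ Rv G f x ∧ g y ∉ J then (nc G g x y (g y) : ℝ) else 0) +
      3 / q * (if f y ∈ Rv G g x ∧ f y ∉ J then (nc G f x y (f y) : ℝ) else 0) +
      126 / q * (a * E)) := by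
    apply sum_le_sum
    intro x hxy
    obtain ⟨hxA, hxB, hdx⟩ := hx x hxy
    refine (pc_row G J f g x y hq hxA.e1 hxB.e1).trans ?_
    have h3 := row34 (d := d) (by linarith : (1 : ℝ) ≤ ra d q) G ev J A B (fun c hc => by
      rcases hJ1 c hc with h | h
      · exact Or.inr fun h' => h (hB h')
      · exact Or.inl (hB h)) f g x (hev x hxy) hxA hxB
    have h4 := row34 (d := d) (by linarith : (1 : ℝ) ≤ ra d q) G ev J B A (fun c hc => (hJ1 c hc).symm)
      g f x (hev x hxy) hxB hxA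
    have h5 : 9 / (q : ℝ) ^ 2 * (((nb G x).filter fun y' => f y' ∈ Rv G g x ∧ f y' ∉ J).card : ℝ) ≤
        63 / q * (a * E) := by
      calc 9 / (q : ℝ) ^ 2 * (((nb G x).filter fun y' => f y' ∈ Rv G g x ∧ f y' ∉ J).card : ℝ)
          ≤ 9 / (q : ℝ) ^ 2 * (7 * a * E * q) := by
            apply mul_le_mul_of_nonneg_left h3 (by positivity)
        _ = 63 / q * (a * E) := by field_simp; ring
    have h6 : 9 / (q : ℝ) ^ 2 * (((nb G x).filter fun y' => g y' ∈ Rv G f x ∧ g y' ∉ J).card : ℝ) ≤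
        63 / q * (a * E) := by
      calc 9 / (q : ℝ) ^ 2 * (((nb G x).filter fun y' => g y' ∈ Rv G f x ∧ g y' ∉ J).card : ℝ)
          ≤ 9 / (q : ℝ) ^ 2 * (7 * a * E * q) := by
            apply mul_le_mul_of_nonneg_left h4 (by positivity)
        _ = 63 / q * (a * E) := by field_simp; ring
    have h7 : 126 / (q : ℝ) * (a * E) = 63 / q * (a * E) + 63 / q * (a * E) := by ring
    rw [h7]
    linarith
  refine h2.trans ?_
  rw [sum_add_distrib, sum_add_distrib, ← mul_sum, ← mul_sum, sum_const, nsmul_eq_mul]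
  have hn : 0 ≤ a * E * (2 * d) := by positivity
  have h3 : ∑ x ∈ nb G y, (if g y ∈ Rv G f x ∧ g y ∉ J then (nc G g x y (g y) : ℝ) else 0) ≤
      a * E * (2 * d) := by
    by_cases h : g y ∈ J
    · simp only [h, not_true_eq_false, and_false, if_false, sum_const_zero]
      exact hn
    · simp only [h, not_false_eq_true, and_true]
      exact row12 (by linarith : (20 : ℝ) ≤ ra d q) G ev A B f g y hy hAf hBg (g y) (hJ1 _ h)
  have h4 : ∑ x ∈ nb G y, (if f y ∈ Rv G g x ∧ f y ∉ J then (nc G f x y (f y) : ℝ) else 0) ≤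
      a * E * (2 * d) := by
    by_cases h : f y ∈ J
    · simp only [h, not_true_eq_false, and_false, if_false, sum_const_zero]
      exact hn
    · simp only [h, not_false_eq_true, and_true]
      refine row12 (by linarith : (20 : ℝ) ≤ ra d q) G ev B A g f y hy hBg hAf (f y) ?_
      by_cases h' : f y ∈ B
      · exact Or.inr (hB h')
      · exact Or.inl h'
  have h5 : ((nb G y).card : ℝ) ≤ 2 * d := by exact_mod_cast hdy
  have h6 : ((nb G y).card : ℝ) * (126 / q * (a * E)) ≤ 2 * d * (126 / q * (a * E)) :=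
    mul_le_mul_of_nonneg_right h5 (by positivity)
  have h7 : 3 / (q : ℝ) * ∑ x ∈ nb G y, (if g y ∈ Rv G f x ∧ g y ∉ J then (nc G g x y (g y) : ℝ) else 0) ≤
      3 / q * (a * E * (2 * d)) := mul_le_mul_of_nonneg_left h3 (by positivity)
  have h8 : 3 / (q : ℝ) * ∑ x ∈ nb G y, (if f y ∈ Rv G g x ∧ f y ∉ J then (nc G f x y (f y) : ℝ) else 0) ≤
      3 / q * (a * E * (2 * d)) := mul_le_mul_of_nonneg_left h4 (by positivity)
  have h9 : 3 / (q : ℝ) * (a * E * (2 * d)) = 3 * (a ^ 2 * E) := by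
    rw [← hqa]; field_simp
  have h10 : 2 * (d : ℝ) * (126 / q * (a * E)) = 126 * (a ^ 2 * E) := by
    rw [← hqa]; field_simp
  have h11 : rh d q = 200 * (a ^ 2 * E) := by
    rw [rh, ← ha, ← hE]; ring
  have h12 : 0 ≤ a ^ 2 * E := by positivity
  rw [h11]
  rw [h9] at h7 h8
  rw [h10] at h6
  linarith

end Pool.Agent.LC
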