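import Pool.Agent.Lib_MP_2c424f_lc5.Defs5
import Pool.Agent.Lib_MP_2c424f_cor.K03

/-!
# Part V, V02: deleting the edges at few sites

`COR.add_edges` with `G = dlG X D`, `G' = X`, `E` = the pairs `(v, w)` with `v ∈ D`, `X.Adj v w`: at most `4 d |D|` pairs, so
`(1 - 1/q)^{4 d |D|} Z(dlG) ≤ Z(X)`, and `1/(1 - 1/q) ≤ e^{2/q}` for `q ≥ 2` (`1 - x ≥ e^{-2x}` for `0 ≤ x ≤ 1/2`).
-/

set_option autoImplicit false

open Finset Filter

namespace Pool.Agent.LC

open Pool.Agent.LO Pool.Agent.LIN Pool.Agent.THR Pool.Agent.COR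

theorem V02_exp {x : ℝ} (h0 : 0 ≤ x) (h1 : x ≤ 1 / 2) : Real.exp (-(2 * x)) ≤ 1 - x := by
  have h2 : 0 < 1 + 2 * x := by linarith
  have h3 : 1 + 2 * x ≤ Real.exp (2 * x) := by
    have := Real.add_one_le_exp (2 * x)
    linarith
  rw [Real.exp_neg]
  calc (Real.exp (2 * x))⁻¹ ≤ (1 + 2 * x)⁻¹ := inv_anti₀ h2 h3
    _ ≤ 1 - x := by
      rw [inv_le_iff_one_le_mul₀ h2]
      nlinarith

theorem dl_le {V : Type} [Fintype V] [DecidableEq V] {d q : ℕ} (hq : 2 ≤ q) {X : SimpleGraph V} {ev : V → Prop}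
    (hP : Par X ev) (hdeg : ∀ v, (nb X v).card ≤ 4 * d) (D : Finset V) :
    cG (dlG X D) (fun _ : V → Fin q => True) ≤
      Real.exp (8 * d * D.card / q) * cG X (fun _ : V → Fin q => True) := by
  classical
  set E : Finset (V × V) := D.biUnion fun v => (nb X v).image fun w => (v, w) with hE
  have hcard : E.card ≤ D.card * (4 * d) := by
    refine Finset.card_biUnion_le.trans ?_
    calc ∑ v ∈ D, ((nb X v).image fun w => (v, w)).card ≤ ∑ _v ∈ D, 4 * d :=
          Finset.sum_le_sum fun v _ => Finset.card_image_le.trans (hdeg v)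
      _ = D.card * (4 * d) := by rw [Finset.sum_const, smul_eq_mul]
  have hle : dlG X D ≤ X := fun v w h => h.1
  have h1 := add_edges (q := q) hP hle (by omega) E (by
    intro x y hxy
    by_cases hx : x ∈ D
    · right; left
      exact Finset.mem_biUnion.2 ⟨x, hx, Finset.mem_image.2 ⟨y, by simp [nb, hxy], rfl⟩⟩
    · by_cases hy : y ∈ D
      · right; right
        exact Finset.mem_biUnion.2 ⟨y, hy, Finset.mem_image.2 ⟨x, by simp [nb, hxy.symm], rfl⟩⟩
      · left
        exact ⟨hxy, hx, hy⟩)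
  have hq0 : (0 : ℝ) < q := by
    have : 0 < q := by omega
    exact_mod_cast this
  have hq2 : (2 : ℝ) ≤ q := by exact_mod_cast hq
  have hx0 : (0 : ℝ) ≤ 1 / q := by positivity
  have hx1 : (1 : ℝ) / q ≤ 1 / 2 := one_div_le_one_div_of_le (by norm_num) hq2
  have h2 := V02_exp hx0 hx1
  have h3 : Real.exp (-(8 * d * D.card / q)) ≤ (1 - 1 / (q : ℝ)) ^ E.card := by
    calc Real.exp (-(8 * d * D.card / q)) ≤ Real.exp (E.card * -(2 * (1 / (q : ℝ)))) := by
          apply Real.exp_le_exp.2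
          have h4 : (E.card : ℝ) ≤ D.card * (4 * d) := by exact_mod_cast hcard
          have h5 : (E.card : ℝ) * (2 * (1 / (q : ℝ))) ≤ D.card * (4 * d) * (2 * (1 / (q : ℝ))) :=
            mul_le_mul_of_nonneg_right h4 (by positivity)
          have h6 : (D.card : ℝ) * (4 * d) * (2 * (1 / (q : ℝ))) = 8 * d * D.card / q := by ring
          linarith
      _ = Real.exp (-(2 * (1 / (q : ℝ)))) ^ E.card := by rw [Real.exp_nat_mul]
      _ ≤ _ := pow_le_pow_left₀ (Real.exp_pos _).le h2 _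
  have hZ : 0 ≤ cG (dlG X D) (fun _ : V → Fin q => True) := by
    unfold cG
    positivity
  have h7 : Real.exp (-(8 * d * D.card / q)) * cG (dlG X D) (fun _ : V → Fin q => True) ≤
      cG X (fun _ : V → Fin q => True) := (mul_le_mul_of_nonneg_right h3 hZ).trans h1
  calc cG (dlG X D) (fun _ : V → Fin q => True)
      = Real.exp (8 * d * D.card / q) * (Real.exp (-(8 * d * D.card / q)) *
          cG (dlG X D) (fun _ : V → Fin q => True)) := by
        rw [← mul_assoc, ← Real.exp_add]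
        simp
    _ ≤ _ := mul_le_mul_of_nonneg_left h7 (Real.exp_pos _).le

end Pool.Agent.LC
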