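import Pool.Agent.Lib_MP_2c424f_lc5.Defs5

/-!
# Part V, V12a: a window with few points of a set; number of small subsets

`window`: the windows `b₀ = 1 + w (n+1)`, `w < N = (h - 3) / (n + 1)` are disjoint and satisfy `b₀ + n + 2 ≤ h`; one of them has at
most `|A| / N` points of `A`, and `h ≤ 2 (n+1) N` as `2n + 8 ≤ h` (`(n+1) N ≥ h - 3 - n`).
`small_subsets`: `∑_{D ⊆ W, |D| ≤ s} 1 ≤ ∑_{D ⊆ W} e^{L (s - |D|)} = e^{L s} (1 + e^{-L})^{|W|}` and `1 + x ≤ e^x`.
-/

set_option autoImplicit false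

open Finset Filter

namespace Pool.Agent.LC

open Pool.Agent.LO Pool.Agent.LIN Pool.Agent.THR Pool.Agent.COR

open scoped Classical in
theorem window {Λ : Type} [Fintype Λ] [DecidableEq Λ] (lv : Λ → ℕ) (h n : ℕ) (hn : 2 * n + 8 ≤ h) (A : Finset Λ) :
    ∃ b₀, 1 ≤ b₀ ∧ b₀ + n + 2 ≤ h ∧ (A ∩ wn lv b₀ (b₀ + n)).card * h ≤ 2 * (n + 1) * A.card := by
  set N : ℕ := (h - 3) / (n + 1) with hN
  have hN1 : N * (n + 1) ≤ h - 3 := Nat.div_mul_le_self _ _
  have hN2 : h - 3 < N * (n + 1) + (n + 1) := by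
    have := Nat.lt_div_mul_add (a := h - 3) (b := n + 1) (by omega)
    rw [← hN] at this
    exact this
  have hNpos : 0 < N := by
    rw [hN]
    exact Nat.div_pos (by omega) (by omega)
  have hh : h ≤ 2 * (N * (n + 1)) := by omega
  have hdisj : ∀ w ∈ range N, ∀ w' ∈ range N, w ≠ w' →
      Disjoint (A ∩ wn lv (1 + w * (n + 1)) (1 + w * (n + 1) + n))
        (A ∩ wn lv (1 + w' * (n + 1)) (1 + w' * (n + 1) + n)) := by
    intro w _ w' _ hne
    rw [Finset.disjoint_left]
    intro x hx hx'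
    simp only [wn, mem_inter, mem_filter, mem_univ, true_and] at hx hx'
    obtain ⟨_, h1, h2⟩ := hx
    obtain ⟨_, h3, h4⟩ := hx'
    rcases lt_or_gt_of_ne hne with hlt | hgt
    · have h5 : (w + 1) * (n + 1) ≤ w' * (n + 1) := Nat.mul_le_mul_right _ hlt
      have h6 : (w + 1) * (n + 1) = w * (n + 1) + (n + 1) := by ring
      omega
    · have h5 : (w' + 1) * (n + 1) ≤ w * (n + 1) := Nat.mul_le_mul_right _ hgt
      have h6 : (w' + 1) * (n + 1) = w' * (n + 1) + (n + 1) := by ring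
      omega
  have hsum : ∑ w ∈ range N, (A ∩ wn lv (1 + w * (n + 1)) (1 + w * (n + 1) + n)).card ≤ A.card := by
    rw [← Finset.card_biUnion hdisj]
    apply Finset.card_le_card
    intro x hx
    rw [Finset.mem_biUnion] at hx
    obtain ⟨w, _, hw⟩ := hx
    exact (Finset.mem_inter.1 hw).1
  obtain ⟨w, hw, hle⟩ := Finset.exists_le_of_sum_le (s := range N)
    (f := fun w => (A ∩ wn lv (1 + w * (n + 1)) (1 + w * (n + 1) + n)).card * h)
    (g := fun _ => 2 * (n + 1) * A.card) (Finset.nonempty_range_iff.2 hNpos.ne') (by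
      rw [← Finset.sum_mul, Finset.sum_const, Finset.card_range, smul_eq_mul]
      calc (∑ w ∈ range N, (A ∩ wn lv (1 + w * (n + 1)) (1 + w * (n + 1) + n)).card) * h
          ≤ A.card * (2 * (N * (n + 1))) := Nat.mul_le_mul hsum hh
        _ = N * (2 * (n + 1) * A.card) := by ring)
  refine ⟨1 + w * (n + 1), by omega, ?_, hle⟩
  have h5 : (w + 1) * (n + 1) ≤ N * (n + 1) := Nat.mul_le_mul_right _ (Finset.mem_range.1 hw)
  have h6 : (w + 1) * (n + 1) = w * (n + 1) + (n + 1) := by ring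
  omega

open scoped Classical in
theorem small_subsets {Λ : Type} [DecidableEq Λ] (W : Finset Λ) (s L : ℝ) (hL : 0 ≤ L) :
    ((W.powerset.filter fun D => (D.card : ℝ) ≤ s).card : ℝ) ≤ Real.exp (L * s + W.card * Real.exp (-L)) := by
  have h1 : ((W.powerset.filter fun D => (D.card : ℝ) ≤ s).card : ℝ)
      ≤ ∑ D ∈ W.powerset, Real.exp (L * s) * ∏ _i ∈ D, Real.exp (-L) := by
    have h2 : ((W.powerset.filter fun D => (D.card : ℝ) ≤ s).card : ℝ)
        = ∑ D ∈ W.powerset.filter (fun D => (D.card : ℝ) ≤ s), (1 : ℝ) := by simp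
    rw [h2]
    refine le_trans (Finset.sum_le_sum (g := fun D => Real.exp (L * s) * ∏ _i ∈ D, Real.exp (-L)) ?_)
      (Finset.sum_le_sum_of_subset_of_nonneg (Finset.filter_subset _ _) ?_)
    · intro D hD
      have h3 : (D.card : ℝ) ≤ s := (Finset.mem_filter.1 hD).2
      rw [Finset.prod_const, ← Real.exp_nat_mul, ← Real.exp_add]
      apply Real.one_le_exp
      have h4 := mul_le_mul_of_nonneg_left h3 hL
      linarith
    · intro D _ _
      positivity
  have h5 : ∑ D ∈ W.powerset, Real.exp (L * s) * ∏ _i ∈ D, Real.exp (-L)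
      = Real.exp (L * s) * (1 + Real.exp (-L)) ^ W.card := by
    rw [← Finset.mul_sum, ← Finset.prod_one_add, Finset.prod_const]
  rw [h5] at h1
  refine h1.trans ?_
  rw [Real.exp_add, Real.exp_nat_mul]
  have h6 : 1 + Real.exp (-L) ≤ Real.exp (Real.exp (-L)) := by
    have := Real.add_one_le_exp (Real.exp (-L))
    linarith
  gcongr

end Pool.Agent.LC
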