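import Pool.Agent.Lib_MP_2c424f_lc.Defs

/-!
# MP_2c424f_pr, linear corners, Part V (switching): definitions

`G` a finite graph (the layer), two configurations `Φ Ψ : Λ → Fin q` on it.
-/

set_option autoImplicit false

open Finset Filter

namespace Pool.Agent.LC

open Pool.Agent.LO Pool.Agent.LIN Pool.Agent.THR Pool.Agent.COR

section
variable {Λ : Type} {q : ℕ}

/-- conflict edges -/
def cf (G : SimpleGraph Λ) (Φ Ψ : Λ → Fin q) (p p' : Λ) : Prop :=
  G.Adj p p' ∧ (Φ p = Ψ p' ∨ Ψ p = Φ p')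

/-- no conflict path outside `Del` from the level `h - 1` to the level `0` -/
def sp (G : SimpleGraph Λ) (lv : Λ → ℕ) (h : ℕ) (Φ Ψ : Λ → Fin q) (Del : Finset Λ) : Prop :=
  ∀ p p', lv p + 1 = h → p ∉ Del → Relation.ReflTransGen (fun a b => cf G Φ Ψ a b ∧ b ∉ Del) p p' → lv p' ≠ 0

/-- the graph without the edges at `D` -/
def dlG {V : Type} (X : SimpleGraph V) (D : Finset V) : SimpleGraph V where
  Adj v w := X.Adj v w ∧ v ∉ D ∧ w ∉ D
  symm := ⟨fun _ _ h => ⟨h.1.symm, h.2.2, h.2.1⟩⟩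
  loopless := ⟨fun v h => X.loopless.irrefl v h.1⟩

open scoped Classical in
/-- `x` is joined to `y` by a conflict through a colour outside `J`, if `x` has the colours `(u, v)` -/
def cj (J : Finset (Fin q)) (Φ Ψ : Λ → Fin q) (y : Λ) (u v : Fin q) : Prop :=
  (u = Ψ y ∧ u ∉ J) ∨ (v = Φ y ∧ v ∉ J)

open scoped Classical in
/-- probability that `x` is joined to `y` and `y'`: the colours of `x` are uniform in `R_x(Φ) × R_x(Ψ)` -/
noncomputable def pc [Fintype Λ] (G : SimpleGraph Λ) (J : Finset (Fin q)) (Φ Ψ : Λ → Fin q) (x y y' : Λ) : ℝ :=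
  (((Rv G Φ x ×ˢ Rv G Ψ x).filter fun w => cj J Φ Ψ y w.1 w.2 ∧ cj J Φ Ψ y' w.1 w.2).card : ℝ) /
    (((Rv G Φ x).card : ℝ) * ((Rv G Ψ x).card : ℝ))

open scoped Classical in
/-- the kernel of the two-step conflict walk on the odd points -/
noncomputable def Mk [Fintype Λ] (G : SimpleGraph Λ) (J : Finset (Fin q)) (Φ Ψ : Λ → Fin q) (y y' : Λ) : ℝ :=
  ∑ x : Λ, if G.Adj y x ∧ G.Adj x y' ∧ y ≠ y' then pc G J Φ Ψ x y y' else 0

/-- the odd point `y` is certified -/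
def cert [Fintype Λ] (d : ℕ) (G : SimpleGraph Λ) (ev : Λ → Prop) (A B : Finset (Fin q)) (Φ Ψ : Λ → Fin q) (y : Λ) :
    Prop :=
  (TyO d G ev A Φ y ∧ TyO d G ev B Ψ y ∧ (nb G y).card ≤ 2 * d) ∧
    ∀ x ∈ nb G y, TyE d G ev A Φ x ∧ TyE d G ev B Ψ x ∧ (nb G x).card ≤ 2 * d

open scoped Classical in
/-- the odd points which are not certified -/
noncomputable def At [Fintype Λ] (d : ℕ) (G : SimpleGraph Λ) (ev : Λ → Prop) (A : Finset (Fin q)) (Φ Ψ : Λ → Fin q) :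
    Finset Λ :=
  univ.filter fun y => ¬ ev y ∧ ¬ cert d G ev A A Φ Ψ y

/-- `ρ = 200 a² e^{-a/2}` -/
noncomputable def rh (d q : ℕ) : ℝ := 200 * ra d q ^ 2 * Real.exp (-ra d q / 2)

open scoped Classical in
/-- the window of the levels `b₀, …, b₁` -/
noncomputable def wn [Fintype Λ] (lv : Λ → ℕ) (b₀ b₁ : ℕ) : Finset Λ := univ.filter fun p => b₀ ≤ lv p ∧ lv p ≤ b₁

/-- a self-avoiding conflict path of `n` steps in `W` which starts at `p` and has fewer than `m` points in `A` -/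
def CP [DecidableEq Λ] (G : SimpleGraph Λ) (Φ Ψ : Λ → Fin q) (W A : Finset Λ) (n m : ℕ) (p : Λ) : Prop :=
  ∃ s : ℕ → Λ, s 0 = p ∧ (∀ k ≤ n, s k ∈ W) ∧ (∀ k < n, cf G Φ Ψ (s k) (s (k + 1))) ∧
    (∀ k ≤ n, ∀ l ≤ n, s k = s l → k = l) ∧ (((range (n + 1)).image s) ∩ A).card < m

open scoped Classical in
/-- odd points of `W` which start a two-step conflict walk of length `n` in `W` with distinct even points and fewer
than `m` (indices of) points in `A` -/
noncomputable def PT [Fintype Λ] (G : SimpleGraph Λ) (ev : Λ → Prop) (Φ Ψ : Λ → Fin q) (W A : Finset Λ) (n m : ℕ) :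
    Finset Λ :=
  W.filter fun y₀ => ¬ ev y₀ ∧ ∃ (y : Fin (n + 1) → Λ) (x : Fin n → Λ), y 0 = y₀ ∧ Function.Injective x ∧
    (∀ k, y k ∈ W) ∧ (∀ k, x k ∈ W) ∧
    (∀ k : Fin n, cf G Φ Ψ (y k.castSucc) (x k) ∧ cf G Φ Ψ (x k) (y k.succ) ∧ y k.castSucc ≠ y k.succ) ∧
    (univ.filter fun k : Fin n => y k.castSucc ∈ A).card < m

end

/-- the configurations on the layer -/
def fb {V Λ : Type} {q : ℕ} (i : Bool → Λ → V) (F : V → Fin q) (b : Bool) : Λ → Fin q := fun p => F (i b p)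

end Pool.Agent.LC
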