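import Pool.Agent.Lib_MP_2c424f_lc.PIVd

/-!
# Part V: the numerical situation of the switching theorem

`l = 2^s` side of the cells, `h` number of levels, `n` number of cells, `λ` number of points of the layer, `Y` bound for the
size of the levels.
-/

set_option autoImplicit false

open Finset Filter

namespace Pool.Agent.LC

open Pool.Agent.LO Pool.Agent.LIN Pool.Agent.THR Pool.Agent.COR

/-- the numerical hypotheses of `switch` -/
structure NumH (C d q s h n lam : ℕ) (Y : ℝ) : Prop where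
  hR : Rg d q
  h1 : (d : ℝ) ^ C ≤ 2 ^ s
  h2 : (2 : ℝ) ^ s * (d : ℝ) ^ C ≤ h
  h3 : (h : ℝ) ^ 2 ≤ 2 ^ d
  h4 : 1 ≤ n
  h5 : (lam : ℝ) ≤ h * Y
  h6 : h * Y * (1 - 1 / (d : ℝ) ^ C) ≤ n * ((2 : ℝ) ^ s + 1) ^ d
  h7 : n * ((2 : ℝ) ^ s + 1) ^ d ≤ lam

end Pool.Agent.LC
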