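import Pool.Agent.Lib_MP_2c424f_lc5.Defs5

/-!
# Part V, V01: exchanging the two copies on the part of the layer next to the level 0

Let `F` be `X`-proper, `Φ = fb i F false`, `Ψ = fb i F true`, and suppose `sp G lv h Φ Ψ Del`.
`I := {p : ∃ p₀, lv p₀ + 1 = h, p₀ ∉ Del, p₀ →* p}` where `→*` is the reflexive transitive closure of
`cf a b ∧ b ∉ Del`.  So `I ∩ Del = ∅`, every `p ∉ Del` with `lv p + 1 = h` is in `I`, and no point of `I` has level `0`.
`W := {p : p ∉ I, p ∉ Del}`.  `F'`: for `p ∈ W` exchange the values at `i false p` and `i true p`; `F' = F` elsewhere.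
1. `F'` is proper on `dlG X' (Del.image (i false) ∪ Del.image (i true))`:
   two points `i b p`, `i b p'` with `G.Adj p p'`, `p, p' ∉ Del`: both in `W` or both in `I`: clear (`adj`, `adj'`);
   `p ∈ W`, `p' ∈ I`: no conflict edge (`cf` is symmetric up to `G.Adj` symmetry, otherwise `p ∈ I`), so
   `F (i (!b) p) ≠ F (i b p')`.
   A point `v` outside the layer and `i b p`, `p ∉ Del`, `X'`-adjacent: by `oi`, `X.Adj v (i (if lv p = 0 then !b else b) p)`;
   by `out`, `lv p = 0` (then `p ∈ W` and `F' (i b p) = F (i (!b) p) ≠ F v`) or `lv p + 1 = h` (then `p ∈ I` and nothing changes;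
   `lv p ≠ 0` as `2 ≤ h`).   Two points outside: `oo`.
2. `F ↦ F'` is injective on the set of these `F`: the conflict relation `cf` on pairs of points outside `Del` is the same for
   `F` and `F'` (both in `W`: the two equalities are exchanged; both in `I`: nothing changes; `p ∈ W`, `p' ∈ I`: no conflict
   for `F`; for `F'` a conflict would be `Ψ p = Ψ p'` or `Φ p = Φ p'`, impossible since `F` is proper).  So `I` (the closure from
   the level `h - 1`) is the same for `F` and `F'`, hence `W`, and `F` is recovered by exchanging again.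
-/

set_option autoImplicit false

open Finset Filter

namespace Pool.Agent.LC

open Pool.Agent.LO Pool.Agent.LIN Pool.Agent.THR Pool.Agent.COR

section V01
variable {V Λ : Type} {q : ℕ}

open scoped Classical in
/-- exchange of the two copies on `W` -/
private noncomputable def V01_sg (i : Bool → Λ → V) (W : Λ → Prop) (v : V) : V :=
  if h : ∃ bp : Bool × Λ, W bp.2 ∧ v = i bp.1 bp.2 then i (!h.choose.1) h.choose.2 else v

private theorem V01_sg_in {i : Bool → Λ → V}
    (inj : ∀ b b' p p', i b p = i b' p' → b = b' ∧ p = p') {W : Λ → Prop} {b : Bool} {p : Λ}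
    (h : W p) : V01_sg i W (i b p) = i (!b) p := by
  have hex : ∃ bp : Bool × Λ, W bp.2 ∧ i b p = i bp.1 bp.2 := ⟨(b, p), h, rfl⟩
  unfold V01_sg
  rw [dif_pos hex]
  have h2 := inj _ _ _ _ hex.choose_spec.2
  rw [← h2.1, ← h2.2]

private theorem V01_sg_nin {i : Bool → Λ → V}
    (inj : ∀ b b' p p', i b p = i b' p' → b = b' ∧ p = p') {W : Λ → Prop} {b : Bool} {p : Λ}
    (h : ¬ W p) : V01_sg i W (i b p) = i b p := by
  unfold V01_sg
  rw [dif_neg]
  rintro ⟨bp, h1, h2⟩
  exact h ((inj _ _ _ _ h2).2 ▸ h1)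

private theorem V01_sg_out {i : Bool → Λ → V} {W : Λ → Prop} {v : V}
    (hv : ∀ b p, v ≠ i b p) : V01_sg i W v = v := by
  unfold V01_sg
  rw [dif_neg]
  rintro ⟨bp, _, h2⟩
  exact hv _ _ h2

private theorem V01_sg_sg {i : Bool → Λ → V}
    (inj : ∀ b b' p p', i b p = i b' p' → b = b' ∧ p = p') {W : Λ → Prop} (v : V) :
    V01_sg i W (V01_sg i W v) = v := by
  by_cases hv : ∀ b p, v ≠ i b p
  · rw [V01_sg_out hv, V01_sg_out hv]
  · push Not at hv
    obtain ⟨b, p, rfl⟩ := hv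
    by_cases hp : W p
    · rw [V01_sg_in inj hp, V01_sg_in inj hp, Bool.not_not]
    · rw [V01_sg_nin inj hp, V01_sg_nin inj hp]

private theorem V01_cf_symm {G : SimpleGraph Λ} {Φ Ψ : Λ → Fin q} {a b : Λ} (h : cf G Φ Ψ a b) :
    cf G Φ Ψ b a := ⟨h.1.symm, h.2.elim (fun e => Or.inr e.symm) (fun e => Or.inl e.symm)⟩

/-- the points joined to the level `h - 1` -/
private def V01_I (G : SimpleGraph Λ) (lv : Λ → ℕ) (h : ℕ) (Φ Ψ : Λ → Fin q) (Del : Finset Λ)
    (p : Λ) : Prop :=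
  ∃ p₀, lv p₀ + 1 = h ∧ p₀ ∉ Del ∧
    Relation.ReflTransGen (fun a b => cf G Φ Ψ a b ∧ a ∉ Del ∧ b ∉ Del) p₀ p

private theorem V01_I_nd {G : SimpleGraph Λ} {lv : Λ → ℕ} {h : ℕ} {Φ Ψ : Λ → Fin q}
    {Del : Finset Λ} {p : Λ} (hp : V01_I G lv h Φ Ψ Del p) : p ∉ Del := by
  obtain ⟨p₀, _, h2, h3⟩ := hp
  rcases Relation.ReflTransGen.cases_tail h3 with h4 | ⟨c, _, h4⟩
  · rw [h4]; exact h2
  · exact h4.2.2

private theorem V01_I_step {G : SimpleGraph Λ} {lv : Λ → ℕ} {h : ℕ} {Φ Ψ : Λ → Fin q}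
    {Del : Finset Λ} {p p' : Λ} (hp : V01_I G lv h Φ Ψ Del p) (hc : cf G Φ Ψ p p')
    (hp' : p' ∉ Del) : V01_I G lv h Φ Ψ Del p' := by
  have hd := V01_I_nd hp
  obtain ⟨p₀, h1, h2, h3⟩ := hp
  exact ⟨p₀, h1, h2, h3.tail ⟨hc, hd, hp'⟩⟩

private theorem V01_I_lv {G : SimpleGraph Λ} {lv : Λ → ℕ} {h : ℕ} {Φ Ψ : Λ → Fin q}
    {Del : Finset Λ} (hs : sp G lv h Φ Ψ Del) {p : Λ} (hp : V01_I G lv h Φ Ψ Del p) :
    lv p ≠ 0 := by
  obtain ⟨p₀, h1, h2, h3⟩ := hp
  refine hs p₀ p h1 h2 ?_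
  clear h2 hs
  induction h3 with
  | refl => exact Relation.ReflTransGen.refl
  | tail _ h5 ih => exact ih.tail ⟨h5.1, h5.2.2⟩

/-- the exchanged points -/
private def V01_W (G : SimpleGraph Λ) (lv : Λ → ℕ) (h : ℕ) (Φ Ψ : Λ → Fin q) (Del : Finset Λ)
    (p : Λ) : Prop := ¬ V01_I G lv h Φ Ψ Del p ∧ p ∉ Del

/-- the new colouring -/
private noncomputable def V01_sw (G : SimpleGraph Λ) (lv : Λ → ℕ) (h : ℕ) (i : Bool → Λ → V)
    (Del : Finset Λ) (F : V → Fin q) : V → Fin q :=
  fun v => F (V01_sg i (V01_W G lv h (fb i F false) (fb i F true) Del) v)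

private theorem V01_cf {G : SimpleGraph Λ} {lv : Λ → ℕ} {h : ℕ} {Φ Ψ Φ' Ψ' : Λ → Fin q}
    {Del : Finset Λ} (hΦ : PrG G Φ) (hΨ : PrG G Ψ)
    (h1 : ∀ p, V01_W G lv h Φ Ψ Del p → Φ' p = Ψ p ∧ Ψ' p = Φ p)
    (h2 : ∀ p, ¬ V01_W G lv h Φ Ψ Del p → Φ' p = Φ p ∧ Ψ' p = Ψ p) {a b : Λ} (ha : a ∉ Del)
    (hb : b ∉ Del) : cf G Φ' Ψ' a b ↔ cf G Φ Ψ a b := by
  unfold cf
  refine and_congr_right fun hab => ?_
  by_cases wa : V01_W G lv h Φ Ψ Del a
  · by_cases wb : V01_W G lv h Φ Ψ Del b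
    · rw [(h1 a wa).1, (h1 a wa).2, (h1 b wb).1, (h1 b wb).2]
      exact Or.comm
    · rw [(h1 a wa).1, (h1 a wa).2, (h2 b wb).1, (h2 b wb).2]
      have ib : V01_I G lv h Φ Ψ Del b := by
        by_contra hc
        exact wb ⟨hc, hb⟩
      constructor
      · rintro (e | e)
        · exact absurd e (hΨ a b hab)
        · exact absurd e (hΦ a b hab)
      · intro e
        exact absurd (V01_I_step ib (V01_cf_symm ⟨hab, e⟩) ha) wa.1
  · by_cases wb : V01_W G lv h Φ Ψ Del b
    · rw [(h2 a wa).1, (h2 a wa).2, (h1 b wb).1, (h1 b wb).2]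
      have ia : V01_I G lv h Φ Ψ Del a := by
        by_contra hc
        exact wa ⟨hc, ha⟩
      constructor
      · rintro (e | e)
        · exact absurd e (hΦ a b hab)
        · exact absurd e (hΨ a b hab)
      · intro e
        exact absurd (V01_I_step ia ⟨hab, e⟩ hb) wb.1
    · rw [(h2 a wa).1, (h2 a wa).2, (h2 b wb).1, (h2 b wb).2]

private theorem V01_I_eq {G : SimpleGraph Λ} {lv : Λ → ℕ} {h : ℕ} {Φ Ψ Φ' Ψ' : Λ → Fin q}
    {Del : Finset Λ} (hc : ∀ a b, a ∉ Del → b ∉ Del → (cf G Φ' Ψ' a b ↔ cf G Φ Ψ a b)) :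
    V01_I G lv h Φ' Ψ' Del = V01_I G lv h Φ Ψ Del := by
  have e : (fun a b => cf G Φ' Ψ' a b ∧ a ∉ Del ∧ b ∉ Del) =
      fun a b => cf G Φ Ψ a b ∧ a ∉ Del ∧ b ∉ Del := by
    funext a b
    refine propext ⟨fun hh => ⟨(hc a b hh.2.1 hh.2.2).mp hh.1, hh.2⟩,
      fun hh => ⟨(hc a b hh.2.1 hh.2.2).mpr hh.1, hh.2⟩⟩
  unfold V01_I
  rw [e]

private theorem V01_card {α : Type} [Fintype α] (P Q : α → Prop) {i₁ : DecidablePred P}
    {i₂ : DecidablePred Q} (f : α → α) (h1 : ∀ a, P a → Q (f a))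
    (h2 : ∀ a b, P a → P b → f a = f b → a = b) :
    (univ.filter P).card ≤ (univ.filter Q).card := by
  refine Finset.card_le_card_of_injOn f (fun a ha => ?_) (fun a ha b hb hab => ?_)
  · exact Finset.mem_coe.mpr (Finset.mem_filter.mpr
      ⟨Finset.mem_univ _, h1 a (Finset.mem_filter.mp (Finset.mem_coe.mp ha)).2⟩)
  · exact h2 a b (Finset.mem_filter.mp (Finset.mem_coe.mp ha)).2
      (Finset.mem_filter.mp (Finset.mem_coe.mp hb)).2 hab

end V01

open scoped Classical in
theorem swap_le {V Λ : Type} [Fintype V] [DecidableEq V] [Fintype Λ] [DecidableEq Λ] {q h : ℕ}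
    {X X' : SimpleGraph V} {ev : V → Prop} {G : SimpleGraph Λ} {lv : Λ → ℕ} {i : Bool → Λ → V}
    (hL : Layer h X X' ev G lv i) (hh : 2 ≤ h) (Del : Finset Λ) :
    cG X (fun F : V → Fin q => sp G lv h (fb i F false) (fb i F true) Del) ≤
      cG (dlG X' (Del.image (i false) ∪ Del.image (i true))) (fun _ : V → Fin q => True) := by
  have inj := hL.inj
  have prF : ∀ F : V → Fin q, PrG X F → ∀ b, PrG G (fb i F b) := fun F hF b p p' hpp' =>
    hF _ _ ((hL.adj b b p p').mpr ⟨rfl, hpp'⟩)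
  have hW : ∀ F : V → Fin q, PrG X F →
      V01_W G lv h (fb i (V01_sw G lv h i Del F) false) (fb i (V01_sw G lv h i Del F) true) Del =
        V01_W G lv h (fb i F false) (fb i F true) Del := by
    intro F hF
    have e : V01_I G lv h (fb i (V01_sw G lv h i Del F) false)
        (fb i (V01_sw G lv h i Del F) true) Del =
        V01_I G lv h (fb i F false) (fb i F true) Del := by
      refine V01_I_eq fun a b ha hb =>
        V01_cf (lv := lv) (h := h) (prF F hF false) (prF F hF true) ?_ ?_ ha hb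
      · intro p hp
        simp only [fb, V01_sw, V01_sg_in inj hp, Bool.not_false, Bool.not_true, and_self]
      · intro p hp
        simp only [fb, V01_sw, V01_sg_nin inj hp, and_self]
    unfold V01_W
    rw [e]
  unfold cG
  refine Nat.cast_le.mpr (V01_card _ _ (V01_sw G lv h i Del) ?_ ?_)
  · rintro F ⟨hF1, hs⟩
    refine ⟨?_, trivial⟩
    set Wp := V01_W G lv h (fb i F false) (fb i F true) Del with hWp
    set Ip := V01_I G lv h (fb i F false) (fb i F true) Del with hIp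
    have hI : ∀ p, p ∉ Del → ¬ Wp p → Ip p := by
      intro p hp hw
      by_contra hc
      exact hw ⟨hc, hp⟩
    have hin : ∀ b p, Wp p → V01_sw G lv h i Del F (i b p) = F (i (!b) p) := by
      intro b p hp
      unfold V01_sw
      rw [V01_sg_in inj hp]
    have hnin : ∀ b p, ¬ Wp p → V01_sw G lv h i Del F (i b p) = F (i b p) := by
      intro b p hp
      unfold V01_sw
      rw [V01_sg_nin inj hp]
    have hout : ∀ v, (∀ b p, v ≠ i b p) → V01_sw G lv h i Del F v = F v := by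
      intro v hv
      unfold V01_sw
      rw [V01_sg_out hv]
    have hDel : ∀ b p, i b p ∉ Del.image (i false) ∪ Del.image (i true) → p ∉ Del := by
      intro b p hp hd
      refine hp (Finset.mem_union.mpr ?_)
      cases b
      · exact Or.inl (Finset.mem_image_of_mem _ hd)
      · exact Or.inr (Finset.mem_image_of_mem _ hd)
    have key : ∀ v b p, (∀ b p, v ≠ i b p) → p ∉ Del → X'.Adj v (i b p) →
        V01_sw G lv h i Del F v ≠ V01_sw G lv h i Del F (i b p) := by
      intro v b p hv hp hadj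
      have h1 := (hL.oi b p v hv).mp hadj
      have h2 := hL.out _ p v hv h1
      rw [hout v hv]
      by_cases h0 : lv p = 0
      · rw [if_pos h0] at h1
        have hw : Wp p := ⟨fun hc => V01_I_lv hs hc h0, hp⟩
        rw [hin b p hw]
        exact hF1 _ _ h1
      · rw [if_neg h0] at h1
        have hlv : lv p + 1 = h := h2.resolve_left h0
        have hw : ¬ Wp p := fun hc => hc.1 ⟨p, hlv, hp, Relation.ReflTransGen.refl⟩
        rw [hnin b p hw]
        exact hF1 _ _ h1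
    have key2 : ∀ b p p', p ∉ Del → p' ∉ Del → G.Adj p p' → Wp p → ¬ Wp p' →
        V01_sw G lv h i Del F (i b p) ≠ V01_sw G lv h i Del F (i b p') := by
      intro b p p' hp hp' hadj hw hw'
      rw [hin b p hw, hnin b p' hw']
      intro e
      have hI' := hI p' hp' hw'
      have hc : cf G (fb i F false) (fb i F true) p p' := by
        refine ⟨hadj, ?_⟩
        cases b
        · exact Or.inr e
        · exact Or.inl e
      exact hw.1 (V01_I_step hI' (V01_cf_symm hc) hp)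
    intro v w hvw
    obtain ⟨hadj, hv, hw⟩ := hvw
    by_cases ov : ∀ b p, v ≠ i b p
    · by_cases ow : ∀ b p, w ≠ i b p
      · rw [hout v ov, hout w ow]
        exact hF1 _ _ ((hL.oo v w ov ow).mp hadj)
      · push Not at ow
        obtain ⟨b, p, rfl⟩ := ow
        exact key v b p ov (hDel b p hw) hadj
    · push Not at ov
      obtain ⟨b, p, rfl⟩ := ov
      by_cases ow : ∀ b p, w ≠ i b p
      · exact (key w b p ow (hDel b p hv) hadj.symm).symm
      · push Not at ow
        obtain ⟨b', p', rfl⟩ := ow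
        obtain ⟨rfl, hpp'⟩ := (hL.adj' b b' p p').mp hadj
        have hp := hDel b p hv
        have hp' := hDel b p' hw
        by_cases w1 : Wp p
        · by_cases w2 : Wp p'
          · rw [hin b p w1, hin b p' w2]
            exact hF1 _ _ ((hL.adj _ _ p p').mpr ⟨rfl, hpp'⟩)
          · exact key2 b p p' hp hp' hpp' w1 w2
        · by_cases w2 : Wp p'
          · exact (key2 b p' p hp' hp hpp'.symm w2 w1).symm
          · rw [hnin b p w1, hnin b p' w2]
            exact hF1 _ _ ((hL.adj _ _ p p').mpr ⟨rfl, hpp'⟩)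
  · rintro F₁ F₂ ⟨hF1, _⟩ ⟨hF2, _⟩ he
    have e1 := hW F₁ hF1
    have e2 := hW F₂ hF2
    rw [he, e2] at e1
    funext v
    have e3 := congrFun he (V01_sg i (V01_W G lv h (fb i F₁ false) (fb i F₁ true) Del) v)
    simp only [V01_sw] at e3
    rw [← e1] at e3
    simp only [V01_sg_sg inj] at e3
    exact e3

end Pool.Agent.LC
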