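import Pool.Agent.Lib_MP_2c424f_lc5.V01
import Pool.Agent.Lib_MP_2c424f_lc5.V02

/-!
# Part V, V03: counting the colourings for which some small set separates

Union bound over `Del ∈ DD`, `swap_le`, `dl_le` with `D = Del.image (i false) ∪ Del.image (i true)`, `|D| ≤ 2 |Del| ≤ 2 s`.
-/

set_option autoImplicit false

open Finset Filter

namespace Pool.Agent.LC

open Pool.Agent.LO Pool.Agent.LIN Pool.Agent.THR Pool.Agent.COR

open scoped Classical in
theorem V03_union {V : Type} [Fintype V] [DecidableEq V] {q : ℕ} (X : SimpleGraph V) {κ : Type} (DD : Finset κ)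
    (P : κ → (V → Fin q) → Prop) (B : ℝ) (hB : ∀ k ∈ DD, cG X (P k) ≤ B) :
    cG X (fun F : V → Fin q => ∃ k ∈ DD, P k F) ≤ DD.card * B := by
  have h1 : cG X (fun F : V → Fin q => ∃ k ∈ DD, P k F) ≤ ∑ k ∈ DD, cG X (P k) := by
    unfold cG
    rw [← Nat.cast_sum]
    refine Nat.cast_le.2 (le_trans (Finset.card_le_card fun F hF => ?_) Finset.card_biUnion_le)
    simp only [Finset.mem_filter, Finset.mem_univ, true_and] at hF
    obtain ⟨h2, k, hk, h3⟩ := hF
    refine Finset.mem_biUnion.2 ⟨k, hk, ?_⟩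
    simp only [Finset.mem_filter, Finset.mem_univ, true_and]
    exact ⟨h2, h3⟩
  refine h1.trans ((Finset.sum_le_sum hB).trans (le_of_eq ?_))
  rw [Finset.sum_const, nsmul_eq_mul]

open scoped Classical in
theorem sep_count {V Λ : Type} [Fintype V] [DecidableEq V] [Fintype Λ] [DecidableEq Λ] {d q h : ℕ} (hq : 2 ≤ q)
    {X X' : SimpleGraph V} {ev : V → Prop} {G : SimpleGraph Λ} {lv : Λ → ℕ} {i : Bool → Λ → V}
    (hP : Par X' ev) (hdeg : ∀ v, (nb X' v).card ≤ 4 * d) (hL : Layer h X X' ev G lv i) (hh : 2 ≤ h)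
    (DD : Finset (Finset Λ)) (s : ℝ) (hs : ∀ D ∈ DD, (D.card : ℝ) ≤ s) :
    cG X (fun F : V → Fin q => ∃ D ∈ DD, sp G lv h (fb i F false) (fb i F true) D) ≤
      DD.card * Real.exp (16 * d * s / q) * cG X' (fun _ : V → Fin q => True) := by
  rw [mul_assoc]
  refine V03_union X DD _ _ fun D hD => ?_
  refine (swap_le hL hh D).trans ((dl_le hq hP hdeg _).trans ?_)
  refine mul_le_mul_of_nonneg_right (Real.exp_le_exp.2 ?_) (by unfold cG; positivity)
  have h1 : (D.image (i false) ∪ D.image (i true)).card ≤ 2 * D.card := by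
    refine (Finset.card_union_le _ _).trans ?_
    have h2 := Finset.card_image_le (s := D) (f := i false)
    have h3 := Finset.card_image_le (s := D) (f := i true)
    omega
  have h4 : ((D.image (i false) ∪ D.image (i true)).card : ℝ) ≤ 2 * s := by
    calc _ ≤ ((2 * D.card : ℕ) : ℝ) := Nat.cast_le.2 h1
      _ = 2 * (D.card : ℝ) := by push_cast; ring
      _ ≤ 2 * s := by linarith [hs D hD]
  have hq0 : (0 : ℝ) ≤ q := Nat.cast_nonneg _
  refine div_le_div_of_nonneg_right ?_ hq0
  calc 8 * (d : ℝ) * ((D.image (i false) ∪ D.image (i true)).card : ℝ) ≤ 8 * d * (2 * s) :=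
        mul_le_mul_of_nonneg_left h4 (by positivity)
    _ = 16 * d * s := by ring

end Pool.Agent.LC
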