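import Pool.Agent.Lib_MP_2c424f_lc5.Defs5

/-!
# Part V, V04: elementary facts about the layer

`Rv_layer`: for `1 ≤ lv p`, `lv p + 2 ≤ h` the `X`-neighbours of `i b p` are exactly the `i b p'` with `G.Adj p p'`
(`adj`; a neighbour outside the layer is impossible by `out`), so the sets of missing colours agree.
`par_layer`: `G` is bipartite with respect to `ev ∘ i false`.
`card_nb_layer`: `(nb G p).card ≤ (nb X (i b p)).card` (injective map `p' ↦ i b p'`).
-/

set_option autoImplicit false

open Finset Filter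

namespace Pool.Agent.LC

open Pool.Agent.LO Pool.Agent.LIN Pool.Agent.THR Pool.Agent.COR

variable {V Λ : Type} [Fintype V] [DecidableEq V] [Fintype Λ] [DecidableEq Λ] {q h : ℕ}
  {X X' : SimpleGraph V} {ev : V → Prop} {G : SimpleGraph Λ} {lv : Λ → ℕ} {i : Bool → Λ → V}

theorem Rv_layer (hL : Layer h X X' ev G lv i) {p : Λ} (h1 : 1 ≤ lv p) (h2 : lv p + 2 ≤ h) (b : Bool)
    (F : V → Fin q) : Rv X F (i b p) = Rv G (fb i F b) p := by
  classical
  ext c
  simp only [Rv, Finset.mem_filter, Finset.mem_univ, true_and, fb]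
  constructor
  · intro hc p' hp'
    exact hc (i b p') ((hL.adj b b p p').2 ⟨rfl, hp'⟩)
  · intro hc x hx
    by_cases hx' : ∀ b' p', x ≠ i b' p'
    · rcases hL.out b p x hx' hx.symm with h0 | h0 <;> omega
    · push Not at hx'
      obtain ⟨b', p', rfl⟩ := hx'
      obtain ⟨rfl, hpp⟩ := (hL.adj b b' p p').1 hx
      exact hc p' hpp

theorem par_layer (hL : Layer h X X' ev G lv i) (hP : Par X ev) : Par G (fun p => ev (i false p)) := by
  intro x y hxy
  exact hP _ _ ((hL.adj false false x y).2 ⟨rfl, hxy⟩)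

theorem ev_layer (hL : Layer h X X' ev G lv i) (b : Bool) (p : Λ) : ev (i b p) ↔ ev (i false p) := by
  cases b
  · exact Iff.rfl
  · exact hL.par p

theorem card_nb_layer (hL : Layer h X X' ev G lv i) (b : Bool) (p : Λ) :
    (nb G p).card ≤ (nb X (i b p)).card := by
  classical
  refine Finset.card_le_card_of_injOn (fun p' => i b p') ?_ ?_
  · intro p' hp'
    simp only [nb, Finset.coe_filter, Finset.mem_univ, true_and, Set.mem_setOf_eq] at hp' ⊢
    exact (hL.adj b b p p').2 ⟨rfl, hp'⟩
  · intro p₁ _ p₂ _ h12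
    exact (hL.inj b b p₁ p₂ h12).2

end Pool.Agent.LC
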