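import Pool.Agent.Lib_MP_2c424f_lc5.Defs5

/-!
# Part V, V05: given the colours of the odd vertices, the colours of the even vertices are independent

The `X`-proper `F` with `F = F₀` on the odd vertices are (if `F₀` is such that there is one) exactly the functions with
`F w = F₀ w` for odd `w` and `F v ∈ Rv X F₀ v` for even `v` (`Rv X F₀ v` depends on the odd vertices only, `Par`), i.e. the
elements of a `Fintype.piFinset`.  The number of those with `E k (F (u k)) (F (v k))` for all `k` is the product over the pairs
`(u k, v k)` of the numbers of pairs in `E k` times the product of the `|Rv|` over the other even vertices (all `u k`, `v l`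
are different).  If some `Rv X F₀ v`, `v` even, is empty then both sides vanish.
(E.g. induction on `n`, or: the map `F ↦ (F ∘ u, F ∘ v, F restricted to the rest)`.)
-/

set_option autoImplicit false

open Finset Filter

namespace Pool.Agent.LC

open Pool.Agent.LO Pool.Agent.LIN Pool.Agent.THR Pool.Agent.COR

private theorem V05_prod {V : Type} [Fintype V] [DecidableEq V] (f : V → ℕ) {x y : V} (h : x ≠ y) :
    ∏ w, f w = f x * f y * ∏ w ∈ (univ.erase x).erase y, f w := by
  rw [← Finset.mul_prod_erase univ f (mem_univ x),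
    ← Finset.mul_prod_erase (univ.erase x) f (mem_erase.2 ⟨h.symm, mem_univ y⟩), mul_assoc]

open scoped Classical in
/-- the sets with one pair of vertices pinned -/
private noncomputable def V05_pin {V : Type} {q : ℕ} (S : V → Finset (Fin q)) (x y : V) (w : Fin q × Fin q) :
    V → Finset (Fin q) := fun z => if z = x then {w.1} else if z = y then {w.2} else S z

open scoped Classical in
private theorem V05_count {V : Type} [Fintype V] [DecidableEq V] {q : ℕ} : ∀ (n : ℕ) (u v : Fin n → V)
    (_ : Function.Injective u) (_ : Function.Injective v) (_ : ∀ k l, u k ≠ v l)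
    (E : Fin n → Fin q → Fin q → Prop) (S : V → Finset (Fin q)),
    ((Fintype.piFinset S).filter fun F => ∀ k, E k (F (u k)) (F (v k))).card *
        ∏ k, ((S (u k)).card * (S (v k)).card) =
      (∏ k, (((S (u k)) ×ˢ (S (v k))).filter fun w => E k w.1 w.2).card) * ∏ w, (S w).card := by
  intro n
  induction n with
  | zero =>
    intro u v _ _ _ E S
    simp
  | succ n ih =>
    intro u v hui hvi huv E S
    set t : Finset (Fin q × Fin q) := ((S (u 0)) ×ˢ (S (v 0))).filter fun w => E 0 w.1 w.2 with ht
    have huk : ∀ k : Fin n, u k.succ ≠ u 0 := fun k h => Fin.succ_ne_zero k (hui h)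
    have hvk : ∀ k : Fin n, v k.succ ≠ v 0 := fun k h => Fin.succ_ne_zero k (hvi h)
    have hpu : ∀ (w : Fin q × Fin q) (k : Fin n), V05_pin S (u 0) (v 0) w (u k.succ) = S (u k.succ) := by
      intro w k
      simp only [V05_pin, huk k, if_false, huv k.succ 0]
    have hpv : ∀ (w : Fin q × Fin q) (k : Fin n), V05_pin S (u 0) (v 0) w (v k.succ) = S (v k.succ) := by
      intro w k
      simp only [V05_pin, hvk k, if_false, (huv 0 k.succ).symm]
    have hfib : ((Fintype.piFinset S).filter fun F => ∀ k, E k (F (u k)) (F (v k))).card =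
        ∑ w ∈ t, ((Fintype.piFinset (V05_pin S (u 0) (v 0) w)).filter fun F =>
          ∀ k : Fin n, E k.succ (F (u k.succ)) (F (v k.succ))).card := by
      rw [Finset.card_eq_sum_card_fiberwise (f := fun F : V → Fin q => (F (u 0), F (v 0))) (t := t)]
      · refine Finset.sum_congr rfl fun w hw => ?_
        congr 1
        ext F
        rw [ht, mem_filter, mem_product] at hw
        simp only [mem_filter, Fintype.mem_piFinset]
        constructor
        · rintro ⟨⟨h1, h2⟩, h3⟩
          refine ⟨fun z => ?_, fun k => h2 k.succ⟩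
          unfold V05_pin
          by_cases hz : z = u 0
          · rw [if_pos hz, mem_singleton, ← h3, hz]
          · rw [if_neg hz]
            by_cases hz' : z = v 0
            · rw [if_pos hz', mem_singleton, ← h3, hz']
            · rw [if_neg hz']
              exact h1 z
        · rintro ⟨h1, h2⟩
          have e1 : F (u 0) = w.1 := by
            have := h1 (u 0)
            unfold V05_pin at this
            rwa [if_pos rfl, mem_singleton] at this
          have e2 : F (v 0) = w.2 := by
            have := h1 (v 0)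
            unfold V05_pin at this
            rwa [if_neg (huv 0 0).symm, if_pos rfl, mem_singleton] at this
          refine ⟨⟨fun z => ?_, fun k => ?_⟩, by rw [e1, e2]⟩
          · by_cases hz : z = u 0
            · rw [hz, e1]; exact hw.1.1
            · by_cases hz' : z = v 0
              · rw [hz', e2]; exact hw.1.2
              · have := h1 z
                unfold V05_pin at this
                rwa [if_neg hz, if_neg hz'] at this
          · refine Fin.cases ?_ (fun k => ?_) k
            · rw [e1, e2]; exact hw.2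
            · exact h2 k
      · intro F hF
        rw [Finset.mem_coe, mem_filter, Fintype.mem_piFinset] at hF
        rw [Finset.mem_coe, ht, mem_filter, mem_product]
        exact ⟨⟨hF.1 _, hF.1 _⟩, hF.2 0⟩
    have hterm : ∀ w ∈ t, ((Fintype.piFinset (V05_pin S (u 0) (v 0) w)).filter fun F =>
          ∀ k : Fin n, E k.succ (F (u k.succ)) (F (v k.succ))).card *
          ∏ k : Fin (n + 1), ((S (u k)).card * (S (v k)).card) =
        (∏ k : Fin n, (((S (u k.succ)) ×ˢ (S (v k.succ))).filter fun w => E k.succ w.1 w.2).card) *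
          ∏ z, (S z).card := by
      intro w _
      have h1 := ih (fun k => u k.succ) (fun k => v k.succ) (fun a b h => Fin.succ_injective _ (hui h))
        (fun a b h => Fin.succ_injective _ (hvi h)) (fun k l => huv k.succ l.succ) (fun k => E k.succ)
        (V05_pin S (u 0) (v 0) w)
      simp only [hpu, hpv] at h1
      have h2 := V05_prod (fun z => (S z).card) (huv 0 0)
      have h3 := V05_prod (fun z => (V05_pin S (u 0) (v 0) w z).card) (huv 0 0)
      have h4 : ∏ z ∈ (univ.erase (u 0)).erase (v 0), (V05_pin S (u 0) (v 0) w z).card =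
          ∏ z ∈ (univ.erase (u 0)).erase (v 0), (S z).card := by
        refine Finset.prod_congr rfl fun z hz => ?_
        rw [mem_erase, mem_erase] at hz
        unfold V05_pin
        rw [if_neg hz.2.1, if_neg hz.1]
      have h5 : (V05_pin S (u 0) (v 0) w (u 0)).card = 1 := by
        unfold V05_pin
        rw [if_pos rfl, card_singleton]
      have h6 : (V05_pin S (u 0) (v 0) w (v 0)).card = 1 := by
        unfold V05_pin
        rw [if_neg (huv 0 0).symm, if_pos rfl, card_singleton]
      rw [h4, h5, h6, one_mul, one_mul] at h3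
      rw [Fin.prod_univ_succ, h2, mul_left_comm, h1, h3]
      ring
    rw [hfib, Finset.sum_mul, Finset.sum_congr rfl hterm, Finset.sum_const, smul_eq_mul, ← mul_assoc]
    congr 1
    rw [Fin.prod_univ_succ]

private theorem V05_cG {W : Type} [Fintype W] [DecidableEq W] {q : ℕ} (X : SimpleGraph W)
    (P : (W → Fin q) → Prop) (T : Finset (W → Fin q)) (h : ∀ F, (PrG X F ∧ P F) ↔ F ∈ T) :
    cG X P = ((T.card : ℕ) : ℝ) := by
  unfold cG
  congr 2
  ext F
  rw [← h F]
  simp

open scoped Classical in
private theorem V05_fib {V : Type} [Fintype V] [DecidableEq V] {q : ℕ} {X : SimpleGraph V} {ev : V → Prop}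
    (hP : Par X ev) (F₀ F : V → Fin q) :
    (PrG X F ∧ ∀ w, ¬ ev w → F w = F₀ w) ↔ ∀ w, F w ∈ if ev w then Rv X F₀ w else {F₀ w} := by
  constructor
  · rintro ⟨h1, h2⟩ w
    by_cases hw : ev w
    · rw [if_pos hw]
      unfold Rv
      rw [mem_filter]
      refine ⟨mem_univ _, fun x hx h => ?_⟩
      have hx' : ¬ ev x := (hP w x hx).1 hw
      rw [← h2 x hx'] at h
      exact h1 w x hx h.symm
    · rw [if_neg hw, mem_singleton]
      exact h2 w hw
  · intro h
    have h2 : ∀ w, ¬ ev w → F w = F₀ w := by
      intro w hw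
      have := h w
      rwa [if_neg hw, mem_singleton] at this
    have h3 : ∀ w, ev w → ∀ x, X.Adj w x → F w ≠ F x := by
      intro w hw x hx he
      have h4 := h w
      rw [if_pos hw] at h4
      unfold Rv at h4
      rw [mem_filter] at h4
      have hx' : ¬ ev x := (hP w x hx).1 hw
      exact h4.2 x hx (by rw [he, h2 x hx'])
    refine ⟨fun x y hxy => ?_, h2⟩
    by_cases hx : ev x
    · exact h3 x hx y hxy
    · have hy : ev y := by
        by_contra hy
        exact hx ((hP x y hxy).2 hy)
      exact (h3 y hy x hxy.symm).symm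

open scoped Classical in
theorem fib_indep {V : Type} [Fintype V] [DecidableEq V] {q : ℕ} {X : SimpleGraph V} {ev : V → Prop} (hP : Par X ev)
    (F₀ : V → Fin q) {n : ℕ} (u v : Fin n → V) (hu : ∀ k, ev (u k)) (hv : ∀ k, ev (v k))
    (hui : Function.Injective u) (hvi : Function.Injective v) (huv : ∀ k l, u k ≠ v l)
    (E : Fin n → Fin q → Fin q → Prop) :
    cG X (fun F : V → Fin q => (∀ w, ¬ ev w → F w = F₀ w) ∧ ∀ k, E k (F (u k)) (F (v k))) ≤
      (∏ k, ((((Rv X F₀ (u k)) ×ˢ (Rv X F₀ (v k))).filter fun w => E k w.1 w.2).card : ℝ) /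
        (((Rv X F₀ (u k)).card : ℝ) * ((Rv X F₀ (v k)).card : ℝ))) *
      cG X (fun F : V → Fin q => ∀ w, ¬ ev w → F w = F₀ w) := by
  set S : V → Finset (Fin q) := fun w => if ev w then Rv X F₀ w else {F₀ w} with hS
  have hSu : ∀ k, S (u k) = Rv X F₀ (u k) := fun k => by rw [hS]; exact if_pos (hu k)
  have hSv : ∀ k, S (v k) = Rv X F₀ (v k) := fun k => by rw [hS]; exact if_pos (hv k)
  have e1 : cG X (fun F : V → Fin q => ∀ w, ¬ ev w → F w = F₀ w) = ((∏ w, (S w).card : ℕ) : ℝ) := by
    rw [← Fintype.card_piFinset]
    exact V05_cG X _ _ fun F => (V05_fib hP F₀ F).trans Fintype.mem_piFinset.symm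
  have e2 : cG X (fun F : V → Fin q => (∀ w, ¬ ev w → F w = F₀ w) ∧ ∀ k, E k (F (u k)) (F (v k))) =
      ((((Fintype.piFinset S).filter fun F => ∀ k, E k (F (u k)) (F (v k))).card : ℕ) : ℝ) := by
    refine V05_cG X _ _ fun F => ?_
    rw [mem_filter, Fintype.mem_piFinset]
    constructor
    · rintro ⟨h1, h2, h3⟩
      exact ⟨(V05_fib hP F₀ F).1 ⟨h1, h2⟩, h3⟩
    · rintro ⟨h1, h3⟩
      obtain ⟨h4, h5⟩ := (V05_fib hP F₀ F).2 h1
      exact ⟨h4, h5, h3⟩
  clear_value S
  have h1 := V05_count n u v hui hvi huv E S
  simp only [hSu, hSv] at h1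
  rw [e1, e2, Finset.prod_div_distrib, div_mul_eq_mul_div]
  by_cases hz : (∏ k, (((Rv X F₀ (u k)).card : ℝ) * ((Rv X F₀ (v k)).card : ℝ))) = 0
  · -- an empty set
    have h2 : (((Fintype.piFinset S).filter fun F => ∀ k, E k (F (u k)) (F (v k))).card : ℕ) = 0 := by
      rw [Finset.prod_eq_zero_iff] at hz
      obtain ⟨k, _, hk⟩ := hz
      rw [Finset.card_eq_zero, Finset.filter_eq_empty_iff]
      intro F hF
      rw [Fintype.mem_piFinset] at hF
      exfalso
      rcases mul_eq_zero.1 hk with h | h
      · have h3 : Rv X F₀ (u k) = ∅ := by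
          rw [← Finset.card_eq_zero]
          exact_mod_cast h
        have h4 := hF (u k)
        rw [hSu, h3] at h4
        exact notMem_empty _ h4
      · have h3 : Rv X F₀ (v k) = ∅ := by
          rw [← Finset.card_eq_zero]
          exact_mod_cast h
        have h4 := hF (v k)
        rw [hSv, h3] at h4
        exact notMem_empty _ h4
    rw [h2, Nat.cast_zero]
    exact div_nonneg (mul_nonneg (Finset.prod_nonneg fun k _ => Nat.cast_nonneg _) (Nat.cast_nonneg _))
      (Finset.prod_nonneg fun k _ => mul_nonneg (Nat.cast_nonneg _) (Nat.cast_nonneg _))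
  · have hpos : 0 < ∏ k, (((Rv X F₀ (u k)).card : ℝ) * ((Rv X F₀ (v k)).card : ℝ)) :=
      lt_of_le_of_ne (Finset.prod_nonneg fun k _ => mul_nonneg (Nat.cast_nonneg _) (Nat.cast_nonneg _)) (Ne.symm hz)
    rw [le_div_iff₀ hpos]
    have h3 := congrArg (fun m : ℕ => (m : ℝ)) h1
    simp only [Nat.cast_mul, Nat.cast_prod] at h3 ⊢
    exact h3.le

end Pool.Agent.LC
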