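import Mathlib

/-!
# Part V, V06: weights of walks

Induction on `n` (split off the first step with `Fin.consEquiv` / `Fin.cons`; `∏` over `Fin (n+1)` by `Fin.prod_univ_succ`):
if `y₀ ∉ A` then the sum is at most `∑_{y₁} K y₀ y₁ S(n-1, m, y₁) ≤ ρ ρ^{n-1-m} D^m` (for `n ≤ m` use `ρ ≤ 1`);
if `y₀ ∈ A` it vanishes for `m = 0` and is at most `D ρ^{n-1-(m-1)} D^{m-1}` for `m ≥ 1`.
-/

set_option autoImplicit false

open Finset

namespace Pool.Agent.LC

private theorem V06_sum_cons {Λ : Type} [Fintype Λ] {n : ℕ} (g : (Fin (n + 1) → Λ) → ℝ) :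
    ∑ y, g y = ∑ a, ∑ z : Fin n → Λ, g (Fin.cons a z) := by
  classical
  rw [← Fintype.sum_prod_type' (fun a (z : Fin n → Λ) => g (Fin.cons a z))]
  exact (Equiv.sum_comp (Fin.consEquiv (fun _ : Fin (n + 1) => Λ)) g).symm

open scoped Classical in
private theorem V06_step {Λ : Type} [Fintype Λ] (K : Λ → Λ → ℝ) (W A : Finset Λ) (n m m' : ℕ) (y₀ : Λ)
    (hK : ∀ y y', 0 ≤ K y y')
    (hm : ∀ t : ℕ, (if y₀ ∈ A then 1 else 0) + t ≤ m → t ≤ m') :
    ∑ y ∈ univ.filter (fun y : Fin (n + 1 + 1) → Λ => y 0 = y₀ ∧ (∀ k, y k ∈ W) ∧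
        (univ.filter fun k : Fin (n + 1) => y k.castSucc ∈ A).card ≤ m),
      ∏ k : Fin (n + 1), K (y k.castSucc) (y k.succ) ≤
    ∑ y₁, K y₀ y₁ * ∑ z ∈ univ.filter (fun z : Fin (n + 1) → Λ => z 0 = y₁ ∧ (∀ k, z k ∈ W) ∧
        (univ.filter fun k : Fin n => z k.castSucc ∈ A).card ≤ m'),
      ∏ k : Fin n, K (z k.castSucc) (z k.succ) := by
  have hR : ∑ y₁, K y₀ y₁ * ∑ z ∈ univ.filter (fun z : Fin (n + 1) → Λ => z 0 = y₁ ∧ (∀ k, z k ∈ W) ∧
        (univ.filter fun k : Fin n => z k.castSucc ∈ A).card ≤ m'),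
      ∏ k : Fin n, K (z k.castSucc) (z k.succ) =
      ∑ z : Fin (n + 1) → Λ, if (∀ k, z k ∈ W) ∧ (univ.filter fun k : Fin n => z k.castSucc ∈ A).card ≤ m' then
        K y₀ (z 0) * ∏ k : Fin n, K (z k.castSucc) (z k.succ) else 0 := by
    simp_rw [Finset.sum_filter, Finset.mul_sum]
    rw [Finset.sum_comm]
    refine Finset.sum_congr rfl fun z _ => ?_
    rw [Finset.sum_eq_single (z 0)]
    · by_cases hz : (∀ k, z k ∈ W) ∧ (univ.filter fun k : Fin n => z k.castSucc ∈ A).card ≤ m'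
      · rw [if_pos ⟨rfl, hz⟩, if_pos hz]
      · rw [if_neg (fun h => hz h.2), if_neg hz, mul_zero]
    · intro b _ hb
      rw [if_neg (fun h => hb h.1.symm), mul_zero]
    · intro h
      exact absurd (Finset.mem_univ _) h
  rw [hR, Finset.sum_filter, V06_sum_cons, Finset.sum_eq_single y₀]
  · refine Finset.sum_le_sum fun z _ => ?_
    by_cases hz : ((Fin.cons y₀ z : Fin (n + 1 + 1) → Λ) 0 = y₀ ∧ (∀ k, (Fin.cons y₀ z : Fin (n + 1 + 1) → Λ) k ∈ W) ∧
        (univ.filter fun k : Fin (n + 1) => (Fin.cons y₀ z : Fin (n + 1 + 1) → Λ) k.castSucc ∈ A).card ≤ m)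
    · obtain ⟨_, hW, hc⟩ := hz
      have hW' : ∀ k, z k ∈ W := fun k => by simpa using hW k.succ
      have hc' : (univ.filter fun k : Fin n => z k.castSucc ∈ A).card ≤ m' := by
        apply hm
        refine le_trans (le_of_eq ?_) hc
        rw [Finset.card_filter, Finset.card_filter, Fin.sum_univ_succ]
        congr 1
      rw [if_pos ⟨Fin.cons_zero _ _, hW, hc⟩, if_pos ⟨hW', hc'⟩, Fin.prod_univ_succ]
      apply le_of_eq
      congr 1
    · rw [if_neg hz]
      split_ifs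
      · exact mul_nonneg (hK _ _) (Finset.prod_nonneg fun k _ => hK _ _)
      · exact le_rfl
  · intro b _ hb
    refine Finset.sum_eq_zero fun z _ => ?_
    rw [if_neg]
    rintro ⟨h, _⟩
    exact hb (by simpa using h)
  · intro h
    exact absurd (Finset.mem_univ _) h

open scoped Classical in
theorem walk_sum {Λ : Type} [Fintype Λ] (K : Λ → Λ → ℝ) (hK : ∀ y y', 0 ≤ K y y') (W A : Finset Λ) (ρ D : ℝ)
    (h0 : 0 ≤ ρ) (h1 : ρ ≤ 1) (hD : 1 ≤ D) (hρ : ∀ y ∈ W, y ∉ A → ∑ y', K y y' ≤ ρ)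
    (hD' : ∀ y ∈ W, ∑ y', K y y' ≤ D) (n m : ℕ) (y₀ : Λ) :
    ∑ y ∈ univ.filter (fun y : Fin (n + 1) → Λ => y 0 = y₀ ∧ (∀ k, y k ∈ W) ∧
        (univ.filter fun k : Fin n => y k.castSucc ∈ A).card ≤ m),
      ∏ k : Fin n, K (y k.castSucc) (y k.succ) ≤ ρ ^ (n - m) * D ^ m := by
  have hDm : ∀ m : ℕ, (1 : ℝ) ≤ D ^ m := fun m => one_le_pow₀ hD
  have hD0 : (0 : ℝ) ≤ D := le_trans zero_le_one hD
  induction n generalizing m y₀ with
  | zero =>
    rw [Nat.zero_sub, pow_zero, one_mul]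
    refine le_trans ?_ (hDm m)
    simp only [Finset.univ_eq_empty, Finset.prod_empty, Finset.sum_const, nsmul_eq_mul, mul_one]
    have : (univ.filter (fun y : Fin (0 + 1) → Λ => y 0 = y₀ ∧ (∀ k, y k ∈ W) ∧
        (univ.filter fun k : Fin 0 => y k.castSucc ∈ A).card ≤ m)).card ≤ 1 := by
      rw [Finset.card_le_one]
      intro a ha b hb
      simp only [Finset.mem_filter, Finset.mem_univ, true_and] at ha hb
      funext k
      have hk : k = 0 := Fin.ext (by have := k.isLt; omega)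
      rw [hk, ha.1, hb.1]
    exact_mod_cast this
  | succ n ih =>
    by_cases hy : y₀ ∈ W
    · by_cases hA : y₀ ∈ A
      · rcases m with _ | m
        · have h0' : (univ.filter (fun y : Fin (n + 1 + 1) → Λ => y 0 = y₀ ∧ (∀ k, y k ∈ W) ∧
              (univ.filter fun k : Fin (n + 1) => y k.castSucc ∈ A).card ≤ 0)) = ∅ := by
            rw [Finset.filter_eq_empty_iff]
            rintro y - ⟨hy0, _, hc⟩
            rw [Nat.le_zero, Finset.card_eq_zero, Finset.filter_eq_empty_iff] at hc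
            apply hc (Finset.mem_univ 0)
            rw [Fin.castSucc_zero, hy0]
            exact hA
          rw [h0', Finset.sum_empty]
          exact mul_nonneg (pow_nonneg h0 _) (pow_nonneg hD0 _)
        · refine le_trans (V06_step K W A n (m + 1) m y₀ hK ?_) ?_
          · intro t ht
            rw [if_pos hA] at ht
            omega
          · calc _ ≤ ∑ y₁, K y₀ y₁ * (ρ ^ (n - m) * D ^ m) :=
                  Finset.sum_le_sum fun y₁ _ => mul_le_mul_of_nonneg_left (ih m y₁) (hK _ _)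
              _ = (∑ y₁, K y₀ y₁) * (ρ ^ (n - m) * D ^ m) := (Finset.sum_mul _ _ _).symm
              _ ≤ D * (ρ ^ (n - m) * D ^ m) :=
                  mul_le_mul_of_nonneg_right (hD' y₀ hy) (mul_nonneg (pow_nonneg h0 _) (pow_nonneg hD0 _))
              _ = ρ ^ (n + 1 - (m + 1)) * D ^ (m + 1) := by
                  rw [Nat.add_sub_add_right, pow_succ]; ring
      · refine le_trans (V06_step K W A n m m y₀ hK ?_) ?_
        · intro t ht
          rw [if_neg hA] at ht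
          omega
        · calc _ ≤ ∑ y₁, K y₀ y₁ * (ρ ^ (n - m) * D ^ m) :=
                Finset.sum_le_sum fun y₁ _ => mul_le_mul_of_nonneg_left (ih m y₁) (hK _ _)
            _ = (∑ y₁, K y₀ y₁) * (ρ ^ (n - m) * D ^ m) := (Finset.sum_mul _ _ _).symm
            _ ≤ ρ * (ρ ^ (n - m) * D ^ m) :=
                mul_le_mul_of_nonneg_right (hρ y₀ hy hA) (mul_nonneg (pow_nonneg h0 _) (pow_nonneg hD0 _))
            _ ≤ ρ ^ (n + 1 - m) * D ^ m := by
                rw [← mul_assoc, ← pow_succ']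
                apply mul_le_mul_of_nonneg_right _ (pow_nonneg hD0 _)
                exact pow_le_pow_of_le_one h0 h1 (by omega)
    · have h0' : (univ.filter (fun y : Fin (n + 1 + 1) → Λ => y 0 = y₀ ∧ (∀ k, y k ∈ W) ∧
          (univ.filter fun k : Fin (n + 1) => y k.castSucc ∈ A).card ≤ m)) = ∅ := by
        rw [Finset.filter_eq_empty_iff]
        rintro y - ⟨hy0, hW, _⟩
        exact hy (hy0 ▸ hW 0)
      rw [h0', Finset.sum_empty]
      exact mul_nonneg (pow_nonneg h0 _) (pow_nonneg hD0 _)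

end Pool.Agent.LC
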