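import Pool.Agent.Lib_MP_2c424f_lc5.V04
import Pool.Agent.Lib_MP_2c424f_lc5.V05
import Pool.Agent.Lib_MP_2c424f_lc5.V06

/-!
# Part V, V07: the expected number of starting points of long conflict walks with few points in `A`

`Φ₀ = fb i F₀ false`, `Ψ₀ = fb i F₀ true`; `F` runs over the `X`-proper functions which agree with `F₀` on the odd vertices.
`|PT(F)| ≤ ∑_{y₀ ∈ W} ∑_{y, x} 1[y 0 = y₀, all y k ∈ W, < m indices in A, y k odd, x k even, x injective, x k ∈ W, y k ≠ y (k+1),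
G.Adj (y k) (x k), G.Adj (x k) (y (k+1))] · 1[conflicts at all edges]`  (parities: `par_layer`, the walk starts at an odd point).
For fixed `(y, x)` the conflicts at `x k` are the event `cj ∅ Φ₀ Ψ₀ (y k) (F (i false (x k))) (F (i true (x k)))` and the same for
`y (k+1)` (`y k`, `y (k+1)` odd, so `F` and `F₀` agree there).  `fib_indep` with `u k = i false (x k)`, `v k = i true (x k)` and
`Rv_layer` (applied to `F₀`): the number of the `F` is at most `∏_k pc G ∅ Φ₀ Ψ₀ (x k) (y k) (y (k+1))` times the size of the fibre.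
The sum over `x` (drop injectivity) of the product is `∏_k Mk (y k) (y (k+1))` (`Finset.prod_univ_sum`); then `walk_sum`.
-/

set_option autoImplicit false

open Finset Filter

namespace Pool.Agent.LC

open Pool.Agent.LO Pool.Agent.LIN Pool.Agent.THR Pool.Agent.COR

private theorem V07_pc_nonneg {Λ : Type} [Fintype Λ] {q : ℕ} (G : SimpleGraph Λ) (J : Finset (Fin q)) (Φ Ψ : Λ → Fin q)
    (x y y' : Λ) : 0 ≤ pc G J Φ Ψ x y y' := by
  unfold pc
  positivity

private theorem V07_pc_le_one {Λ : Type} [Fintype Λ] {q : ℕ} (G : SimpleGraph Λ) (J : Finset (Fin q)) (Φ Ψ : Λ → Fin q)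
    (x y y' : Λ) : pc G J Φ Ψ x y y' ≤ 1 := by
  classical
  unfold pc
  refine div_le_one_of_le₀ ?_ (by positivity)
  have h := Finset.card_filter_le (Rv G Φ x ×ˢ Rv G Ψ x) (fun w => cj J Φ Ψ y w.1 w.2 ∧ cj J Φ Ψ y' w.1 w.2)
  rw [Finset.card_product] at h
  exact_mod_cast h

private theorem V07_Mk_nonneg {Λ : Type} [Fintype Λ] {q : ℕ} (G : SimpleGraph Λ) (J : Finset (Fin q)) (Φ Ψ : Λ → Fin q)
    (y y' : Λ) : 0 ≤ Mk G J Φ Ψ y y' := by
  unfold Mk
  refine Finset.sum_nonneg fun x _ => ?_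
  split_ifs
  · exact V07_pc_nonneg _ _ _ _ _ _ _
  · exact le_rfl

open scoped Classical in
/-- conflict conditions of the walk -/
private def V07_C {V Λ : Type} {q : ℕ} (G : SimpleGraph Λ) (i : Bool → Λ → V) {n : ℕ} (F : V → Fin q)
    (s : (Fin (n + 1) → Λ) × (Fin n → Λ)) : Prop :=
  ∀ k : Fin n, cf G (fb i F false) (fb i F true) (s.1 k.castSucc) (s.2 k) ∧
    cf G (fb i F false) (fb i F true) (s.2 k) (s.1 k.succ)

open scoped Classical in
/-- walks which are counted -/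
private noncomputable def V07_S {V Λ : Type} [Fintype Λ] (G : SimpleGraph Λ) (ev : V → Prop) (i : Bool → Λ → V)
    (W A : Finset Λ) (n m : ℕ) (y₀ : Λ) : Finset ((Fin (n + 1) → Λ) × (Fin n → Λ)) :=
  univ.filter fun s => s.1 0 = y₀ ∧ Function.Injective s.2 ∧ (∀ k, s.1 k ∈ W) ∧ (∀ k, s.2 k ∈ W) ∧
    (∀ k : Fin n, G.Adj (s.1 k.castSucc) (s.2 k) ∧ G.Adj (s.2 k) (s.1 k.succ) ∧ s.1 k.castSucc ≠ s.1 k.succ) ∧
    (univ.filter fun k : Fin n => s.1 k.castSucc ∈ A).card ≤ m ∧ (∀ k, ¬ ev (i false (s.1 k))) ∧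
    ∀ k, ev (i false (s.2 k))

open scoped Classical in
private theorem V07_mem {V Λ : Type} [Fintype Λ] {G : SimpleGraph Λ} {ev : V → Prop} {i : Bool → Λ → V}
    {W A : Finset Λ} {n m : ℕ} {y₀ : Λ} {s : (Fin (n + 1) → Λ) × (Fin n → Λ)} :
    s ∈ V07_S G ev i W A n m y₀ ↔ s.1 0 = y₀ ∧ Function.Injective s.2 ∧ (∀ k, s.1 k ∈ W) ∧ (∀ k, s.2 k ∈ W) ∧
    (∀ k : Fin n, G.Adj (s.1 k.castSucc) (s.2 k) ∧ G.Adj (s.2 k) (s.1 k.succ) ∧ s.1 k.castSucc ≠ s.1 k.succ) ∧
    (univ.filter fun k : Fin n => s.1 k.castSucc ∈ A).card ≤ m ∧ (∀ k, ¬ ev (i false (s.1 k))) ∧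
    ∀ k, ev (i false (s.2 k)) := by
  unfold V07_S
  simp only [Finset.mem_filter, Finset.mem_univ, true_and]

private theorem V07_par {Λ : Type} {G : SimpleGraph Λ} {e : Λ → Prop} (hG : Par G e) {n : ℕ} (y : Fin (n + 1) → Λ)
    (x : Fin n → Λ) (h0 : ¬ e (y 0)) (h1 : ∀ k : Fin n, G.Adj (y k.castSucc) (x k) ∧ G.Adj (x k) (y k.succ)) :
    (∀ k, ¬ e (y k)) ∧ ∀ k, e (x k) := by
  have hy : ∀ k, ¬ e (y k) := by
    intro k
    induction k using Fin.induction with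
    | zero => exact h0
    | succ k ih =>
      have h2 := hG _ _ (h1 k).1
      have h3 := hG _ _ (h1 k).2
      tauto
  refine ⟨hy, fun k => ?_⟩
  have h2 := hG _ _ (h1 k).1
  have h3 := hy k.castSucc
  tauto

open scoped Classical in
private theorem V07_count {V Λ : Type} [Fintype V] [DecidableEq V] [Fintype Λ] [DecidableEq Λ] {q h : ℕ}
    {X X' : SimpleGraph V} {ev : V → Prop} {G : SimpleGraph Λ} {lv : Λ → ℕ} {i : Bool → Λ → V}
    (hP : Par X ev) (hL : Layer h X X' ev G lv i) (W A : Finset Λ)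
    (hW : ∀ p ∈ W, 1 ≤ lv p ∧ lv p + 2 ≤ h) (F₀ : V → Fin q) (n m : ℕ) (y₀ : Λ)
    (s : (Fin (n + 1) → Λ) × (Fin n → Λ)) (hs : s ∈ V07_S G ev i W A n m y₀) :
    cG X (fun F : V → Fin q => (∀ w, ¬ ev w → F w = F₀ w) ∧ V07_C G i F s) ≤
      (∏ k : Fin n, pc G ∅ (fb i F₀ false) (fb i F₀ true) (s.2 k) (s.1 k.castSucc) (s.1 k.succ)) *
        cG X (fun F : V → Fin q => ∀ w, ¬ ev w → F w = F₀ w) := by
  obtain ⟨-, hinj, -, hxW, -, -, hod, hev⟩ := V07_mem.1 hs
  obtain ⟨E, hE⟩ : ∃ E : Fin n → Fin q → Fin q → Prop,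
      E = fun k a b => cj ∅ (fb i F₀ false) (fb i F₀ true) (s.1 k.castSucc) a b ∧
      cj ∅ (fb i F₀ false) (fb i F₀ true) (s.1 k.succ) a b := ⟨_, rfl⟩
  have key := fib_indep hP F₀ (fun k => i false (s.2 k)) (fun k => i true (s.2 k)) hev
    (fun k => (ev_layer hL true _).2 (hev k))
    (fun a b hab => hinj (hL.inj _ _ _ _ hab).2) (fun a b hab => hinj (hL.inj _ _ _ _ hab).2)
    (fun k l hkl => by
      have := (hL.inj _ _ _ _ hkl).1
      exact Bool.noConfusion this) E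
  have hprod : (∏ k : Fin n, pc G ∅ (fb i F₀ false) (fb i F₀ true) (s.2 k) (s.1 k.castSucc) (s.1 k.succ)) =
      ∏ k : Fin n, ((((Rv X F₀ (i false (s.2 k))) ×ˢ (Rv X F₀ (i true (s.2 k)))).filter
        fun w => E k w.1 w.2).card : ℝ) /
        (((Rv X F₀ (i false (s.2 k))).card : ℝ) * ((Rv X F₀ (i true (s.2 k))).card : ℝ)) := by
    refine Finset.prod_congr rfl fun k _ => ?_
    have hw := hW _ (hxW k)
    rw [Rv_layer hL hw.1 hw.2 false F₀, Rv_layer hL hw.1 hw.2 true F₀]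
    unfold pc
    refine congrArg₂ (fun a b : ℝ => a / b) (congrArg Nat.cast (congrArg Finset.card ?_)) rfl
    ext w
    simp only [Finset.mem_filter, hE]
  rw [hprod]
  refine le_trans ?_ key
  unfold cG
  refine Nat.cast_le.2 (Finset.card_le_card ?_)
  intro F hF
  simp only [Finset.mem_filter, Finset.mem_univ, true_and] at hF ⊢
  obtain ⟨hpr, hag, hC⟩ := hF
  refine ⟨hpr, hag, fun k => ?_⟩
  rw [hE]
  have e1 : ∀ l, fb i F true (s.1 l) = fb i F₀ true (s.1 l) := fun l =>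
    hag _ (fun h' => hod l ((ev_layer hL true _).1 h'))
  have e0 : ∀ l, fb i F false (s.1 l) = fb i F₀ false (s.1 l) := fun l => hag _ (hod l)
  have hk := hC k
  constructor
  · rcases hk.1.2 with h | h
    · right
      refine ⟨?_, Finset.notMem_empty _⟩
      rw [← e0]
      exact h.symm
    · left
      refine ⟨?_, Finset.notMem_empty _⟩
      rw [← e1]
      exact h.symm
  · rcases hk.2.2 with h | h
    · left
      refine ⟨?_, Finset.notMem_empty _⟩
      rw [← e1]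
      exact h
    · right
      refine ⟨?_, Finset.notMem_empty _⟩
      rw [← e0]
      exact h

open scoped Classical in
private theorem V07_weight {V Λ : Type} [Fintype Λ] {q : ℕ}
    {ev : V → Prop} {G : SimpleGraph Λ} {i : Bool → Λ → V}
    (W A : Finset Λ) (ρ D : ℝ) (h0 : 0 ≤ ρ) (h1 : ρ ≤ 1) (hD : 1 ≤ D) (Φ Ψ : Λ → Fin q)
    (hρ : ∀ y ∈ W, ¬ ev (i false y) → y ∉ A → ∑ y', Mk G ∅ Φ Ψ y y' ≤ ρ)
    (hD' : ∀ y, ∑ y', Mk G ∅ Φ Ψ y y' ≤ D) (n m : ℕ) (y₀ : Λ) :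
    ∑ s ∈ V07_S G ev i W A n m y₀, ∏ k : Fin n, pc G ∅ Φ Ψ (s.2 k) (s.1 k.castSucc) (s.1 k.succ) ≤
      ρ ^ (n - m) * D ^ m := by
  set K : Λ → Λ → ℝ := fun y y' => if ¬ ev (i false y) then Mk G ∅ Φ Ψ y y' else 0 with hK
  have hK0 : ∀ y y', 0 ≤ K y y' := by
    intro y y'
    simp only [hK]
    split_ifs
    · exact le_rfl
    · exact V07_Mk_nonneg _ _ _ _ _ _
  have hKρ : ∀ y ∈ W, y ∉ A → ∑ y', K y y' ≤ ρ := by
    intro y hy hyA
    simp only [hK]
    by_cases he : ev (i false y)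
    · simp [he, h0]
    · simpa [he] using hρ y hy he hyA
  have hKD : ∀ y ∈ W, ∑ y', K y y' ≤ D := by
    intro y _
    simp only [hK]
    by_cases he : ev (i false y)
    · simp [he, (zero_le_one.trans hD)]
    · simpa [he] using hD' y
  refine le_trans ?_ (walk_sum K hK0 W A ρ D h0 h1 hD hKρ hKD n m y₀)
  set g : (Fin (n + 1) → Λ) → Fin n → Λ → ℝ := fun y k x =>
    if G.Adj (y k.castSucc) x ∧ G.Adj x (y k.succ) ∧ y k.castSucc ≠ y k.succ then
      pc G ∅ Φ Ψ x (y k.castSucc) (y k.succ) else 0 with hg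
  have hg0 : ∀ y k x, 0 ≤ g y k x := by
    intro y k x
    simp only [hg]
    split_ifs
    · exact V07_pc_nonneg _ _ _ _ _ _ _
    · exact le_rfl
  set Sy : Finset (Fin (n + 1) → Λ) := univ.filter (fun y : Fin (n + 1) → Λ => y 0 = y₀ ∧ (∀ k, y k ∈ W) ∧
        (univ.filter fun k : Fin n => y k.castSucc ∈ A).card ≤ m) with hSy
  set Sy' : Finset (Fin (n + 1) → Λ) := Sy.filter (fun y => ∀ k, ¬ ev (i false (y k))) with hSy'
  have hsub : V07_S G ev i W A n m y₀ ⊆ Sy' ×ˢ (univ : Finset (Fin n → Λ)) := by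
    intro s hs
    obtain ⟨a1, -, a3, -, -, a6, a7, -⟩ := V07_mem.1 hs
    rw [Finset.mem_product]
    refine ⟨?_, Finset.mem_univ _⟩
    rw [hSy', Finset.mem_filter, hSy, Finset.mem_filter]
    exact ⟨⟨Finset.mem_univ _, a1, a3, a6⟩, a7⟩
  calc ∑ s ∈ V07_S G ev i W A n m y₀, ∏ k : Fin n, pc G ∅ Φ Ψ (s.2 k) (s.1 k.castSucc) (s.1 k.succ)
      = ∑ s ∈ V07_S G ev i W A n m y₀, ∏ k : Fin n, g s.1 k (s.2 k) := by
        refine Finset.sum_congr rfl fun s hs => Finset.prod_congr rfl fun k _ => ?_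
        obtain ⟨-, -, -, -, a5, -, -, -⟩ := V07_mem.1 hs
        simp only [hg]
        rw [if_pos (a5 k)]
    _ ≤ ∑ s ∈ Sy' ×ˢ (univ : Finset (Fin n → Λ)), ∏ k : Fin n, g s.1 k (s.2 k) :=
        Finset.sum_le_sum_of_subset_of_nonneg hsub fun s _ _ => Finset.prod_nonneg fun k _ => hg0 _ _ _
    _ = ∑ y ∈ Sy', ∑ x : Fin n → Λ, ∏ k : Fin n, g y k (x k) := by
        rw [Finset.sum_product]
    _ = ∑ y ∈ Sy', ∏ k : Fin n, K (y k.castSucc) (y k.succ) := by
        refine Finset.sum_congr rfl fun y hy => ?_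
        have hod := (Finset.mem_filter.1 hy).2
        rw [← Fintype.piFinset_univ, ← Finset.prod_univ_sum]
        refine Finset.prod_congr rfl fun k _ => ?_
        simp only [hK, hg]
        rw [if_pos (hod _)]
        rfl
    _ ≤ ∑ y ∈ Sy, ∏ k : Fin n, K (y k.castSucc) (y k.succ) :=
        Finset.sum_le_sum_of_subset_of_nonneg (Finset.filter_subset _ _) fun y _ _ =>
          Finset.prod_nonneg fun k _ => hK0 _ _

open scoped Classical in
theorem PT_sum {V Λ : Type} [Fintype V] [DecidableEq V] [Fintype Λ] [DecidableEq Λ] {q h : ℕ}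
    {X X' : SimpleGraph V} {ev : V → Prop} {G : SimpleGraph Λ} {lv : Λ → ℕ} {i : Bool → Λ → V}
    (hP : Par X ev) (hL : Layer h X X' ev G lv i) (W A : Finset Λ)
    (hW : ∀ p ∈ W, 1 ≤ lv p ∧ lv p + 2 ≤ h) (ρ D : ℝ) (h0 : 0 ≤ ρ) (h1 : ρ ≤ 1) (hD : 1 ≤ D) (F₀ : V → Fin q)
    (hρ : ∀ y ∈ W, ¬ ev (i false y) → y ∉ A → ∑ y', Mk G ∅ (fb i F₀ false) (fb i F₀ true) y y' ≤ ρ)
    (hD' : ∀ y, ∑ y', Mk G ∅ (fb i F₀ false) (fb i F₀ true) y y' ≤ D) (n m : ℕ) :
    ∑ F ∈ univ.filter (fun F : V → Fin q => PrG X F ∧ ∀ w, ¬ ev w → F w = F₀ w),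
        ((PT G (fun p => ev (i false p)) (fb i F false) (fb i F true) W A n m).card : ℝ) ≤
      W.card * (ρ ^ (n - m) * D ^ m) * cG X (fun F : V → Fin q => ∀ w, ¬ ev w → F w = F₀ w) := by
  set Z := cG X (fun F : V → Fin q => ∀ w, ¬ ev w → F w = F₀ w) with hZ
  have hZ0 : 0 ≤ Z := by
    rw [hZ]
    unfold cG
    positivity
  set B := univ.filter (fun F : V → Fin q => PrG X F ∧ ∀ w, ¬ ev w → F w = F₀ w) with hB
  -- one function
  have hone : ∀ F ∈ B, ((PT G (fun p => ev (i false p)) (fb i F false) (fb i F true) W A n m).card : ℝ) ≤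
      ∑ y₀ ∈ W, ∑ s ∈ V07_S G ev i W A n m y₀, if V07_C G i F s then (1 : ℝ) else 0 := by
    intro F _
    unfold PT
    rw [Finset.card_filter]
    push_cast
    refine Finset.sum_le_sum fun y₀ _ => ?_
    split_ifs with hc
    · obtain ⟨hev0, y, x, hy0, hxi, hyW, hxW, hcf, hcard⟩ := hc
      have hpar := V07_par (par_layer hL hP) y x (by rw [hy0]; exact hev0)
        (fun k => ⟨(hcf k).1.1, (hcf k).2.1.1⟩)
      have hmem : (y, x) ∈ V07_S G ev i W A n m y₀ :=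
        V07_mem.2 ⟨hy0, hxi, hyW, hxW, fun k => ⟨(hcf k).1.1, (hcf k).2.1.1, (hcf k).2.2⟩, hcard.le,
          hpar.1, hpar.2⟩
      have hC : V07_C G i F (y, x) := fun k => ⟨(hcf k).1, (hcf k).2.1⟩
      calc (1 : ℝ) = if V07_C G i F (y, x) then (1 : ℝ) else 0 := by rw [if_pos hC]
        _ ≤ _ := Finset.single_le_sum (f := fun s => if V07_C G i F s then (1 : ℝ) else 0)
            (fun s _ => by split_ifs <;> norm_num) hmem
    · refine Finset.sum_nonneg fun s _ => ?_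
      split_ifs <;> norm_num
  have hcnt : ∀ s : (Fin (n + 1) → Λ) × (Fin n → Λ), ∑ F ∈ B, (if V07_C G i F s then (1 : ℝ) else 0) =
      cG X (fun F : V → Fin q => (∀ w, ¬ ev w → F w = F₀ w) ∧ V07_C G i F s) := by
    intro s
    unfold cG
    rw [Finset.sum_boole, hB, Finset.filter_filter]
    congr 2
    ext F
    simp only [Finset.mem_filter, Finset.mem_univ, true_and, and_assoc]
  calc ∑ F ∈ B, ((PT G (fun p => ev (i false p)) (fb i F false) (fb i F true) W A n m).card : ℝ)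
      ≤ ∑ F ∈ B, ∑ y₀ ∈ W, ∑ s ∈ V07_S G ev i W A n m y₀, (if V07_C G i F s then (1 : ℝ) else 0) :=
        Finset.sum_le_sum hone
    _ = ∑ y₀ ∈ W, ∑ s ∈ V07_S G ev i W A n m y₀, ∑ F ∈ B, (if V07_C G i F s then (1 : ℝ) else 0) := by
        rw [Finset.sum_comm]
        refine Finset.sum_congr rfl fun y₀ _ => ?_
        rw [Finset.sum_comm]
    _ ≤ ∑ y₀ ∈ W, ∑ s ∈ V07_S G ev i W A n m y₀,
          (∏ k : Fin n, pc G ∅ (fb i F₀ false) (fb i F₀ true) (s.2 k) (s.1 k.castSucc) (s.1 k.succ)) * Z := by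
        refine Finset.sum_le_sum fun y₀ _ => Finset.sum_le_sum fun s hs => ?_
        rw [hcnt s]
        exact V07_count hP hL W A hW F₀ n m y₀ s hs
    _ ≤ ∑ y₀ ∈ W, (ρ ^ (n - m) * D ^ m) * Z := by
        refine Finset.sum_le_sum fun y₀ _ => ?_
        rw [← Finset.sum_mul]
        exact mul_le_mul_of_nonneg_right (V07_weight W A ρ D h0 h1 hD _ _ hρ hD' n m y₀) hZ0
    _ = _ := by
        rw [Finset.sum_const, nsmul_eq_mul]
        ring

/-- the trivial row sum: `pc ≤ 1`, at most `4 d` neighbours `x` of `y` and at most `4 d` neighbours `y'` of `x` -/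
theorem Mk_row_le {Λ : Type} [Fintype Λ] {d q : ℕ} (G : SimpleGraph Λ) (hdeg : ∀ p, (nb G p).card ≤ 4 * d)
    (J : Finset (Fin q)) (Φ Ψ : Λ → Fin q) (y : Λ) : ∑ y', Mk G J Φ Ψ y y' ≤ (4 * d) ^ 2 := by
  classical
  have hdeg' : ∀ p, ((nb G p).card : ℝ) ≤ 4 * d := fun p => by exact_mod_cast hdeg p
  unfold Mk
  rw [Finset.sum_comm]
  have h1 : ∀ x, ∑ y', (if G.Adj y x ∧ G.Adj x y' ∧ y ≠ y' then pc G J Φ Ψ x y y' else 0) ≤
      if G.Adj y x then (4 * d : ℝ) else 0 := by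
    intro x
    by_cases hx : G.Adj y x
    · rw [if_pos hx]
      calc ∑ y', (if G.Adj y x ∧ G.Adj x y' ∧ y ≠ y' then pc G J Φ Ψ x y y' else 0)
          ≤ ∑ y', (if G.Adj x y' then (1 : ℝ) else 0) := by
            refine Finset.sum_le_sum fun y' _ => ?_
            by_cases h2 : G.Adj x y'
            · rw [if_pos h2]
              split_ifs
              · exact V07_pc_le_one _ _ _ _ _ _ _
              · exact zero_le_one
            · rw [if_neg h2, if_neg (fun h3 => h2 h3.2.1)]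
        _ = ((nb G x).card : ℝ) := by
            unfold nb
            rw [Finset.sum_boole]
        _ ≤ _ := hdeg' x
    · rw [if_neg hx]
      refine le_of_eq (Finset.sum_eq_zero fun y' _ => ?_)
      rw [if_neg (fun h3 => hx h3.1)]
  refine (Finset.sum_le_sum fun x _ => h1 x).trans ?_
  rw [← Finset.sum_filter, Finset.sum_const, nsmul_eq_mul]
  have h2 : (univ.filter fun x => G.Adj y x).card = (nb G y).card := by
    unfold nb
    congr 1
  rw [h2, pow_two]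
  exact mul_le_mul_of_nonneg_right (hdeg' y) (by positivity)

end Pool.Agent.LC
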