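import Pool.Agent.Lib_MP_2c424f_lc5.Defs5

/-!
# Part V, V08: a small separating set (deterministic)

`W = wn lv b₀ (b₀ + n)`.  Let `C` be the graph on `Λ` with edges `cf G Φ Ψ a b`, `a, b ∈ W` (`cf` is symmetric).  For `p ∈ W` let
`ψ p ≤ r` mean: there are a point `p₀ ∉ St` with `lv p₀ = b₀ + n` and a walk `w` of `C` from `p₀` to `p` with
`(w.support.toFinset ∩ A).card ≤ r` (one point walks are allowed).  Extending a walk by one step `a → b` adds at most 1, and
nothing if `b ∉ A`.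
(i) if `lv p = b₀` then `ψ p ≥ m` (i.e. no such walk has fewer than `m` points in `A`): replace the walk by a path
 (`Walk.bypass` / `toPath`, its support is contained in the old one); its length is at least `n` (levels change by at most 1
 per step); its first `n` steps (`getVert k`, `k ≤ n`) contradict `hSt`.
(ii) `X_r := {p ∈ A ∩ W : ψ p = r}`, `1 ≤ r ≤ m`: disjoint subsets of `A ∩ W`, so `|X_r| ≤ |A ∩ W| / m` for some `r`.
 `Del := St ∪ X_r` (only the points with `lv = b₀ + n` of `St` are needed).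
(iii) `sp`: induction along the path.  Invariant of a point `p` of the path: `b₀ < lv p` and (`lv p ≤ b₀ + n → ψ p < r`).
 Start: `lv p = h - 1 > b₀ + n`.  Step `a → b`, `b ∉ Del`: if `lv a > b₀ + n` and `lv b = b₀ + n`: `b ∉ St`, so `ψ b ≤ 1[b ∈ A] ≤ r`, and
 `ψ b = r` would give `b ∈ X_r`.  If `b₀ < lv a ≤ b₀ + n` and `lv b ≤ b₀ + n`: `b₀ ≤ lv b`, `ψ b ≤ ψ a + 1[b ∈ A] ≤ r` with equality
 only if `b ∈ A`, i.e. `b ∈ X_r`; so `ψ b < r ≤ m` and `lv b ≠ b₀` by (i).
 At the end `lv p' > b₀ ≥ 1`.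
-/

set_option autoImplicit false

open Finset Filter

namespace Pool.Agent.LC

open Pool.Agent.LO Pool.Agent.LIN Pool.Agent.THR Pool.Agent.COR

section
variable {Λ : Type} [DecidableEq Λ] {q : ℕ}

private lemma cf_symm_V08 {G : SimpleGraph Λ} {Φ Ψ : Λ → Fin q} {a b : Λ} (h : cf G Φ Ψ a b) :
    cf G Φ Ψ b a :=
  ⟨h.1.symm, h.2.elim (fun e => Or.inr e.symm) (fun e => Or.inl e.symm)⟩

/-- the conflict graph in the window -/
private def cgV08 (G : SimpleGraph Λ) (Φ Ψ : Λ → Fin q) (W : Finset Λ) : SimpleGraph Λ where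
  Adj a b := cf G Φ Ψ a b ∧ a ∈ W ∧ b ∈ W
  symm := ⟨fun _ _ h => ⟨cf_symm_V08 h.1, h.2.2, h.2.1⟩⟩
  loopless := ⟨fun v h => G.loopless.irrefl v h.1.1⟩

/-- `p` is reached from the level `t` by a walk with at most `r` points in `A` -/
private def RV08 (G : SimpleGraph Λ) (lv : Λ → ℕ) (Φ Ψ : Λ → Fin q) (W A St : Finset Λ) (t r : ℕ)
    (p : Λ) : Prop :=
  ∃ p₀, lv p₀ = t ∧ p₀ ∉ St ∧ p₀ ∈ W ∧
    ∃ w : (cgV08 G Φ Ψ W).Walk p₀ p, (w.support.toFinset ∩ A).card ≤ r

variable {G : SimpleGraph Λ} {lv : Λ → ℕ} {Φ Ψ : Λ → Fin q} {W A St : Finset Λ} {t r : ℕ}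

private lemma mono_V08 {r' : ℕ} {p : Λ} (h : RV08 G lv Φ Ψ W A St t r p) (hr : r ≤ r') :
    RV08 G lv Φ Ψ W A St t r' p := by
  obtain ⟨p₀, h1, h2, h3, w, hw⟩ := h
  exact ⟨p₀, h1, h2, h3, w, hw.trans hr⟩

private lemma start_V08 {p : Λ} (hp : lv p = t) (hS : p ∉ St) (hW : p ∈ W) :
    RV08 G lv Φ Ψ W A St t 1 p ∧ (p ∉ A → RV08 G lv Φ Ψ W A St t 0 p) := by
  refine ⟨⟨p, hp, hS, hW, SimpleGraph.Walk.nil, ?_⟩, fun hA => ⟨p, hp, hS, hW, SimpleGraph.Walk.nil, ?_⟩⟩
  · have h1 : ((SimpleGraph.Walk.nil : (cgV08 G Φ Ψ W).Walk p p).support.toFinset ∩ A) ⊆ {p} := by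
      intro x hx
      simpa using (Finset.mem_inter.mp hx).1
    exact (Finset.card_le_card h1).trans (by simp)
  · have h1 : ((SimpleGraph.Walk.nil : (cgV08 G Φ Ψ W).Walk p p).support.toFinset ∩ A) = ∅ := by
      ext x
      simp only [SimpleGraph.Walk.support_nil, List.toFinset_cons, List.toFinset_nil,
        Finset.mem_inter, Finset.mem_insert, Finset.notMem_empty, or_false, iff_false, not_and]
      rintro rfl
      exact hA
    rw [h1]
    simp

private lemma step_V08 {a b : Λ} (h : RV08 G lv Φ Ψ W A St t r a) (hc : cf G Φ Ψ a b) (ha : a ∈ W)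
    (hb : b ∈ W) :
    RV08 G lv Φ Ψ W A St t (r + 1) b ∧ (b ∉ A → RV08 G lv Φ Ψ W A St t r b) := by
  obtain ⟨p₀, h1, h2, h3, w, hw⟩ := h
  have hadj : (cgV08 G Φ Ψ W).Adj a b := ⟨hc, ha, hb⟩
  have hsup : (w.concat hadj).support.toFinset = insert b w.support.toFinset := by
    rw [SimpleGraph.Walk.support_concat]
    ext x
    simp [or_comm]
  refine ⟨⟨p₀, h1, h2, h3, w.concat hadj, ?_⟩, fun hA => ⟨p₀, h1, h2, h3, w.concat hadj, ?_⟩⟩
  · rw [hsup]
    have h4 : insert b w.support.toFinset ∩ A ⊆ insert b (w.support.toFinset ∩ A) := by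
      intro x hx
      rw [Finset.mem_inter, Finset.mem_insert] at hx
      rw [Finset.mem_insert, Finset.mem_inter]
      tauto
    exact (Finset.card_le_card h4).trans ((Finset.card_insert_le _ _).trans (by omega))
  · rw [hsup, Finset.insert_inter_of_notMem hA]
    exact hw

private lemma lvl_V08 (hlvl : ∀ p p', G.Adj p p' → lv p ≤ lv p' + 1) {a b : Λ}
    (w : (cgV08 G Φ Ψ W).Walk a b) : lv a ≤ lv b + w.length := by
  induction w with
  | nil => simp
  | cons h p ih =>
    have := hlvl _ _ h.1.1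
    rw [SimpleGraph.Walk.length_cons]
    omega

private lemma supp_V08 {a b : Λ} (w : (cgV08 G Φ Ψ W).Walk a b) (ha : a ∈ W) :
    ∀ x ∈ w.support, x ∈ W := by
  induction w with
  | nil =>
    intro x hx
    simp at hx
    rw [hx]
    exact ha
  | cons h p ih =>
    intro x hx
    rw [SimpleGraph.Walk.support_cons, List.mem_cons] at hx
    rcases hx with rfl | hx
    · exact ha
    · exact ih h.2.2 x hx

private lemma low_V08 (hlvl : ∀ p p', G.Adj p p' → lv p ≤ lv p' + 1) {b₀ n m : ℕ}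
    (hSt : ∀ p, lv p = b₀ + n → p ∉ St → ¬ CP G Φ Ψ W A n m p) {p : Λ} (hp : lv p = b₀)
    (hr : RV08 G lv Φ Ψ W A St (b₀ + n) r p) : m ≤ r := by
  by_contra hcon
  push Not at hcon
  obtain ⟨p₀, h1, h2, h3, w, hw⟩ := hr
  refine hSt p₀ h1 h2 ?_
  have hpath : w.bypass.IsPath := w.bypass_isPath
  have hlen : n ≤ w.bypass.length := by
    have := lvl_V08 hlvl w.bypass
    omega
  refine ⟨w.bypass.getVert, by simp, ?_, ?_, ?_, ?_⟩
  · intro k _
    exact supp_V08 w.bypass h3 _ (w.bypass.getVert_mem_support k)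
  · intro k hk
    exact (w.bypass.adj_getVert_succ (by omega : k < w.bypass.length)).1
  · intro k hk l hl hkl
    exact hpath.getVert_injOn (by simp; omega) (by simp; omega) hkl
  · refine lt_of_le_of_lt (Finset.card_le_card ?_) (lt_of_le_of_lt hw hcon)
    intro x hx
    rw [Finset.mem_inter, Finset.mem_image] at hx
    obtain ⟨⟨k, _, rfl⟩, hA⟩ := hx
    rw [Finset.mem_inter, List.mem_toFinset]
    exact ⟨w.support_bypass_subset_support (w.bypass.getVert_mem_support k), hA⟩

end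

open scoped Classical in
theorem exists_del {Λ : Type} [Fintype Λ] [DecidableEq Λ] {q h : ℕ} (G : SimpleGraph Λ) (lv : Λ → ℕ)
    (hlvl : ∀ p p', G.Adj p p' → lv p ≤ lv p' + 1) (Φ Ψ : Λ → Fin q) (A St : Finset Λ) (b₀ n m : ℕ) (hm : 1 ≤ m)
    (h1 : 1 ≤ b₀) (h2 : b₀ + n + 2 ≤ h)
    (hSt : ∀ p, lv p = b₀ + n → p ∉ St → ¬ CP G Φ Ψ (wn lv b₀ (b₀ + n)) A n m p) :
    ∃ Del ⊆ St ∪ (A ∩ wn lv b₀ (b₀ + n)), sp G lv h Φ Ψ Del ∧
      (Del.card : ℝ) ≤ St.card + ((A ∩ wn lv b₀ (b₀ + n)).card : ℝ) / m := by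
  have hmemW : ∀ p, p ∈ wn lv b₀ (b₀ + n) ↔ b₀ ≤ lv p ∧ lv p ≤ b₀ + n := by
    intro p
    simp [wn]
  set W := wn lv b₀ (b₀ + n) with hWdef
  set R : ℕ → Λ → Prop := fun r p => RV08 G lv Φ Ψ W A St (b₀ + n) r p with hR
  have hmono : ∀ {r r' : ℕ} {p : Λ}, R r p → r ≤ r' → R r' p := fun h hr => mono_V08 h hr
  have hlow : ∀ {r : ℕ} {p : Λ}, lv p = b₀ → R r p → m ≤ r := fun hp h => low_V08 hlvl hSt hp h
  set X : ℕ → Finset Λ := fun r => (A ∩ W).filter fun p => R (r + 1) p ∧ ¬ R r p with hX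
  -- a small level set
  have hdisj : ∀ r ∈ Finset.range m, ∀ r' ∈ Finset.range m, r ≠ r' → Disjoint (X r) (X r') := by
    have key : ∀ r r' : ℕ, r < r' → Disjoint (X r) (X r') := by
      intro r r' hlt
      rw [Finset.disjoint_left]
      intro p hp hp'
      rw [hX, Finset.mem_filter] at hp hp'
      exact hp'.2.2 (hmono hp.2.1 (by omega))
    intro r _ r' _ hne
    rcases lt_or_gt_of_ne hne with h | h
    · exact key r r' h
    · exact (key r' r h).symm
  have hsum : ∑ r ∈ Finset.range m, (X r).card ≤ (A ∩ W).card := by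
    rw [← Finset.card_biUnion hdisj]
    refine Finset.card_le_card ?_
    intro p hp
    rw [Finset.mem_biUnion] at hp
    obtain ⟨r, _, hr⟩ := hp
    exact (Finset.mem_filter.mp hr).1
  obtain ⟨r, hrm, hrX⟩ : ∃ r ∈ Finset.range m, (X r).card * m ≤ (A ∩ W).card := by
    by_contra hcon
    push Not at hcon
    have h3 : ∑ r ∈ Finset.range m, (A ∩ W).card < ∑ r ∈ Finset.range m, (X r).card * m := by
      refine Finset.sum_lt_sum_of_nonempty ?_ fun r hr => hcon r hr
      exact ⟨0, Finset.mem_range.mpr (by omega)⟩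
    rw [← Finset.sum_mul, Finset.sum_const, Finset.card_range, smul_eq_mul, mul_comm] at h3
    have h4 : (∑ r ∈ Finset.range m, (X r).card) * m ≤ (A ∩ W).card * m :=
      Nat.mul_le_mul_right m hsum
    omega
  rw [Finset.mem_range] at hrm
  refine ⟨St ∪ X r, ?_, ?_, ?_⟩
  · exact Finset.union_subset_union (Finset.Subset.refl _) (Finset.filter_subset _ _)
  · -- no crossing
    have inv : ∀ p p', lv p + 1 = h → p ∉ St ∪ X r →
        Relation.ReflTransGen (fun a b => cf G Φ Ψ a b ∧ b ∉ St ∪ X r) p p' →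
        b₀ < lv p' ∧ (lv p' ≤ b₀ + n → R r p') := by
      intro p p' hp _ hpath
      induction hpath with
      | refl => exact ⟨by omega, fun h => by omega⟩
      | @tail a b _ hab ih =>
        obtain ⟨hcf, hbD⟩ := hab
        rw [Finset.mem_union, not_or] at hbD
        obtain ⟨hbS, hbX⟩ := hbD
        have hl1 := hlvl a b hcf.1
        have hl2 := hlvl b a hcf.1.symm
        by_cases hb : lv b ≤ b₀ + n
        · -- the claim for `b`
          have hRb : b₀ ≤ lv b ∧ R r b := by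
            by_cases ha : lv a ≤ b₀ + n
            · have hbl : b₀ ≤ lv b := by
                have := ih.1
                omega
              have haW : a ∈ W := (hmemW a).mpr ⟨le_of_lt ih.1, ha⟩
              have hbW : b ∈ W := (hmemW b).mpr ⟨hbl, hb⟩
              have hst := step_V08 (ih.2 ha) hcf haW hbW
              refine ⟨hbl, ?_⟩
              by_cases hbA : b ∈ A
              · by_contra hcon
                exact hbX (Finset.mem_filter.mpr ⟨Finset.mem_inter.mpr ⟨hbA, hbW⟩, hst.1, hcon⟩)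
              · exact hst.2 hbA
            · have hbe : lv b = b₀ + n := by omega
              have hbW : b ∈ W := (hmemW b).mpr ⟨by omega, hb⟩
              have hst := start_V08 (G := G) (Φ := Φ) (Ψ := Ψ) (A := A) (lv := lv) hbe hbS hbW
              refine ⟨by omega, ?_⟩
              by_cases hbA : b ∈ A
              · by_contra hcon
                exact hbX (Finset.mem_filter.mpr ⟨Finset.mem_inter.mpr ⟨hbA, hbW⟩,
                  hmono hst.1 (by omega), hcon⟩)
              · exact hmono (hst.2 hbA) (by omega)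
          refine ⟨?_, fun _ => hRb.2⟩
          rcases eq_or_lt_of_le hRb.1 with h5 | h5
          · have := hlow h5.symm hRb.2
            omega
          · exact h5
        · exact ⟨by omega, fun h => absurd h hb⟩
    intro p p' hp hpD hpath
    have := (inv p p' hp hpD hpath).1
    omega
  · have h1 : ((St ∪ X r).card : ℝ) ≤ St.card + (X r).card := by
      exact_mod_cast Finset.card_union_le _ _
    have h2 : ((X r).card : ℝ) ≤ ((A ∩ W).card : ℝ) / m := by
      have hm0 : (0 : ℝ) < m := by exact_mod_cast (by omega : 0 < m)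
      rw [le_div_iff₀ hm0]
      exact_mod_cast hrX
    linarith

end Pool.Agent.LC
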