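import Pool.Agent.Lib_MP_2c424f_lc5.Defs5

/-!
# Part V, V09: from self-avoiding conflict paths to two-step walks

`CP_PT`: let `s` be the path, of `2n+2` steps.  If `s 0` is odd (`¬ ev`) take `y k = s (2k)`, `x k = s (2k+1)`; if it is even take
`y k = s (2k+1)`, `x k = s (2k+2)` and `y₀ = s 1`.  All indices are at most `2n+2`; `s` is injective on them; the parities alternate
(`Par`, `cf` contains `G.Adj`), which gives nothing needed except that `y 0` is odd; the number of indices `k` with
`y k ∈ A` is at most the number of points of the path in `A`.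
`St_card`: every `p` with `CP` is a point of `PT` or a neighbour of one; the map `p ↦ y₀` has at most `4d + 1` preimages.
-/

set_option autoImplicit false

open Finset Filter

namespace Pool.Agent.LC

open Pool.Agent.LO Pool.Agent.LIN Pool.Agent.THR Pool.Agent.COR

private theorem V09_par {Λ : Type} [Fintype Λ] {G : SimpleGraph Λ} {ev : Λ → Prop} (hP : Par G ev) {a b : Λ}
    (h : G.Adj a b) (ha : ev a) : ¬ ev b := by
  exact fun hb => ((hP a b h).1 ha) hb

open scoped Classical in
theorem CP_PT {Λ : Type} [Fintype Λ] [DecidableEq Λ] {q : ℕ} {G : SimpleGraph Λ} {ev : Λ → Prop} (hP : Par G ev)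
    {Φ Ψ : Λ → Fin q} {W A : Finset Λ} {n m : ℕ} {p : Λ} (h : CP G Φ Ψ W A (2 * n + 2) m p) :
    ∃ y₀ ∈ PT G ev Φ Ψ W A n m, y₀ = p ∨ G.Adj y₀ p := by
  obtain ⟨s, hs0, hW, hcf, hinj, hA⟩ := h
  -- the offset
  obtain ⟨o, ho, hodd, hadj⟩ : ∃ o : ℕ, o ≤ 1 ∧ ¬ ev (s o) ∧ (s o = p ∨ G.Adj (s o) p) := by
    by_cases h0 : ev (s 0)
    · refine ⟨1, le_refl _, ?_, ?_⟩
      · have h1 := (hcf 0 (by omega)).1
        exact V09_par hP h1 h0
      · right
        rw [← hs0]
        exact (hcf 0 (by omega)).1.symm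
    · exact ⟨0, by omega, h0, Or.inl hs0⟩
  refine ⟨s o, ?_, hadj⟩
  unfold PT
  refine (@Finset.mem_filter _ _ (_) _ _).2 ⟨hW o (by omega), hodd, fun k => s (2 * k.val + o), fun k => s (2 * k.val + o + 1), ?_, ?_, ?_, ?_, ?_, ?_⟩
  · show s (2 * (0 : Fin (n + 1)).val + o) = s o
    rw [Fin.val_zero]
    congr 1
    omega
  · intro k l hkl
    have hk := k.isLt
    have hl := l.isLt
    have := hinj _ (by omega) _ (by omega) hkl
    exact Fin.ext (by omega)
  · intro k
    have hk := k.isLt
    exact hW _ (by omega)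
  · intro k
    have hk := k.isLt
    exact hW _ (by omega)
  · intro k
    have hk := k.isLt
    refine ⟨?_, ?_, ?_⟩
    · exact hcf (2 * k.val + o) (by omega)
    · have h2 := hcf (2 * k.val + o + 1) (by omega)
      have e : 2 * k.succ.val + o = 2 * k.val + o + 1 + 1 := by
        rw [Fin.val_succ]
        omega
      show cf G Φ Ψ (s (2 * k.val + o + 1)) (s (2 * k.succ.val + o))
      rw [e]
      exact h2
    · intro e
      have e' : s (2 * k.castSucc.val + o) = s (2 * k.succ.val + o) := e
      rw [Fin.val_castSucc, Fin.val_succ] at e'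
      have := hinj _ (by omega) _ (by omega) e'
      omega
  · refine lt_of_le_of_lt ?_ hA
    refine Finset.card_le_card_of_injOn (fun k : Fin n => s (2 * k.val + o)) ?_ ?_
    · intro k hk
      have hk' := ((@Finset.mem_filter _ _ (_) _ _).1 (Finset.mem_coe.1 hk)).2
      have hlt := k.isLt
      refine Finset.mem_coe.2 (Finset.mem_inter.2 ⟨?_, hk'⟩)
      exact Finset.mem_image.2 ⟨2 * k.val + o, Finset.mem_range.2 (by omega), rfl⟩
    · intro k _ l _ hkl
      have hk := k.isLt
      have hl := l.isLt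
      have := hinj _ (by omega) _ (by omega) hkl
      exact Fin.ext (by omega)

open scoped Classical in
theorem St_card {Λ : Type} [Fintype Λ] [DecidableEq Λ] {d q : ℕ} {G : SimpleGraph Λ} {ev : Λ → Prop} (hP : Par G ev)
    (hdeg : ∀ p, (nb G p).card ≤ 4 * d) (Φ Ψ : Λ → Fin q) (W A : Finset Λ) (n m : ℕ) :
    (univ.filter fun p => CP G Φ Ψ W A (2 * n + 2) m p).card ≤ (4 * d + 1) * (PT G ev Φ Ψ W A n m).card := by
  have hsub : (univ.filter fun p => CP G Φ Ψ W A (2 * n + 2) m p) ⊆
      (PT G ev Φ Ψ W A n m).biUnion fun y => insert y (nb G y) := by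
    intro p hp
    obtain ⟨y, hy, h⟩ := CP_PT hP ((@Finset.mem_filter _ _ (_) _ _).1 hp).2
    refine Finset.mem_biUnion.2 ⟨y, hy, ?_⟩
    rw [Finset.mem_insert]
    rcases h with h | h
    · exact Or.inl h.symm
    · right
      unfold nb
      exact (@Finset.mem_filter _ _ (_) _ _).2 ⟨Finset.mem_univ _, h⟩
  calc _ ≤ _ := Finset.card_le_card hsub
    _ ≤ _ := Finset.card_biUnion_le
    _ ≤ ∑ _y ∈ PT G ev Φ Ψ W A n m, (4 * d + 1) := by
        refine Finset.sum_le_sum fun y _ => ?_
        refine (Finset.card_insert_le _ _).trans ?_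
        have := hdeg y
        omega
    _ = (4 * d + 1) * (PT G ev Φ Ψ W A n m).card := by
        rw [Finset.sum_const, smul_eq_mul, mul_comm]

end Pool.Agent.LC
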