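import Pool.Agent.Lib_MP_2c424f_lc5.Defs5

/-!
# Part V, V10a: the four ways to be joined to two points

`x` a point with `|Rv G f x| ≥ q/3`, `|Rv G g x| ≥ q/3`; `(u, v)` uniform in `Rv G f x × Rv G g x`.
`cj J f g y u v ∧ cj J f g y' u v` implies one of:
 1. `u = g y = g y'`, `u ∉ J`;   2. `v = f y = f y'`, `v ∉ J`;   3. `u = g y ∉ J`, `v = f y' ∉ J`;   4. `v = f y ∉ J`, `u = g y' ∉ J`.
Number of pairs `(u, v)` in case 1: at most `1[g y ∈ Rv G f x, g y ∉ J, g y' = g y] |Rv G g x|`; divided by `|Rv f| |Rv g|` and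
`1/|Rv f| ≤ 3/q`; case 2 the same with `f`, `g` exchanged; cases 3, 4: at most one pair, and `1/(|Rv f| |Rv g|) ≤ 9/q²`.
Sum over the neighbours `y' ≠ y` of `x`: `#{y' ~ x, y' ≠ y, g y' = g y} = nc G g x y (g y)`.
-/

set_option autoImplicit false

open Finset Filter

namespace Pool.Agent.LC

open Pool.Agent.LO Pool.Agent.LIN Pool.Agent.THR Pool.Agent.COR

open scoped Classical in
private theorem V10a_card {Λ : Type} [Fintype Λ] {q : ℕ} (G : SimpleGraph Λ) (J : Finset (Fin q))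
    (f g : Λ → Fin q) (x y y' : Λ) :
    ((Rv G f x ×ˢ Rv G g x).filter fun w => cj J f g y w.1 w.2 ∧ cj J f g y' w.1 w.2).card ≤
      (if (g y ∈ Rv G f x ∧ g y ∉ J) ∧ g y' = g y then (Rv G g x).card else 0) +
      (if (f y ∈ Rv G g x ∧ f y ∉ J) ∧ f y' = f y then (Rv G f x).card else 0) +
      (if f y' ∈ Rv G g x ∧ f y' ∉ J then 1 else 0) +
      (if g y' ∈ Rv G f x ∧ g y' ∉ J then 1 else 0) := by
  have hsub : ((Rv G f x ×ˢ Rv G g x).filter fun w => cj J f g y w.1 w.2 ∧ cj J f g y' w.1 w.2) ⊆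
      (((if (g y ∈ Rv G f x ∧ g y ∉ J) ∧ g y' = g y then {g y} ×ˢ Rv G g x else ∅) ∪
      (if (f y ∈ Rv G g x ∧ f y ∉ J) ∧ f y' = f y then Rv G f x ×ˢ {f y} else ∅)) ∪
      (if f y' ∈ Rv G g x ∧ f y' ∉ J then {(g y, f y')} else ∅)) ∪
      (if g y' ∈ Rv G f x ∧ g y' ∉ J then {(g y', f y)} else ∅) := by
    rintro ⟨u, v⟩ hw
    rw [mem_filter, mem_product] at hw
    obtain ⟨⟨hu, hv⟩, h1, h2⟩ := hw
    simp only at hu hv h1 h2
    rw [mem_union, mem_union, mem_union]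
    rcases h1 with ⟨h1, h1J⟩ | ⟨h1, h1J⟩ <;> rcases h2 with ⟨h2, h2J⟩ | ⟨h2, h2J⟩
    · refine Or.inl (Or.inl (Or.inl ?_))
      have e : g y' = g y := by rw [← h2, ← h1]
      rw [if_pos ⟨⟨by rw [← h1]; exact hu, by rw [← h1]; exact h1J⟩, e⟩, mem_product]
      exact ⟨mem_singleton.2 h1, hv⟩
    · refine Or.inl (Or.inr ?_)
      rw [if_pos ⟨by rw [← h2]; exact hv, by rw [← h2]; exact h2J⟩, mem_singleton, h1, h2]
    · refine Or.inr ?_
      rw [if_pos ⟨by rw [← h2]; exact hu, by rw [← h2]; exact h2J⟩, mem_singleton, h1, h2]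
    · refine Or.inl (Or.inl (Or.inr ?_))
      have e : f y' = f y := by rw [← h2, ← h1]
      rw [if_pos ⟨⟨by rw [← h1]; exact hv, by rw [← h1]; exact h1J⟩, e⟩, mem_product]
      exact ⟨hu, mem_singleton.2 h1⟩
  refine (card_le_card hsub).trans ?_
  refine (card_union_le _ _).trans (add_le_add ?_ ?_)
  · refine (card_union_le _ _).trans (add_le_add ?_ ?_)
    · refine (card_union_le _ _).trans (add_le_add ?_ ?_)
      · split_ifs
        · rw [card_product, card_singleton, one_mul]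
        · rw [card_empty]
      · split_ifs
        · rw [card_product, card_singleton, mul_one]
        · rw [card_empty]
    · split_ifs
      · rw [card_singleton]
      · rw [card_empty]
  · split_ifs
    · rw [card_singleton]
    · rw [card_empty]

open scoped Classical in
private theorem V10a_pc {Λ : Type} [Fintype Λ] {q : ℕ} (G : SimpleGraph Λ) (J : Finset (Fin q))
    (f g : Λ → Fin q) (x y y' : Λ) (hq : 1 ≤ q) (hf : (q : ℝ) / 3 ≤ ((Rv G f x).card : ℝ))
    (hg : (q : ℝ) / 3 ≤ ((Rv G g x).card : ℝ)) :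
    pc G J f g x y y' ≤
      3 / q * (if (g y ∈ Rv G f x ∧ g y ∉ J) ∧ g y' = g y then (1 : ℝ) else 0) +
      3 / q * (if (f y ∈ Rv G g x ∧ f y ∉ J) ∧ f y' = f y then (1 : ℝ) else 0) +
      9 / (q : ℝ) ^ 2 * (if f y' ∈ Rv G g x ∧ f y' ∉ J then (1 : ℝ) else 0) +
      9 / (q : ℝ) ^ 2 * (if g y' ∈ Rv G f x ∧ g y' ∉ J then (1 : ℝ) else 0) := by
  have hq0 : (0 : ℝ) < q := by exact_mod_cast hq
  have hcard := V10a_card G J f g x y y'
  unfold pc
  set a : ℝ := ((Rv G f x).card : ℝ) with ha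
  set b : ℝ := ((Rv G g x).card : ℝ) with hb
  have ha0 : 0 < a := lt_of_lt_of_le (by positivity) hf
  have hb0 : 0 < b := lt_of_lt_of_le (by positivity) hg
  have h1 : 1 / a ≤ 3 / q := by
    rw [div_le_div_iff₀ ha0 hq0]
    linarith
  have h2 : 1 / b ≤ 3 / q := by
    rw [div_le_div_iff₀ hb0 hq0]
    linarith
  have h3 : 1 / (a * b) ≤ 9 / (q : ℝ) ^ 2 := by
    have h4 : 1 / (a * b) = 1 / a * (1 / b) := by rw [one_div_mul_one_div]
    have h5 : (9 : ℝ) / (q : ℝ) ^ 2 = 3 / q * (3 / q) := by ring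
    rw [h4, h5]
    exact mul_le_mul h1 h2 (by positivity) (by positivity)
  have hc : (((Rv G f x ×ˢ Rv G g x).filter fun w => cj J f g y w.1 w.2 ∧
      cj J f g y' w.1 w.2).card : ℝ) ≤
      (if (g y ∈ Rv G f x ∧ g y ∉ J) ∧ g y' = g y then b else 0) +
      (if (f y ∈ Rv G g x ∧ f y ∉ J) ∧ f y' = f y then a else 0) +
      (if f y' ∈ Rv G g x ∧ f y' ∉ J then 1 else 0) +
      (if g y' ∈ Rv G f x ∧ g y' ∉ J then 1 else 0) := by
    rw [ha, hb]
    exact_mod_cast hcard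
  refine (div_le_div_of_nonneg_right hc (mul_pos ha0 hb0).le).trans ?_
  rw [add_div, add_div, add_div]
  refine add_le_add (add_le_add (add_le_add ?_ ?_) ?_) ?_
  · split_ifs
    · rw [mul_one]
      refine le_trans (le_of_eq ?_) h1
      field_simp
    · rw [zero_div, mul_zero]
  · split_ifs
    · rw [mul_one]
      refine le_trans (le_of_eq ?_) h2
      field_simp
    · rw [zero_div, mul_zero]
  · split_ifs
    · rw [mul_one]
      exact h3
    · rw [zero_div, mul_zero]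
  · split_ifs
    · rw [mul_one]
      exact h3
    · rw [zero_div, mul_zero]

open scoped Classical in
private theorem V10a_nc {Λ : Type} [Fintype Λ] {q : ℕ} (G : SimpleGraph Λ) (h : Λ → Fin q)
    (x y : Λ) (p : Prop) [Decidable p] :
    ∑ y' ∈ (nb G x).erase y, (if p ∧ h y' = h y then (1 : ℝ) else 0) ≤
      if p then (nc G h x y (h y) : ℝ) else 0 := by
  by_cases hp : p
  · simp only [hp, true_and, if_true]
    rw [sum_boole]
    refine Nat.cast_le.2 (card_le_card fun z hz => ?_)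
    rw [mem_filter, mem_erase, nb, mem_filter] at hz
    rw [mem_filter]
    exact ⟨mem_univ _, hz.1.2.2, hz.1.1, hz.2⟩
  · simp [hp]

open scoped Classical in
private theorem V10a_filter {Λ : Type} [Fintype Λ] (G : SimpleGraph Λ)
    (x y : Λ) (p : Λ → Prop) [DecidablePred p] :
    ∑ y' ∈ (nb G x).erase y, (if p y' then (1 : ℝ) else 0) ≤ (((nb G x).filter p).card : ℝ) := by
  rw [sum_boole]
  exact Nat.cast_le.2 (card_le_card (filter_subset_filter _ (erase_subset _ _)))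

open scoped Classical in
theorem pc_row {Λ : Type} [Fintype Λ] {q : ℕ} (G : SimpleGraph Λ) (J : Finset (Fin q)) (f g : Λ → Fin q) (x y : Λ)
    (hq : 1 ≤ q) (hf : (q : ℝ) / 3 ≤ ((Rv G f x).card : ℝ)) (hg : (q : ℝ) / 3 ≤ ((Rv G g x).card : ℝ)) :
    ∑ y' ∈ (nb G x).erase y, pc G J f g x y y' ≤
      3 / q * (if g y ∈ Rv G f x ∧ g y ∉ J then (nc G g x y (g y) : ℝ) else 0) +
      3 / q * (if f y ∈ Rv G g x ∧ f y ∉ J then (nc G f x y (f y) : ℝ) else 0) +
      9 / (q : ℝ) ^ 2 * (((nb G x).filter fun y' => f y' ∈ Rv G g x ∧ f y' ∉ J).card : ℝ) +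
      9 / (q : ℝ) ^ 2 * (((nb G x).filter fun y' => g y' ∈ Rv G f x ∧ g y' ∉ J).card : ℝ) := by
  have hq0 : (0 : ℝ) < q := by exact_mod_cast hq
  refine (sum_le_sum fun y' _ => V10a_pc G J f g x y y' hq hf hg).trans ?_
  rw [sum_add_distrib, sum_add_distrib, sum_add_distrib, ← mul_sum, ← mul_sum, ← mul_sum,
    ← mul_sum]
  refine add_le_add (add_le_add (add_le_add ?_ ?_) ?_) ?_
  · exact mul_le_mul_of_nonneg_left (V10a_nc G g x y _) (by positivity)
  · exact mul_le_mul_of_nonneg_left (V10a_nc G f x y _) (by positivity)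
  · exact mul_le_mul_of_nonneg_left (V10a_filter G x y _) (by positivity)
  · exact mul_le_mul_of_nonneg_left (V10a_filter G x y _) (by positivity)

end Pool.Agent.LC
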