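import Pool.Agent.Lib_MP_2c424f_lc5.Defs5

/-!
# Part V, V11: the set `At` depends on the colours of the odd points only

`G` bipartite.  For `y` odd its neighbours `x` are even and their neighbours are odd.  `TyO ... f y` uses `Rc G f x y` and
`nc G f x y c` for `x ~ y`: only the colours of neighbours of `x`.  `TyE ... f x` for `x ~ y` uses `Rv G f x`, `nv G f x c`: the same.
-/

set_option autoImplicit false

open Finset Filter

namespace Pool.Agent.LC

open Pool.Agent.LO Pool.Agent.LIN Pool.Agent.THR Pool.Agent.COR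

open scoped Classical in
private theorem v11_Rv {V : Type} [Fintype V] {q : ℕ} {X : SimpleGraph V} {F F' : V → Fin q} {v : V}
    (h : ∀ x, X.Adj v x → F x = F' x) : Rv X F v = Rv X F' v := by
  unfold Rv
  ext c
  simp only [mem_filter, mem_univ, true_and]
  exact forall_congr' fun x => ⟨fun t hx => by rw [← h x hx]; exact t hx,
    fun t hx => by rw [h x hx]; exact t hx⟩

open scoped Classical in
private theorem v11_Rc {V : Type} [Fintype V] {q : ℕ} {X : SimpleGraph V} {F F' : V → Fin q} {v : V}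
    (h : ∀ x, X.Adj v x → F x = F' x) (w : V) : Rc X F v w = Rc X F' v w := by
  unfold Rc
  ext c
  simp only [mem_filter, mem_univ, true_and]
  exact forall_congr' fun x => ⟨fun t hx hw => by rw [← h x hx]; exact t hx hw,
    fun t hx hw => by rw [h x hx]; exact t hx hw⟩

open scoped Classical in
private theorem v11_nv {V : Type} [Fintype V] {q : ℕ} {X : SimpleGraph V} {F F' : V → Fin q} {v : V}
    (h : ∀ x, X.Adj v x → F x = F' x) (c : Fin q) : nv X F v c = nv X F' v c := by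
  unfold nv
  congr 1
  ext x
  simp only [mem_filter, mem_univ, true_and]
  exact ⟨fun t => ⟨t.1, by rw [← h x t.1]; exact t.2⟩, fun t => ⟨t.1, by rw [h x t.1]; exact t.2⟩⟩

open scoped Classical in
private theorem v11_nc {V : Type} [Fintype V] {q : ℕ} {X : SimpleGraph V} {F F' : V → Fin q} {v : V}
    (h : ∀ x, X.Adj v x → F x = F' x) (w : V) (c : Fin q) : nc X F v w c = nc X F' v w c := by
  unfold nc
  congr 1
  ext x
  simp only [mem_filter, mem_univ, true_and]
  exact ⟨fun t => ⟨t.1, t.2.1, by rw [← h x t.1]; exact t.2.2⟩,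
    fun t => ⟨t.1, t.2.1, by rw [h x t.1]; exact t.2.2⟩⟩

open scoped Classical in
private theorem v11_TyE {V : Type} [Fintype V] {d q : ℕ} {X : SimpleGraph V} {ev : V → Prop}
    {A : Finset (Fin q)} {F F' : V → Fin q} {v : V} (h : ∀ x, X.Adj v x → F x = F' x)
    (t : TyE d X ev A F v) : TyE d X ev A F' v := by
  have hR := v11_Rv h
  have hn := fun c => v11_nv h c
  refine ⟨?_, ?_, ?_, ?_⟩
  · have := t.e1
    rwa [hR] at this
  · have := t.e2
    rwa [hR] at this
  · have := t.e3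
    simp only [hn] at this
    exact this
  · have := t.e4
    simp only [hn] at this
    exact this

open scoped Classical in
private theorem v11_TyO {V : Type} [Fintype V] {d q : ℕ} {X : SimpleGraph V} {ev : V → Prop}
    {A : Finset (Fin q)} {F F' : V → Fin q} {v : V}
    (h : ∀ x, X.Adj v x → ∀ z, X.Adj x z → F z = F' z)
    (t : TyO d X ev A F v) : TyO d X ev A F' v := by
  have hR : ∀ x ∈ nb X v, Rc X F x v = Rc X F' x v := fun x hx =>
    v11_Rc (h x (by simpa [nb] using hx)) v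
  have hn : ∀ x ∈ nb X v, ∀ c, nc X F x v c = nc X F' x v c := fun x hx c =>
    v11_nc (h x (by simpa [nb] using hx)) v c
  refine ⟨?_, ?_, ?_⟩
  · intro c hc
    have h1 := t.o1 c hc
    have e : ((nb X v).filter fun x => c ∈ Rc X F' x v) = (nb X v).filter fun x => c ∈ Rc X F x v :=
      filter_congr fun x hx => by rw [hR x hx]
    rw [e]
    exact h1
  · intro c
    have h1 := t.o2 c
    have e : ∑ x ∈ nb X v, (nc X F' x v c : ℝ) ^ 2 = ∑ x ∈ nb X v, (nc X F x v c : ℝ) ^ 2 :=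
      sum_congr rfl fun x hx => by rw [hn x hx c]
    rw [e]
    exact h1
  · intro c hc
    have h1 := t.o3 c hc
    have e : ∑ x ∈ nb X v, (nc X F' x v c : ℝ) = ∑ x ∈ nb X v, (nc X F x v c : ℝ) :=
      sum_congr rfl fun x hx => by rw [hn x hx c]
    rw [e]
    exact h1

private theorem v11_cert {Λ : Type} [Fintype Λ] {d q : ℕ} {G : SimpleGraph Λ} {ev : Λ → Prop}
    (hP : Par G ev) (A B : Finset (Fin q)) (Φ Ψ Φ' Ψ' : Λ → Fin q)
    (h : ∀ p, ¬ ev p → Φ p = Φ' p ∧ Ψ p = Ψ' p) {y : Λ} (hy : ¬ ev y)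
    (t : cert d G ev A B Φ Ψ y) : cert d G ev A B Φ' Ψ' y := by
  have hx : ∀ x, G.Adj y x → ev x := fun x hx => (hP x y hx.symm).2 hy
  have hz : ∀ x, G.Adj y x → ∀ z, G.Adj x z → ¬ ev z := fun x h1 z h2 => (hP x z h2).1 (hx x h1)
  obtain ⟨⟨t1, t2, t3⟩, t4⟩ := t
  refine ⟨⟨v11_TyO (fun x h1 z h2 => (h z (hz x h1 z h2)).1) t1,
    v11_TyO (fun x h1 z h2 => (h z (hz x h1 z h2)).2) t2, t3⟩, fun x hx' => ?_⟩
  have h1 : G.Adj y x := by simpa [nb] using hx'
  obtain ⟨u1, u2, u3⟩ := t4 x hx'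
  exact ⟨v11_TyE (fun z h2 => (h z (hz x h1 z h2)).1) u1,
    v11_TyE (fun z h2 => (h z (hz x h1 z h2)).2) u2, u3⟩

open scoped Classical in
theorem At_congr {Λ : Type} [Fintype Λ] {d q : ℕ} {G : SimpleGraph Λ} {ev : Λ → Prop} (hP : Par G ev)
    (A : Finset (Fin q)) (Φ Ψ Φ' Ψ' : Λ → Fin q) (h : ∀ p, ¬ ev p → Φ p = Φ' p ∧ Ψ p = Ψ' p) :
    At d G ev A Φ Ψ = At d G ev A Φ' Ψ' := by
  unfold At
  ext y
  simp only [mem_filter, mem_univ, true_and]
  refine ⟨fun t => ⟨t.1, fun hc => t.2 ?_⟩, fun t => ⟨t.1, fun hc => t.2 ?_⟩⟩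
  · exact v11_cert hP A A Φ' Ψ' Φ Ψ (fun p hp => ⟨(h p hp).1.symm, (h p hp).2.symm⟩) t.1 hc
  · exact v11_cert hP A A Φ Ψ Φ' Ψ' h t.1 hc

end Pool.Agent.LC
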