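import Pool.Agent.Lib_MP_2c424f_lc5.Defs5

/-!
# Part V, V12b: many events; half of every fibre

`many_cells`: if at least `r` of the events hold then all events of some `S` with `|S| = ⌈r⌉` hold: union bound over `S`,
at most `2^{|ι|}` sets (for `r ≤ 0` take `S = ∅`).
`half_fib`: `F ~ F'` iff they agree on the odd vertices; sum over the classes (a class in which `Q` holds for one element
has `Q` for all elements).
-/

set_option autoImplicit false

open Finset Filter

namespace Pool.Agent.LC

open Pool.Agent.LO Pool.Agent.LIN Pool.Agent.THR Pool.Agent.COR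

open scoped Classical in
private theorem V12b_cG {V : Type} [Fintype V] [DecidableEq V] {q : ℕ} (X : SimpleGraph V)
    (P : (V → Fin q) → Prop) (s : Finset (V → Fin q)) (hs : ∀ F, F ∈ s ↔ PrG X F ∧ P F) :
    cG X P = (s.card : ℝ) := by
  unfold cG
  congr 2
  ext F
  rw [mem_filter, hs]
  exact ⟨fun h => h.2, fun h => ⟨mem_univ _, h⟩⟩

open scoped Classical in
theorem many_cells {V ι : Type} [Fintype V] [DecidableEq V] [Fintype ι] {q : ℕ} (X : SimpleGraph V)
    (P : ι → (V → Fin q) → Prop) (c r : ℝ) (hc : 0 ≤ c)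
    (h : ∀ S : Finset ι, cG X (fun F => ∀ j ∈ S, P j F) ≤
      cG X (fun _ : V → Fin q => True) * Real.exp (-(S.card * c))) :
    cG X (fun F : V → Fin q => r ≤ ((univ.filter fun j => P j F).card : ℝ)) ≤
      2 ^ Fintype.card ι * Real.exp (-(r * c)) * cG X (fun _ : V → Fin q => True) := by
  have h0 : (0 : ℝ) ≤ cG X (fun _ : V → Fin q => True) := Nat.cast_nonneg _
  have h1 : cG X (fun F : V → Fin q => r ≤ ((univ.filter fun j => P j F).card : ℝ)) ≤
      ∑ S ∈ (univ : Finset (Finset ι)).filter (fun S => r ≤ (S.card : ℝ)),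
        cG X (fun F => ∀ j ∈ S, P j F) := by
    have h2 : (univ.filter fun F : V → Fin q => PrG X F ∧
        r ≤ ((univ.filter fun j => P j F).card : ℝ)) ⊆
        ((univ : Finset (Finset ι)).filter (fun S => r ≤ (S.card : ℝ))).biUnion
          fun S => univ.filter fun F : V → Fin q => PrG X F ∧ ∀ j ∈ S, P j F := by
      intro F hF
      rw [mem_filter] at hF
      rw [mem_biUnion]
      refine ⟨univ.filter fun j => P j F, ?_, ?_⟩
      · rw [mem_filter]
        exact ⟨mem_univ _, hF.2.2⟩
      · rw [mem_filter]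
        exact ⟨mem_univ _, hF.2.1, fun j hj => (mem_filter.1 hj).2⟩
    have h3 := (card_le_card h2).trans card_biUnion_le
    rw [V12b_cG X (fun F : V → Fin q => r ≤ ((univ.filter fun j => P j F).card : ℝ))
      (univ.filter fun F : V → Fin q => PrG X F ∧ r ≤ ((univ.filter fun j => P j F).card : ℝ))
      (fun F => by rw [mem_filter]; exact ⟨fun h => h.2, fun h => ⟨mem_univ _, h⟩⟩)]
    have h4 : ∀ S : Finset ι, cG X (fun F => ∀ j ∈ S, P j F) =
        ((univ.filter fun F : V → Fin q => PrG X F ∧ ∀ j ∈ S, P j F).card : ℝ) := fun S =>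
      V12b_cG X _ _ (fun F => by rw [mem_filter]; exact ⟨fun h => h.2, fun h => ⟨mem_univ _, h⟩⟩)
    rw [sum_congr rfl fun S _ => h4 S]
    exact_mod_cast h3
  refine h1.trans ?_
  have h4 : ∀ S ∈ (univ : Finset (Finset ι)).filter (fun S => r ≤ (S.card : ℝ)),
      cG X (fun F => ∀ j ∈ S, P j F) ≤
        Real.exp (-(r * c)) * cG X (fun _ : V → Fin q => True) := by
    intro S hS
    refine (h S).trans ?_
    rw [mul_comm]
    refine mul_le_mul_of_nonneg_right ?_ h0
    refine Real.exp_le_exp.2 (neg_le_neg ?_)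
    exact mul_le_mul_of_nonneg_right (mem_filter.1 hS).2 hc
  refine (sum_le_sum h4).trans ?_
  rw [sum_const, nsmul_eq_mul, mul_assoc]
  refine mul_le_mul_of_nonneg_right ?_ (mul_nonneg (Real.exp_pos _).le h0)
  have h5 : ((univ : Finset (Finset ι)).filter (fun S => r ≤ (S.card : ℝ))).card ≤
      2 ^ Fintype.card ι := by
    refine (card_filter_le _ _).trans (le_of_eq ?_)
    rw [card_univ, Fintype.card_finset]
  exact_mod_cast h5

open scoped Classical in
theorem half_fib {V : Type} [Fintype V] [DecidableEq V] {q : ℕ} (X : SimpleGraph V) (ev : V → Prop)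
    (Q R : (V → Fin q) → Prop) (hQ : ∀ F F' : V → Fin q, (∀ w, ¬ ev w → F w = F' w) → (Q F ↔ Q F'))
    (h : ∀ F₀ : V → Fin q, Q F₀ → cG X (fun F : V → Fin q => ∀ w, ¬ ev w → F w = F₀ w) ≤
      2 * cG X (fun F : V → Fin q => (∀ w, ¬ ev w → F w = F₀ w) ∧ R F)) :
    cG X Q ≤ 2 * cG X R := by
  set g : (V → Fin q) → ({w // ¬ ev w} → Fin q) := fun F w => F w.1 with hg
  have hgi : ∀ F F₀ : V → Fin q, g F = g F₀ ↔ ∀ w, ¬ ev w → F w = F₀ w := by
    intro F F₀
    constructor
    · intro e w hw
      exact congrFun e ⟨w, hw⟩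
    · intro e
      funext w
      exact e w.1 w.2
  have key : ∀ t : {w // ¬ ev w} → Fin q,
      (((univ.filter fun F : V → Fin q => PrG X F ∧ Q F).filter fun F => g F = t).card : ℝ) ≤
        2 * (((univ.filter fun F : V → Fin q => PrG X F ∧ R F).filter fun F => g F = t).card : ℝ) := by
    intro t
    by_cases ht : ∃ F₀ : V → Fin q, Q F₀ ∧ g F₀ = t
    · obtain ⟨F₀, hF₀, rfl⟩ := ht
      have h1 := h F₀ hF₀
      rw [V12b_cG X (fun F : V → Fin q => ∀ w, ¬ ev w → F w = F₀ w)
          (univ.filter fun F : V → Fin q => PrG X F ∧ ∀ w, ¬ ev w → F w = F₀ w)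
          (fun F => by rw [mem_filter]; exact ⟨fun h => h.2, fun h => ⟨mem_univ _, h⟩⟩),
        V12b_cG X (fun F : V → Fin q => (∀ w, ¬ ev w → F w = F₀ w) ∧ R F)
          (univ.filter fun F : V → Fin q => PrG X F ∧ ((∀ w, ¬ ev w → F w = F₀ w) ∧ R F))
          (fun F => by rw [mem_filter]; exact ⟨fun h => h.2, fun h => ⟨mem_univ _, h⟩⟩)] at h1
      have e1 : (univ.filter fun F : V → Fin q => PrG X F ∧ Q F).filter (fun F => g F = g F₀) ⊆
          univ.filter fun F : V → Fin q => PrG X F ∧ ∀ w, ¬ ev w → F w = F₀ w := by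
        intro F hF
        rw [mem_filter, mem_filter] at hF
        rw [mem_filter]
        exact ⟨mem_univ _, hF.1.2.1, (hgi F F₀).1 hF.2⟩
      have e2 : (univ.filter fun F : V → Fin q => PrG X F ∧
          ((∀ w, ¬ ev w → F w = F₀ w) ∧ R F)) ⊆
          (univ.filter fun F : V → Fin q => PrG X F ∧ R F).filter (fun F => g F = g F₀) := by
        intro F hF
        rw [mem_filter] at hF
        rw [mem_filter, mem_filter]
        exact ⟨⟨mem_univ _, hF.2.1, hF.2.2.2⟩, (hgi F F₀).2 hF.2.2.1⟩
      have e3 : (((univ.filter fun F : V → Fin q => PrG X F ∧ Q F).filter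
          fun F => g F = g F₀).card : ℝ) ≤
          ((univ.filter fun F : V → Fin q => PrG X F ∧ ∀ w, ¬ ev w → F w = F₀ w).card : ℝ) := by
        exact_mod_cast card_le_card e1
      have e4 : ((univ.filter fun F : V → Fin q => PrG X F ∧
          ((∀ w, ¬ ev w → F w = F₀ w) ∧ R F)).card : ℝ) ≤
          (((univ.filter fun F : V → Fin q => PrG X F ∧ R F).filter
            fun F => g F = g F₀).card : ℝ) := by
        exact_mod_cast card_le_card e2
      linarith
    · have e1 : (univ.filter fun F : V → Fin q => PrG X F ∧ Q F).filter (fun F => g F = t) = ∅ := by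
        refine filter_eq_empty_iff.2 fun F hF hFt => ht ⟨F, ?_, hFt⟩
        exact (mem_filter.1 hF).2.2
      rw [e1, card_empty, Nat.cast_zero]
      positivity
  have s1 := card_eq_sum_card_fiberwise (f := g)
    (s := univ.filter fun F : V → Fin q => PrG X F ∧ Q F) (t := univ)
    (fun _ _ => mem_coe.2 (mem_univ _))
  have s2 := card_eq_sum_card_fiberwise (f := g)
    (s := univ.filter fun F : V → Fin q => PrG X F ∧ R F) (t := univ)
    (fun _ _ => mem_coe.2 (mem_univ _))
  rw [V12b_cG X Q (univ.filter fun F : V → Fin q => PrG X F ∧ Q F)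
      (fun F => by rw [mem_filter]; exact ⟨fun h => h.2, fun h => ⟨mem_univ _, h⟩⟩),
    V12b_cG X R (univ.filter fun F : V → Fin q => PrG X F ∧ R F)
      (fun F => by rw [mem_filter]; exact ⟨fun h => h.2, fun h => ⟨mem_univ _, h⟩⟩), s1, s2]
  push_cast
  rw [mul_sum]
  exact sum_le_sum fun t _ => key t

end Pool.Agent.LC
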