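import Pool.Agent.Lib_MP_2c424f_lc5.Defs5

/-!
# Part V, V13: typical points of a cell

`κ j` is an isomorphism of the box onto the induced subgraph and interior points of the box have no neighbours outside
(`cl`).  `nb_cell`: for `inn 1 u` the neighbours of `κ j u` are the images of the neighbours of `u`.  A neighbour of a point
with `inn (m+1)` has `inn m`.  So `Rv`, `nv` at `κ j u` (for `inn 1 u`) and `Rc · · x v`, `nc · · x v c` at the neighbours `x` of
`v = κ j u` (for `inn 2 u`) are the same for `f` and for `f ∘ κ j` (`κ j` injective).  `par`: `tS` agrees.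
`card_nb_box`: a point of the box has at most two neighbours in every direction.
-/

set_option autoImplicit false

open Finset Filter

namespace Pool.Agent.LC

open Pool.Agent.LO Pool.Agent.LIN Pool.Agent.THR Pool.Agent.COR

theorem card_nb_box {d l : ℕ} (u : BxV d l) : (nb (bG d l) u).card ≤ 2 * d := by
  classical
  have hsub : nb (bG d l) u ⊆ (univ : Finset (Fin d × Bool)).image fun p =>
      Function.update u p.1 (if p.2 then (⟨min ((u p.1).val + 1) l, by omega⟩ : Fin (l + 1))
        else ⟨(u p.1).val - 1, by have := (u p.1).isLt; omega⟩) := by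
    intro x hx
    simp only [nb, mem_filter, mem_univ, true_and] at hx
    obtain ⟨i, h, h'⟩ := hx
    simp only [mem_image, mem_univ, true_and, Prod.exists]
    rcases h' with h' | h'
    · refine ⟨i, true, ?_⟩
      funext j
      by_cases hj : j = i
      · subst hj
        have := (x j).isLt
        rw [Function.update_self]
        apply Fin.ext
        simp only [if_true]
        omega
      · rw [Function.update_of_ne hj, h j hj]
    · refine ⟨i, false, ?_⟩
      funext j
      by_cases hj : j = i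
      · subst hj
        rw [Function.update_self]
        apply Fin.ext
        simp only [Bool.false_eq_true, if_false]
        omega
      · rw [Function.update_of_ne hj, h j hj]
  calc (nb (bG d l) u).card ≤ _ := card_le_card hsub
    _ ≤ (univ : Finset (Fin d × Bool)).card := card_image_le
    _ = 2 * d := by rw [card_univ, Fintype.card_prod, Fintype.card_fin, Fintype.card_bool, mul_comm]

theorem inn_adj {d l m : ℕ} {u u' : BxV d l} (h : (bG d l).Adj u u') (hu : inn (m + 1) u) : inn m u' := by
  obtain ⟨i, h1, h2⟩ := h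
  intro j
  have hj := hu j
  by_cases hji : j = i
  · subst hji
    omega
  · rw [← h1 j hji]
    omega

variable {Λ ι : Type} [Fintype Λ] [DecidableEq Λ] {d l q : ℕ} {G : SimpleGraph Λ} {ev : Λ → Prop} {κ : ι → BxV d l → Λ}

theorem nb_cell (hC : Cells d l G ev κ) (j : ι) {u : BxV d l} (hu : inn 1 u) :
    nb G (κ j u) = (nb (bG d l) u).image (κ j) := by
  ext v
  simp only [nb, mem_filter, mem_univ, true_and, mem_image]
  constructor
  · intro h
    obtain ⟨u', rfl⟩ := hC.cl j u hu v h
    exact ⟨u', (hC.adj j u u').1 h, rfl⟩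
  · rintro ⟨u', h, rfl⟩
    exact (hC.adj j u u').2 h

private theorem V13_all (hC : Cells d l G ev κ) (j : ι) {u : BxV d l} (hu : inn 1 u) (P : Λ → Prop) :
    (∀ y, G.Adj (κ j u) y → P y) ↔ ∀ u', (bG d l).Adj u u' → P (κ j u') := by
  constructor
  · intro h u' hu'
    exact h _ ((hC.adj j u u').2 hu')
  · intro h y hy
    obtain ⟨u', rfl⟩ := hC.cl j u hu y hy
    exact h u' ((hC.adj j u u').1 hy)

private theorem V13_inj (hC : Cells d l G ev κ) (j : ι) : Function.Injective (κ j) :=
  fun _ _ h => (hC.inj j j _ _ h).2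

open scoped Classical in
private theorem V13_card (hC : Cells d l G ev κ) (j : ι) {u : BxV d l} (hu : inn 1 u) (P : Λ → Prop) :
    (univ.filter fun y => G.Adj (κ j u) y ∧ P y).card =
      (univ.filter fun u' => (bG d l).Adj u u' ∧ P (κ j u')).card := by
  rw [← card_image_of_injective (univ.filter fun u' => (bG d l).Adj u u' ∧ P (κ j u')) (V13_inj hC j)]
  congr 1
  ext v
  simp only [mem_filter, mem_univ, true_and, mem_image]
  constructor
  · rintro ⟨h, hP⟩
    obtain ⟨u', rfl⟩ := hC.cl j u hu v h
    exact ⟨u', ⟨(hC.adj j u u').1 h, hP⟩, rfl⟩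
  · rintro ⟨u', ⟨h, hP⟩, rfl⟩
    exact ⟨(hC.adj j u u').2 h, hP⟩

private theorem V13_nc (hC : Cells d l G ev κ) (f : Λ → Fin q) (j : ι) {x : BxV d l} (hx : inn 1 x) (u : BxV d l)
    (c : Fin q) : nc G f (κ j x) (κ j u) c = nc (bG d l) (fun w => f (κ j w)) x u c := by
  classical
  have h := V13_card hC j hx (fun y => y ≠ κ j u ∧ f y = c)
  unfold nc
  convert h using 3
  constructor
  · rintro ⟨h1, h2, h3⟩
    exact ⟨h1, fun h => h2 (V13_inj hC j h), h3⟩
  · rintro ⟨h1, h2, h3⟩
    exact ⟨h1, fun h => h2 (h ▸ rfl), h3⟩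

private theorem V13_nv (hC : Cells d l G ev κ) (f : Λ → Fin q) (j : ι) {u : BxV d l} (hu : inn 1 u)
    (c : Fin q) : nv G f (κ j u) c = nv (bG d l) (fun w => f (κ j w)) u c := by
  classical
  have h := V13_card hC j hu (fun y => f y = c)
  unfold nv
  convert h using 3

private theorem V13_Rc (hC : Cells d l G ev κ) (f : Λ → Fin q) (j : ι) {x : BxV d l} (hx : inn 1 x) (u : BxV d l) :
    Rc G f (κ j x) (κ j u) = Rc (bG d l) (fun w => f (κ j w)) x u := by
  classical
  ext c
  simp only [Rc, mem_filter, mem_univ, true_and]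
  rw [V13_all hC j hx (fun y => y ≠ κ j u → f y ≠ c)]
  constructor
  · intro h x' h1 h2
    exact h x' h1 fun h3 => h2 (V13_inj hC j h3)
  · intro h x' h1 h2
    exact h x' h1 fun h3 => h2 (h3 ▸ rfl)

private theorem V13_Rv (hC : Cells d l G ev κ) (f : Λ → Fin q) (j : ι) {u : BxV d l} (hu : inn 1 u) :
    Rv G f (κ j u) = Rv (bG d l) (fun w => f (κ j w)) u := by
  classical
  ext c
  simp only [Rv, mem_filter, mem_univ, true_and]
  exact V13_all hC j hu (fun y => f y ≠ c)

private theorem V13_tS (hC : Cells d l G ev κ) (A : Finset (Fin q)) (j : ι) (u : BxV d l) (c : Fin q) :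
    tS ev A (κ j u) c ↔ tS bev A u c := by
  unfold tS
  rw [hC.par j u]

private theorem V13_sum (hC : Cells d l G ev κ) (j : ι) {u : BxV d l} (hu : inn 1 u) (g : Λ → ℝ) :
    ∑ x ∈ nb G (κ j u), g x = ∑ x ∈ nb (bG d l) u, g (κ j x) := by
  classical
  rw [nb_cell hC j hu, sum_image]
  intro a _ b _ h
  exact V13_inj hC j h

theorem TyO_cell (hC : Cells d l G ev κ) (A : Finset (Fin q)) (f : Λ → Fin q) (j : ι) {u : BxV d l} (hu : inn 2 u) :
    TyO d G ev A f (κ j u) ↔ TyO d (bG d l) bev A (fun w => f (κ j w)) u := by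
  classical
  have hu1 : inn 1 u := fun i => by have := hu i; omega
  have hx : ∀ x ∈ nb (bG d l) u, inn 1 x := by
    intro x hx
    simp only [nb, mem_filter, mem_univ, true_and] at hx
    exact inn_adj hx hu
  have k1 : ∀ c, ((nb G (κ j u)).filter fun x => c ∈ Rc G f x (κ j u)).card =
      ((nb (bG d l) u).filter fun x => c ∈ Rc (bG d l) (fun w => f (κ j w)) x u).card := by
    intro c
    rw [← card_image_of_injective _ (V13_inj hC j)]
    congr 1
    ext v
    rw [nb_cell hC j hu1]
    simp only [mem_filter, mem_image]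
    constructor
    · rintro ⟨⟨x, h1, rfl⟩, h2⟩
      rw [V13_Rc hC f j (hx x h1) u] at h2
      exact ⟨x, ⟨h1, h2⟩, rfl⟩
    · rintro ⟨x, ⟨h1, h2⟩, rfl⟩
      refine ⟨⟨x, h1, rfl⟩, ?_⟩
      rw [V13_Rc hC f j (hx x h1) u]
      exact h2
  have k2 : ∀ c, ∑ x ∈ nb G (κ j u), (nc G f x (κ j u) c : ℝ) ^ 2 =
      ∑ x ∈ nb (bG d l) u, (nc (bG d l) (fun w => f (κ j w)) x u c : ℝ) ^ 2 := by
    intro c
    rw [V13_sum hC j hu1]
    exact sum_congr rfl fun x h => by rw [V13_nc hC f j (hx x h) u c]
  have k3 : ∀ c, ∑ x ∈ nb G (κ j u), (nc G f x (κ j u) c : ℝ) =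
      ∑ x ∈ nb (bG d l) u, (nc (bG d l) (fun w => f (κ j w)) x u c : ℝ) := by
    intro c
    rw [V13_sum hC j hu1]
    exact sum_congr rfl fun x h => by rw [V13_nc hC f j (hx x h) u c]
  constructor
  · intro h
    refine ⟨fun c hc => ?_, fun c => ?_, fun c hc => ?_⟩
    · have := h.o1 c ((V13_tS hC A j u c).2 hc)
      rw [k1 c] at this
      exact this
    · rw [← k2 c]
      exact h.o2 c
    · rw [← k3 c]
      exact h.o3 c fun h' => hc ((V13_tS hC A j u c).1 h')
  · intro h
    refine ⟨fun c hc => ?_, fun c => ?_, fun c hc => ?_⟩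
    · have := h.o1 c ((V13_tS hC A j u c).1 hc)
      rw [← k1 c] at this
      exact this
    · rw [k2 c]
      exact h.o2 c
    · rw [k3 c]
      exact h.o3 c fun h' => hc ((V13_tS hC A j u c).2 h')

theorem TyE_cell (hC : Cells d l G ev κ) (A : Finset (Fin q)) (f : Λ → Fin q) (j : ι) {u : BxV d l} (hu : inn 1 u) :
    TyE d G ev A f (κ j u) ↔ TyE d (bG d l) bev A (fun w => f (κ j w)) u := by
  classical
  have k2 : ((Rv G f (κ j u)).filter fun c => ¬ tS ev A (κ j u) c) =
      ((Rv (bG d l) (fun w => f (κ j w)) u).filter fun c => ¬ tS bev A u c) := by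
    rw [V13_Rv hC f j hu]
    apply filter_congr
    intro c _
    rw [V13_tS hC A j u c]
  have k4 : (univ.filter fun c => tS ev A (κ j u) c) = univ.filter fun c => tS bev A u c := by
    apply filter_congr
    intro c _
    rw [V13_tS hC A j u c]
  constructor
  · intro h
    refine ⟨?_, ?_, ?_, ?_⟩
    · rw [← V13_Rv hC f j hu]
      exact h.e1
    · rw [← k2]
      exact h.e2
    · have := h.e3
      simp only [V13_nv hC f j hu] at this
      exact this
    · have := h.e4
      simp only [V13_nv hC f j hu] at this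
      rw [k4] at this
      exact this
  · intro h
    refine ⟨?_, ?_, ?_, ?_⟩
    · rw [V13_Rv hC f j hu]
      exact h.e1
    · rw [k2]
      exact h.e2
    · simp only [V13_nv hC f j hu]
      exact h.e3
    · simp only [V13_nv hC f j hu]
      rw [k4]
      exact h.e4

end Pool.Agent.LC
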