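import Pool.Agent.Lib_MP_2c424f_lc5.Defs5

/-!
# Part V, V14: representations of the points of a box, atypical points of one box

`reps_le`: a point `z` with `inn 1 z` (`1 ≤ z i ≤ l - 1`, `l` even) has at least (exactly) `2^d` representations `z = bpt t a b`: in every
coordinate two: `z i = 2 s`: `(s, 0, 0)` and `(s - 1, 1, 1)`; `z i = 2 s + 1`: `(s, 1, 0)` and `(s, 0, 1)`.
`cell_atyp`: apply it to `P z := inn 3 z ∧ ¬ Ty d (bG d l) bev A f z`; a triple `(t, a, b)` with `P (bpt t a b)` for which
`GDP (pattern of t)` and `ALP (pattern of t) = A` is counted in the first set on the right (`GDP` contains `G0P`); the others: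
at most `4^d` triples for each `t`.
-/

set_option autoImplicit false

open Finset Filter

namespace Pool.Agent.LC

open Pool.Agent.LO Pool.Agent.LIN Pool.Agent.THR Pool.Agent.COR

open scoped Classical in
theorem reps_le {d l : ℕ} (hl : Even l) (P : BxV d l → Prop) :
    2 ^ d * ((univ.filter fun z : BxV d l => inn 1 z ∧ P z).card : ℝ) ≤
      ((univ.filter fun p : (Fin d → Fin (l / 2)) × Bt d × Bt d => P (bpt p.1 p.2.1 p.2.2)).card : ℝ) := by
  have hl2 : 2 * (l / 2) = l := by
    obtain ⟨m, hm⟩ := hl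
    omega
  set S : Finset (BxV d l) := univ.filter fun z : BxV d l => inn 1 z ∧ P z with hS
  set T : Finset ((Fin d → Fin (l / 2)) × Bt d × Bt d) :=
    univ.filter fun p : (Fin d → Fin (l / 2)) × Bt d × Bt d => P (bpt p.1 p.2.1 p.2.2) with hT
  have hcardBt : (univ : Finset (Bt d)).card = 2 ^ d := by
    rw [Finset.card_univ]
    simp [Bt]
  rcases Nat.eq_zero_or_pos (l / 2) with h0 | hpos
  · -- `l = 0`
    have hl0 : l = 0 := by omega
    by_cases hd : d = 0
    · subst hd
      have h1 : S.card ≤ T.card := by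
        refine Finset.card_le_card_of_injOn (fun z => (fun i => i.elim0, fun i => i.elim0,
          fun i => i.elim0)) ?_ ?_
        · intro z hz
          rw [Finset.mem_coe, hS, Finset.mem_filter] at hz
          rw [Finset.mem_coe, hT, Finset.mem_filter]
          refine ⟨Finset.mem_univ _, ?_⟩
          have : z = bpt (fun i => i.elim0) (fun i => i.elim0) (fun i => i.elim0) :=
            funext fun i => i.elim0
          rw [← this]
          exact hz.2.2
        · intro z _ z' _ _
          exact funext fun i => i.elim0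
      have h2 : (S.card : ℝ) ≤ T.card := by exact_mod_cast h1
      simpa using h2
    · have h1 : S = ∅ := by
        rw [hS, Finset.filter_eq_empty_iff]
        intro z _ hz
        have := hz.1 ⟨0, by omega⟩
        omega
      rw [h1]
      simp
  · have hb : ∀ c : Bool, b01 c ≤ 1 := fun c => by
      unfold b01
      split_ifs <;> omega
    have key : (S ×ˢ (univ : Finset (Bt d))).card ≤ T.card := by
      refine Finset.card_le_card_of_injOn (fun zb => (fun i =>
        (⟨min ((((zb.1 i).val - b01 (zb.2 i)) / 2)) (l / 2 - 1), by omega⟩ : Fin (l / 2)),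
        fun i => decide (((zb.1 i).val - b01 (zb.2 i)) % 2 = 1), zb.2)) ?_ ?_
      · rintro ⟨z, b⟩ hz
        rw [Finset.mem_coe, Finset.mem_product, hS, Finset.mem_filter] at hz
        obtain ⟨⟨-, hz1, hz2⟩, -⟩ := hz
        rw [Finset.mem_coe, hT, Finset.mem_filter]
        refine ⟨Finset.mem_univ _, ?_⟩
        have : z = bpt (fun i =>
            (⟨min ((((z i).val - b01 (b i)) / 2)) (l / 2 - 1), by omega⟩ : Fin (l / 2)))
            (fun i => decide (((z i).val - b01 (b i)) % 2 = 1)) b := by
          funext i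
          apply Fin.ext
          show (z i).val = 2 * min (((z i).val - b01 (b i)) / 2) (l / 2 - 1) +
            b01 (decide (((z i).val - b01 (b i)) % 2 = 1)) + b01 (b i)
          have h1 : 1 ≤ (z i).val ∧ (z i).val + 1 ≤ l := hz1 i
          have h2 := hb (b i)
          have h3 : b01 (decide (((z i).val - b01 (b i)) % 2 = 1)) =
              ((z i).val - b01 (b i)) % 2 := by
            unfold b01
            by_cases h : ((z i).val - (if b i then 1 else 0)) % 2 = 1
            · simp [h]
            · have h' : ((z i).val - (if b i then 1 else 0)) % 2 = 0 := by omega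
              simp [h']
          rw [h3, min_eq_left (by omega)]
          omega
        rw [← this]
        exact hz2
      · rintro ⟨z, b⟩ hz ⟨z', b'⟩ hz' h
        rw [Finset.mem_coe, Finset.mem_product, hS, Finset.mem_filter] at hz hz'
        obtain ⟨⟨-, hz1, -⟩, -⟩ := hz
        obtain ⟨⟨-, hz1', -⟩, -⟩ := hz'
        simp only [Prod.mk.injEq] at h
        obtain ⟨h1, h2, h3⟩ := h
        subst h3
        refine Prod.ext (funext fun i => Fin.ext ?_) rfl
        have e1 := congrFun h1 i
        have e2 := congrFun h2 i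
        rw [Fin.mk.injEq] at e1
        have e1' : min (((z i).val - b01 (b i)) / 2) (l / 2 - 1) =
            min (((z' i).val - b01 (b i)) / 2) (l / 2 - 1) := e1
        have e3 : (((z i).val - b01 (b i)) % 2 = 1) ↔ (((z' i).val - b01 (b i)) % 2 = 1) := by
          simpa using e2
        have h4 : 1 ≤ (z i).val ∧ (z i).val + 1 ≤ l := hz1 i
        have h5 : 1 ≤ (z' i).val ∧ (z' i).val + 1 ≤ l := hz1' i
        have h6 := hb (b i)
        show (z i).val = (z' i).val
        rw [min_eq_left (by omega), min_eq_left (by omega)] at e1'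
        omega
    rw [Finset.card_product, hcardBt] at key
    have : ((S.card * 2 ^ d : ℕ) : ℝ) ≤ T.card := by exact_mod_cast key
    push_cast at this
    linarith

open scoped Classical in
theorem cell_atyp {d l q : ℕ} (hl : Even l) (f : BxV d l → Fin q) (A : Finset (Fin q)) :
    2 ^ d * ((univ.filter fun z : BxV d l => inn 3 z ∧ ¬ Ty d (bG d l) bev A f z).card : ℝ) ≤
      ((univ.filter fun p : (Fin d → Fin (l / 2)) × Bt d × Bt d => inn 3 (bpt p.1 p.2.1 p.2.2) ∧
        G0P (fun a b => f (bpt p.1 a b)) ∧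
        ¬ Ty d (bG d l) bev (ALP (fun a b => f (bpt p.1 a b))) f (bpt p.1 p.2.1 p.2.2)).card : ℝ) +
      4 ^ d * ((univ.filter fun t : Fin d → Fin (l / 2) => ¬ (GDP (fun a b => f (bpt t a b)) ∧
        ALP (fun a b => f (bpt t a b)) = A)).card : ℝ) := by
  have h1 : 2 ^ d * ((univ.filter fun z : BxV d l =>
      inn 1 z ∧ (inn 3 z ∧ ¬ Ty d (bG d l) bev A f z)).card : ℝ) ≤
      ((univ.filter fun p : (Fin d → Fin (l / 2)) × Bt d × Bt d =>
        inn 3 (bpt p.1 p.2.1 p.2.2) ∧
          ¬ Ty d (bG d l) bev A f (bpt p.1 p.2.1 p.2.2)).card : ℝ) := by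
    convert reps_le hl (fun z : BxV d l => inn 3 z ∧ ¬ Ty d (bG d l) bev A f z)
  have h2 : ((univ.filter fun z : BxV d l => inn 3 z ∧ ¬ Ty d (bG d l) bev A f z).card : ℝ) ≤
      ((univ.filter fun z : BxV d l => inn 1 z ∧ (inn 3 z ∧ ¬ Ty d (bG d l) bev A f z)).card : ℝ) := by
    have : (univ.filter fun z : BxV d l => inn 3 z ∧ ¬ Ty d (bG d l) bev A f z) ⊆
        (univ.filter fun z : BxV d l => inn 1 z ∧ (inn 3 z ∧ ¬ Ty d (bG d l) bev A f z)) := by
      intro z hz
      rw [Finset.mem_filter] at hz ⊢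
      refine ⟨hz.1, fun i => ?_, hz.2⟩
      have := hz.2.1 i
      omega
    exact_mod_cast Finset.card_le_card this
  set B : Finset (Fin d → Fin (l / 2)) := univ.filter fun t : Fin d → Fin (l / 2) =>
    ¬ (GDP (fun a b => f (bpt t a b)) ∧ ALP (fun a b => f (bpt t a b)) = A) with hB
  set F : Finset ((Fin d → Fin (l / 2)) × Bt d × Bt d) :=
    univ.filter fun p : (Fin d → Fin (l / 2)) × Bt d × Bt d => inn 3 (bpt p.1 p.2.1 p.2.2) ∧
        G0P (fun a b => f (bpt p.1 a b)) ∧
        ¬ Ty d (bG d l) bev (ALP (fun a b => f (bpt p.1 a b))) f (bpt p.1 p.2.1 p.2.2) with hF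
  have h3 : (univ.filter fun p : (Fin d → Fin (l / 2)) × Bt d × Bt d =>
      inn 3 (bpt p.1 p.2.1 p.2.2) ∧ ¬ Ty d (bG d l) bev A f (bpt p.1 p.2.1 p.2.2)) ⊆
      F ∪ B ×ˢ (univ : Finset (Bt d × Bt d)) := by
    intro p hp
    rw [Finset.mem_filter] at hp
    rw [Finset.mem_union]
    by_cases hg : GDP (fun a b => f (bpt p.1 a b)) ∧ ALP (fun a b => f (bpt p.1 a b)) = A
    · left
      rw [hF, Finset.mem_filter]
      refine ⟨Finset.mem_univ _, hp.2.1, hg.1.1, ?_⟩
      rw [hg.2]
      exact hp.2.2
    · right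
      rw [Finset.mem_product]
      refine ⟨?_, Finset.mem_univ _⟩
      rw [hB, Finset.mem_filter]
      exact ⟨Finset.mem_univ _, hg⟩
  have h4 : (univ : Finset (Bt d × Bt d)).card = 4 ^ d := by
    rw [Finset.card_univ, Fintype.card_prod]
    have : Fintype.card (Bt d) = 2 ^ d := by simp [Bt]
    rw [this, ← mul_pow]
    norm_num
  have h5 := (Finset.card_le_card h3).trans (Finset.card_union_le _ _)
  rw [Finset.card_product, h4] at h5
  have h6 : ((univ.filter fun p : (Fin d → Fin (l / 2)) × Bt d × Bt d =>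
      inn 3 (bpt p.1 p.2.1 p.2.2) ∧ ¬ Ty d (bG d l) bev A f (bpt p.1 p.2.1 p.2.2)).card : ℝ) ≤
      F.card + B.card * 4 ^ d := by exact_mod_cast h5
  have h7 : (0 : ℝ) ≤ 2 ^ d := by positivity
  have h8 := mul_le_mul_of_nonneg_left h2 h7
  linarith

end Pool.Agent.LC
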