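import Pool.Agent.Lib_MP_2c424f_lc5.V13

/-!
# Part V, V15: the number of points which are not certified

Points of `At`: (a) outside all cells: `|Λ| - |ι| (l+1)^d` (`Cells.inj`);  (b) `κ j z` with `¬ inn 4 z`: at most
`8 d (l+1)^{d-1}` for each `j` (some coordinate is in `{0,1,2,3} ∪ {l-3,..,l}`);  (c) `y = κ j z` odd with `inn 4 z`, not `cert`:
the degree conditions hold (`nb_cell`, `card_nb_box`), so `TyO` fails at `y` for `Φ` or `Ψ`, or `TyE` fails for `Φ` or `Ψ` at a neighbour
`x = κ j z'`, `(bG d l).Adj z z'`, `inn 3 z'`.  By `TyO_cell`, `TyE_cell` one of `z`, `z'` is in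
`E_j(Φ) := {z : inn 3 z ∧ ¬ Ty d (bG d l) bev A (Φ ∘ κ j) z}` or in `E_j(Ψ)`; each element of these sets serves at most `2d + 1` points `z`.
-/

set_option autoImplicit false

open Finset Filter

namespace Pool.Agent.LC

open Pool.Agent.LO Pool.Agent.LIN Pool.Agent.THR Pool.Agent.COR

theorem V15_inn_mono {d l m m' : ℕ} (h : m' ≤ m) {u : BxV d l} (hu : inn m u) : inn m' u := fun i => by
  have := hu i
  omega

open scoped Classical in
theorem V15_slab {d l : ℕ} (i : Fin d) (B : Finset (Fin (l + 1))) :
    (univ.filter fun z : BxV d l => z i ∈ B).card = B.card * (l + 1) ^ (d - 1) := by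
  have h1 : (univ.filter fun z : BxV d l => z i ∈ B) =
      Fintype.piFinset (fun j : Fin d => if j = i then B else univ) := by
    ext z
    rw [Finset.mem_filter, Fintype.mem_piFinset]
    constructor
    · rintro ⟨_, hz⟩ j
      by_cases hj : j = i
      · subst hj
        rw [if_pos rfl]
        exact hz
      · rw [if_neg hj]
        exact Finset.mem_univ _
    · intro h
      have := h i
      rw [if_pos rfl] at this
      exact ⟨Finset.mem_univ _, this⟩
  rw [h1, Fintype.card_piFinset, ← Finset.mul_prod_erase univ _ (Finset.mem_univ i), if_pos rfl]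
  congr 1
  have h2 : ∀ j ∈ (univ : Finset (Fin d)).erase i, (if j = i then B else univ).card = l + 1 := by
    intro j hj
    rw [if_neg (Finset.ne_of_mem_erase hj), Finset.card_univ, Fintype.card_fin]
  rw [Finset.prod_congr rfl h2, Finset.prod_const, Finset.card_erase_of_mem (Finset.mem_univ i), Finset.card_univ,
    Fintype.card_fin]

open scoped Classical in
theorem V15_B {l : ℕ} : (univ.filter fun v : Fin (l + 1) => v.val < 4 ∨ l < v.val + 4).card ≤ 8 := by
  have h1 : (univ.filter fun v : Fin (l + 1) => v.val < 4 ∨ l < v.val + 4) ⊆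
      (univ.filter fun v : Fin (l + 1) => v.val < 4) ∪ (univ.filter fun v : Fin (l + 1) => l < v.val + 4) := by
    intro v hv
    rw [Finset.mem_filter] at hv
    rw [Finset.mem_union, Finset.mem_filter, Finset.mem_filter]
    rcases hv.2 with h | h
    · exact Or.inl ⟨Finset.mem_univ _, h⟩
    · exact Or.inr ⟨Finset.mem_univ _, h⟩
  have h2 : (univ.filter fun v : Fin (l + 1) => v.val < 4).card ≤ (range 4).card := by
    refine Finset.card_le_card_of_injOn (fun v => v.val) ?_ ?_
    · intro v hv
      have := (Finset.mem_filter.1 (Finset.mem_coe.1 hv)).2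
      exact Finset.mem_coe.2 (Finset.mem_range.2 this)
    · intro v _ w _ h
      exact Fin.ext h
  have h3 : (univ.filter fun v : Fin (l + 1) => l < v.val + 4).card ≤ (range 4).card := by
    refine Finset.card_le_card_of_injOn (fun v => l - v.val) ?_ ?_
    · intro v hv
      have := (Finset.mem_filter.1 (Finset.mem_coe.1 hv)).2
      refine Finset.mem_coe.2 (Finset.mem_range.2 ?_)
      show l - v.val < 4
      omega
    · intro v _ w _ h
      have hv := v.isLt
      have hw := w.isLt
      have h' : l - v.val = l - w.val := h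
      exact Fin.ext (by omega)
  rw [Finset.card_range] at h2 h3
  calc _ ≤ _ := Finset.card_le_card h1
    _ ≤ _ := Finset.card_union_le _ _
    _ ≤ 8 := by omega

open scoped Classical in
theorem V15_bd {d l : ℕ} : (univ.filter fun z : BxV d l => ¬ inn 4 z).card ≤ 8 * d * (l + 1) ^ (d - 1) := by
  have h1 : (univ.filter fun z : BxV d l => ¬ inn 4 z) ⊆
      univ.biUnion fun i : Fin d => univ.filter fun z : BxV d l =>
        z i ∈ (univ.filter fun v : Fin (l + 1) => v.val < 4 ∨ l < v.val + 4) := by
    intro z hz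
    rw [Finset.mem_filter] at hz
    have h := hz.2
    unfold inn at h
    push Not at h
    obtain ⟨i, hi⟩ := h
    rw [Finset.mem_biUnion]
    refine ⟨i, Finset.mem_univ _, ?_⟩
    rw [Finset.mem_filter, Finset.mem_filter]
    refine ⟨Finset.mem_univ _, Finset.mem_univ _, ?_⟩
    by_cases h4 : 4 ≤ (z i).val
    · exact Or.inr (hi h4)
    · exact Or.inl (by omega)
  calc _ ≤ _ := Finset.card_le_card h1
    _ ≤ _ := Finset.card_biUnion_le
    _ = ∑ i : Fin d, (univ.filter fun v : Fin (l + 1) => v.val < 4 ∨ l < v.val + 4).card * (l + 1) ^ (d - 1) :=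
        Finset.sum_congr rfl fun i _ => V15_slab i _
    _ = d * ((univ.filter fun v : Fin (l + 1) => v.val < 4 ∨ l < v.val + 4).card * (l + 1) ^ (d - 1)) := by
        rw [Finset.sum_const, Finset.card_univ, Fintype.card_fin, smul_eq_mul]
    _ ≤ d * (8 * (l + 1) ^ (d - 1)) := by
        gcongr
        exact V15_B
    _ = 8 * d * (l + 1) ^ (d - 1) := by ring

open scoped Classical in
theorem V15_nbs {d l : ℕ} (E : Finset (BxV d l)) :
    (E.biUnion fun z' => insert z' (nb (bG d l) z')).card ≤ (2 * d + 1) * E.card := by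
  calc _ ≤ _ := Finset.card_biUnion_le
    _ ≤ ∑ _z' ∈ E, (2 * d + 1) := by
        refine Finset.sum_le_sum fun z' _ => ?_
        refine (Finset.card_insert_le _ _).trans ?_
        have := card_nb_box z'
        omega
    _ = (2 * d + 1) * E.card := by rw [Finset.sum_const, smul_eq_mul, mul_comm]

open scoped Classical in
theorem At_le {Λ ι : Type} [Fintype Λ] [DecidableEq Λ] [Fintype ι] {d l q : ℕ} {G : SimpleGraph Λ} {ev : Λ → Prop}
    {κ : ι → BxV d l → Λ} (hC : Cells d l G ev κ) (A : Finset (Fin q)) (Φ Ψ : Λ → Fin q) :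
    ((At d G ev A Φ Ψ).card : ℝ) ≤
      ((Fintype.card Λ : ℝ) - Fintype.card ι * ((l : ℝ) + 1) ^ d) +
      Fintype.card ι * (8 * d * ((l : ℝ) + 1) ^ (d - 1)) +
      (2 * d + 1) * ∑ j : ι,
        (((univ.filter fun z : BxV d l => inn 3 z ∧ ¬ Ty d (bG d l) bev A (fun w => Φ (κ j w)) z).card : ℝ) +
          ((univ.filter fun z : BxV d l => inn 3 z ∧ ¬ Ty d (bG d l) bev A (fun w => Ψ (κ j w)) z).card : ℝ)) := by
  set EΦ : ι → Finset (BxV d l) := fun j =>
    univ.filter fun z : BxV d l => inn 3 z ∧ ¬ Ty d (bG d l) bev A (fun w => Φ (κ j w)) z with hEΦ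
  set EΨ : ι → Finset (BxV d l) := fun j =>
    univ.filter fun z : BxV d l => inn 3 z ∧ ¬ Ty d (bG d l) bev A (fun w => Ψ (κ j w)) z with hEΨ
  set I : Finset Λ := (univ : Finset (ι × BxV d l)).image fun p => κ p.1 p.2 with hI
  have hIc : I.card = Fintype.card ι * (l + 1) ^ d := by
    rw [hI, Finset.card_image_of_injective, Finset.card_univ, Fintype.card_prod]
    · congr 1
      show Fintype.card (Fin d → Fin (l + 1)) = _
      rw [Fintype.card_fun, Fintype.card_fin, Fintype.card_fin]
    · rintro ⟨j, u⟩ ⟨j', u'⟩ h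
      obtain ⟨h1, h2⟩ := hC.inj j j' u u' h
      subst h1 h2
      rfl
  have hcov : At d G ev A Φ Ψ ⊆ (Iᶜ ∪ (univ : Finset ι).biUnion fun j =>
      ((univ.filter fun z : BxV d l => ¬ inn 4 z).image (κ j))) ∪ (univ : Finset ι).biUnion fun j =>
      (((EΦ j).biUnion fun z' => insert z' (nb (bG d l) z')) ∪
        ((EΨ j).biUnion fun z' => insert z' (nb (bG d l) z'))).image (κ j) := by
    intro y hy
    rw [At, Finset.mem_filter] at hy
    obtain ⟨_, hodd, hcert⟩ := hy
    by_cases hyI : y ∈ I
    · rw [hI, Finset.mem_image] at hyI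
      obtain ⟨⟨j, z⟩, _, rfl⟩ := hyI
      by_cases h4 : inn 4 z
      · refine Finset.mem_union_right _ (Finset.mem_biUnion.2 ⟨j, Finset.mem_univ _, ?_⟩)
        refine Finset.mem_image_of_mem _ ?_
        by_contra hno
        apply hcert
        have hno' : ∀ z' : BxV d l, (z = z' ∨ (bG d l).Adj z' z) → z' ∉ EΦ j ∧ z' ∉ EΨ j := by
          intro z' hz'
          have hmem : z ∈ insert z' (nb (bG d l) z') := by
            rw [Finset.mem_insert, nb, Finset.mem_filter]
            exact hz'.imp id fun h => ⟨Finset.mem_univ _, h⟩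
          constructor
          · intro h
            exact hno (Finset.mem_union_left _ (Finset.mem_biUnion.2 ⟨z', h, hmem⟩))
          · intro h
            exact hno (Finset.mem_union_right _ (Finset.mem_biUnion.2 ⟨z', h, hmem⟩))
        have hTy : ∀ z' : BxV d l, (z = z' ∨ (bG d l).Adj z' z) → inn 3 z' →
            Ty d (bG d l) bev A (fun w => Φ (κ j w)) z' ∧ Ty d (bG d l) bev A (fun w => Ψ (κ j w)) z' := by
          intro z' hz' h3
          obtain ⟨ha, hb⟩ := hno' z' hz'
          constructor
          · by_contra hn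
            exact ha (Finset.mem_filter.2 ⟨Finset.mem_univ _, h3, hn⟩)
          · by_contra hn
            exact hb (Finset.mem_filter.2 ⟨Finset.mem_univ _, h3, hn⟩)
        have hcard : ∀ z' : BxV d l, inn 1 z' → (nb G (κ j z')).card ≤ 2 * d := by
          intro z' h1
          rw [nb_cell hC j h1]
          exact Finset.card_image_le.trans (card_nb_box z')
        have h3 : inn 3 z := V15_inn_mono (by norm_num) h4
        have h2 : inn 2 z := V15_inn_mono (by norm_num) h4
        have h1 : inn 1 z := V15_inn_mono (by norm_num) h4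
        obtain ⟨hTΦ, hTΨ⟩ := hTy z (Or.inl rfl) h3
        refine ⟨⟨(TyO_cell hC A Φ j h2).2 hTΦ.1, (TyO_cell hC A Ψ j h2).2 hTΨ.1, hcard z h1⟩, ?_⟩
        intro x hx
        rw [nb_cell hC j h1, Finset.mem_image] at hx
        obtain ⟨z', hz', rfl⟩ := hx
        rw [nb, Finset.mem_filter] at hz'
        have hz3 : inn 3 z' := inn_adj hz'.2 h4
        have hz1 : inn 1 z' := V15_inn_mono (by norm_num) hz3
        obtain ⟨hTΦ', hTΨ'⟩ := hTy z' (Or.inr hz'.2.symm) hz3
        exact ⟨(TyE_cell hC A Φ j hz1).2 hTΦ'.2, (TyE_cell hC A Ψ j hz1).2 hTΨ'.2, hcard z' hz1⟩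
      · refine Finset.mem_union_left _ (Finset.mem_union_right _ (Finset.mem_biUnion.2 ⟨j, Finset.mem_univ _, ?_⟩))
        exact Finset.mem_image_of_mem _ (Finset.mem_filter.2 ⟨Finset.mem_univ _, h4⟩)
    · exact Finset.mem_union_left _ (Finset.mem_union_left _ (Finset.mem_compl.2 hyI))
  have hc1 : ((Iᶜ).card : ℝ) = (Fintype.card Λ : ℝ) - Fintype.card ι * ((l : ℝ) + 1) ^ d := by
    have h := Finset.card_add_card_compl I
    have h' : ((Iᶜ).card : ℝ) = (Fintype.card Λ : ℝ) - (I.card : ℝ) := by
      rw [← h]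
      push_cast
      ring
    rw [h', hIc]
    push_cast
    ring
  have hc2 : (((univ : Finset ι).biUnion fun j =>
      ((univ.filter fun z : BxV d l => ¬ inn 4 z).image (κ j))).card : ℝ) ≤
      Fintype.card ι * (8 * d * ((l : ℝ) + 1) ^ (d - 1)) := by
    have h : ((univ : Finset ι).biUnion fun j =>
        ((univ.filter fun z : BxV d l => ¬ inn 4 z).image (κ j))).card ≤
        Fintype.card ι * (8 * d * (l + 1) ^ (d - 1)) := by
      calc _ ≤ _ := Finset.card_biUnion_le
        _ ≤ ∑ _j : ι, 8 * d * (l + 1) ^ (d - 1) := by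
            refine Finset.sum_le_sum fun j _ => ?_
            exact Finset.card_image_le.trans V15_bd
        _ = _ := by rw [Finset.sum_const, Finset.card_univ, smul_eq_mul]
    exact_mod_cast h
  have hc3 : (((univ : Finset ι).biUnion fun j =>
      (((EΦ j).biUnion fun z' => insert z' (nb (bG d l) z')) ∪
        ((EΨ j).biUnion fun z' => insert z' (nb (bG d l) z'))).image (κ j)).card : ℝ) ≤
      (2 * d + 1) * ∑ j : ι, (((EΦ j).card : ℝ) + ((EΨ j).card : ℝ)) := by
    have h : ((univ : Finset ι).biUnion fun j =>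
        (((EΦ j).biUnion fun z' => insert z' (nb (bG d l) z')) ∪
          ((EΨ j).biUnion fun z' => insert z' (nb (bG d l) z'))).image (κ j)).card ≤
        (2 * d + 1) * ∑ j : ι, ((EΦ j).card + (EΨ j).card) := by
      calc _ ≤ _ := Finset.card_biUnion_le
        _ ≤ ∑ j : ι, (2 * d + 1) * ((EΦ j).card + (EΨ j).card) := by
            refine Finset.sum_le_sum fun j _ => ?_
            refine Finset.card_image_le.trans ((Finset.card_union_le _ _).trans ?_)
            rw [mul_add]
            exact add_le_add (V15_nbs _) (V15_nbs _)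
        _ = _ := by rw [Finset.mul_sum]
    exact_mod_cast h
  have hfin : ((At d G ev A Φ Ψ).card : ℝ) ≤ ((Iᶜ).card : ℝ) + (((univ : Finset ι).biUnion fun j =>
      ((univ.filter fun z : BxV d l => ¬ inn 4 z).image (κ j))).card : ℝ) + (((univ : Finset ι).biUnion fun j =>
      (((EΦ j).biUnion fun z' => insert z' (nb (bG d l) z')) ∪
        ((EΨ j).biUnion fun z' => insert z' (nb (bG d l) z'))).image (κ j)).card : ℝ) := by
    have h := (Finset.card_le_card hcov).trans
      ((Finset.card_union_le _ _).trans (Nat.add_le_add_right (Finset.card_union_le _ _) _))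
    exact_mod_cast h
  rw [hc1] at hfin
  linarith

end Pool.Agent.LC
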