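import Pool.Agent.Lib_MP_2c424f_lc5.V04
import Pool.Agent.Lib_MP_2c424f_lc5.V14
import Pool.Agent.Lib_MP_2c424f_lc5.V15

/-!
# Part V, V16: cells in both copies; bound of `At` for an aligned colouring

`cells2`: the maps `(j, b), u ↦ i b (κ j u)` are cells of `X`: injectivity from `Layer.inj` and `Cells.inj`; `adj` from
`Layer.adj`; `cl`: the level of `κ j u` is in `1..h-2`, so a neighbour `v` of `i b (κ j u)` is in the layer (`out`), in the same copy and
`G`-adjacent (`adj`), hence in the cell (`Cells.cl`); `par` from `Layer.par`.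

`At_bound`: let `n = |ι|`, `N = 2 n (l/2)^d` the number of blocks.  Assume that at most `r` of the `2n` cells `(j, b)` have `EvB K'` and
that at most `τ N` of the blocks `(j, b, t)` do not satisfy `GDP ∧ ALP = A`.  `At_le`; the sum over the cells: a cell with `EvB` has at
most `(l+1)^d` points; for a cell without `EvB`, `cell_atyp` and the second part of `¬ EvB`:
`2^d #{...} ≤ 4^d (l/2)^d / d^K' + 4^d #{bad t in the cell}`.  Since `l` is even, `2^d (l/2 : ℕ)^d = l^d`.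
-/

set_option autoImplicit false

open Finset Filter

namespace Pool.Agent.LC

open Pool.Agent.LO Pool.Agent.LIN Pool.Agent.THR Pool.Agent.COR

variable {V Λ ι : Type} [Fintype V] [DecidableEq V] [Fintype Λ] [DecidableEq Λ] [Fintype ι] {d l q h : ℕ}
  {X X' : SimpleGraph V} {ev : V → Prop} {G : SimpleGraph Λ} {lv : Λ → ℕ} {i : Bool → Λ → V} {κ : ι → BxV d l → Λ}

omit [Fintype ι] in
theorem cells2 (hL : Layer h X X' ev G lv i) (hC : Cells d l G (fun p => ev (i false p)) κ)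
    (hlv : ∀ j u, 1 ≤ lv (κ j u) ∧ lv (κ j u) + 2 ≤ h) :
    Cells d l X ev (fun (jb : ι × Bool) u => i jb.2 (κ jb.1 u)) := by
  refine ⟨?_, ?_, ?_, ?_⟩
  · rintro ⟨j, b⟩ ⟨j', b'⟩ u u' huu
    obtain ⟨h1, h2⟩ := hL.inj b b' _ _ huu
    obtain ⟨h3, h4⟩ := hC.inj j j' u u' h2
    exact ⟨Prod.ext h3 h1, h4⟩
  · rintro ⟨j, b⟩ u u'
    refine (hL.adj b b _ _).trans ?_
    exact ⟨fun h' => (hC.adj j u u').1 h'.2, fun h' => ⟨rfl, (hC.adj j u u').2 h'⟩⟩
  · rintro ⟨j, b⟩ u hu v hv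
    by_cases hx' : ∀ b' p', v ≠ i b' p'
    · have h1 := hlv j u
      rcases hL.out b (κ j u) v hx' hv.symm with h0 | h0 <;> omega
    · push Not at hx'
      obtain ⟨b', p', rfl⟩ := hx'
      obtain ⟨h1, hpp⟩ := (hL.adj b b' _ p').1 hv
      obtain ⟨u', hu'⟩ := hC.cl j u hu p' hpp
      refine ⟨u', ?_⟩
      show i b' p' = i b (κ j u')
      rw [h1, hu']
  · rintro ⟨j, b⟩ u
    refine Iff.trans ?_ (hC.par j u)
    cases b
    · exact Iff.rfl
    · exact hL.par _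

open scoped Classical in
theorem At_bound (hl : Even l) (hC : Cells d l G (fun p => ev (i false p)) κ) (A : Finset (Fin q)) (K' : ℕ) (r τ : ℝ)
    (F : V → Fin q)
    (h1 : ((univ.filter fun jb : ι × Bool => EvB K' (fun u => F (i jb.2 (κ jb.1 u)))).card : ℝ) ≤ r)
    (h2 : ((univ.filter fun w : (ι × Bool) × (Fin d → Fin (l / 2)) =>
      ¬ (GDP (fun a b => F (i w.1.2 (κ w.1.1 (bpt w.2 a b)))) ∧
        ALP (fun a b => F (i w.1.2 (κ w.1.1 (bpt w.2 a b)))) = A)).card : ℝ) ≤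
      τ * (2 * Fintype.card ι * ((l / 2 : ℕ) : ℝ) ^ d)) :
    ((At d G (fun p => ev (i false p)) A (fb i F false) (fb i F true)).card : ℝ) ≤
      ((Fintype.card Λ : ℝ) - Fintype.card ι * ((l : ℝ) + 1) ^ d) +
      Fintype.card ι * (8 * d * ((l : ℝ) + 1) ^ (d - 1)) +
      (2 * d + 1) * (r * ((l : ℝ) + 1) ^ d + 2 * Fintype.card ι * (l : ℝ) ^ d / (d : ℝ) ^ K' +
        τ * (2 * Fintype.card ι * (l : ℝ) ^ d)) := by
  have h0 := At_le hC A (fb i F false) (fb i F true)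
  set S : ι × Bool → ℝ := fun jb => ((univ.filter fun z : BxV d l => inn 3 z ∧
    ¬ Ty d (bG d l) bev A (fun w => F (i jb.2 (κ jb.1 w))) z).card : ℝ) with hS
  set bad : ι × Bool → ℝ := fun jb => ((univ.filter fun t : Fin d → Fin (l / 2) =>
    ¬ (GDP (fun a b => F (i jb.2 (κ jb.1 (bpt t a b)))) ∧
      ALP (fun a b => F (i jb.2 (κ jb.1 (bpt t a b)))) = A)).card : ℝ) with hbad
  have hsum : ∑ j : ι, (S (j, false) + S (j, true)) = ∑ jb : ι × Bool, S jb := by
    rw [Fintype.sum_prod_type]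
    refine Finset.sum_congr rfl fun j _ => ?_
    rw [Fintype.sum_bool, add_comm]
  have hb : ∑ jb : ι × Bool, bad jb ≤ τ * (2 * Fintype.card ι * ((l / 2 : ℕ) : ℝ) ^ d) := by
    refine le_trans (le_of_eq ?_) h2
    symm
    rw [Finset.card_filter, Nat.cast_sum]
    refine (Fintype.sum_prod_type _).trans (Finset.sum_congr rfl fun jb _ => ?_)
    simp only [hbad, Finset.card_filter, Nat.cast_sum]
  have hl2 : (2 : ℝ) ^ d * ((l / 2 : ℕ) : ℝ) ^ d = (l : ℝ) ^ d := by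
    obtain ⟨m, rfl⟩ := hl
    have h3 : (m + m) / 2 = m := by omega
    rw [h3, ← mul_pow]
    push_cast
    ring
  have hcell : ∀ jb : ι × Bool, S jb ≤ (if EvB K' (fun u => F (i jb.2 (κ jb.1 u))) then ((l : ℝ) + 1) ^ d else 0) +
      (l : ℝ) ^ d / (d : ℝ) ^ K' + 2 ^ d * bad jb := by
    intro jb
    have hbad0 : 0 ≤ bad jb := Nat.cast_nonneg _
    by_cases hE : EvB K' (fun u => F (i jb.2 (κ jb.1 u)))
    · rw [if_pos hE]
      have h3 : S jb ≤ ((l : ℝ) + 1) ^ d := by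
        have h4 : (univ.filter fun z : BxV d l => inn 3 z ∧
            ¬ Ty d (bG d l) bev A (fun w => F (i jb.2 (κ jb.1 w))) z).card ≤ Fintype.card (BxV d l) :=
          Finset.card_le_univ _
        have h5 : Fintype.card (BxV d l) = (l + 1) ^ d := by simp [BxV]
        rw [h5] at h4
        have h8 : S jb ≤ (((l + 1) ^ d : ℕ) : ℝ) := Nat.cast_le.mpr h4
        rwa [Nat.cast_pow, Nat.cast_add, Nat.cast_one] at h8
      have h6 : 0 ≤ (l : ℝ) ^ d / (d : ℝ) ^ K' := by positivity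
      have h7 : 0 ≤ 2 ^ d * bad jb := by positivity
      linarith
    · rw [if_neg hE, zero_add]
      have h3 := cell_atyp hl (fun u => F (i jb.2 (κ jb.1 u))) A
      have h4 : ((univ.filter fun p : (Fin d → Fin (l / 2)) × Bt d × Bt d => inn 3 (bpt p.1 p.2.1 p.2.2) ∧
          G0P (fun a b => (fun u => F (i jb.2 (κ jb.1 u))) (bpt p.1 a b)) ∧
          ¬ Ty d (bG d l) bev (ALP (fun a b => (fun u => F (i jb.2 (κ jb.1 u))) (bpt p.1 a b)))
            (fun u => F (i jb.2 (κ jb.1 u))) (bpt p.1 p.2.1 p.2.2)).card : ℝ) ≤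
          4 ^ d * ((l / 2 : ℕ) : ℝ) ^ d / (d : ℝ) ^ K' := by
        by_contra hcon
        exact hE (Or.inr (not_le.mp hcon))
      have h5 : (4 : ℝ) ^ d = 2 ^ d * 2 ^ d := by
        rw [← mul_pow]
        norm_num
      have h6 : (0 : ℝ) < 2 ^ d := by positivity
      refine le_of_mul_le_mul_left ?_ h6
      calc (2 : ℝ) ^ d * S jb ≤ _ := h3
        _ ≤ 4 ^ d * ((l / 2 : ℕ) : ℝ) ^ d / (d : ℝ) ^ K' + 4 ^ d * bad jb := add_le_add h4 le_rfl
        _ = 2 ^ d * ((l : ℝ) ^ d / (d : ℝ) ^ K' + 2 ^ d * bad jb) := by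
          rw [h5, ← hl2]
          ring
  have hS2 : ∑ jb : ι × Bool, S jb ≤ r * ((l : ℝ) + 1) ^ d + 2 * Fintype.card ι * (l : ℝ) ^ d / (d : ℝ) ^ K' +
      τ * (2 * Fintype.card ι * (l : ℝ) ^ d) := by
    refine (Finset.sum_le_sum fun jb _ => hcell jb).trans ?_
    rw [Finset.sum_add_distrib, Finset.sum_add_distrib, ← Finset.mul_sum, Finset.sum_const, ← Finset.sum_filter,
      Finset.sum_const, nsmul_eq_mul, nsmul_eq_mul, Finset.card_univ, Fintype.card_prod, Fintype.card_bool]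
    have h3 : (0 : ℝ) ≤ ((l : ℝ) + 1) ^ d := by positivity
    have h4 := mul_le_mul_of_nonneg_right h1 h3
    have h5 : (0 : ℝ) ≤ 2 ^ d := by positivity
    have h6 := mul_le_mul_of_nonneg_left hb h5
    have h7 : (2 : ℝ) ^ d * (τ * (2 * Fintype.card ι * ((l / 2 : ℕ) : ℝ) ^ d)) =
        τ * (2 * Fintype.card ι * (l : ℝ) ^ d) := by
      rw [← hl2]
      ring
    have h8 : ((Fintype.card ι * 2 : ℕ) : ℝ) * ((l : ℝ) ^ d / (d : ℝ) ^ K') =
        2 * Fintype.card ι * (l : ℝ) ^ d / (d : ℝ) ^ K' := by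
      push_cast
      ring
    rw [h8]
    linarith
  refine h0.trans (add_le_add le_rfl (mul_le_mul_of_nonneg_left ?_ (by positivity)))
  refine le_trans (le_of_eq ?_) hS2
  rw [← hsum]
  rfl

end Pool.Agent.LC
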