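import Pool.Agent.Lib_MP_2c424f_lc5.V03
import Pool.Agent.Lib_MP_2c424f_lc5.V07
import Pool.Agent.Lib_MP_2c424f_lc5.V08
import Pool.Agent.Lib_MP_2c424f_lc5.V09
import Pool.Agent.Lib_MP_2c424f_lc5.V10
import Pool.Agent.Lib_MP_2c424f_lc5.V11
import Pool.Agent.Lib_MP_2c424f_lc5.V12a
import Pool.Agent.Lib_MP_2c424f_lc5.V12b

/-!
# Part V, V17: colourings with few uncertified points

`n = 2 n₁ + 2` steps, `D = (4d)²`, `e = (n+1) Y ρ^{n₁-m} D^m`, `DD` = the subsets `D` of some window `wn lv b₀ (b₀+n)`, `b₀ < h`, with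
`|D| ≤ s`.
`DD_card`: `|wn lv b₀ (b₀+n)| ≤ (n+1) Y`; `small_subsets`.
`Q_le`: `half_fib` with `Q F := (|At(F)| ≤ t)` (`At_congr`, `par_layer`) and `R F := ∃ D ∈ DD, sp ...`; then `sep_count`.
Let `Q F₀`, `A = At(F₀)`, `b₀` from `window` (`2n+8 ≤ h`), `W = wn lv b₀ (b₀+n)`: `|A ∩ W| ≤ 2(n+1) t / h`.  `PT_sum` (rows: `row_le` with `A = B`,
`J = ∅` (`A \ A = ∅`), an odd `y ∉ At` is certified; `Mk_row_le`; `card_nb_layer`): the sum of `|PT(F)|` over the fibre of `F₀` is at most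
`e |fibre|`; so at least half of the fibre has `|PT(F)| ≤ 2 e` (Markov).  For these `F`: `At(F) = A`; `St := {p : lv p = b₀+n, CP}`,
`|St| ≤ (4d+1) 2 e` (`St_card`), `St ⊆ W`; `exists_del` gives `Del ⊆ W` with `|Del| ≤ (4d+1) 2 e + 2(n+1)t/(h m) ≤ s` and `sp`.
-/

set_option autoImplicit false

open Finset Filter

namespace Pool.Agent.LC

open Pool.Agent.LO Pool.Agent.LIN Pool.Agent.THR Pool.Agent.COR

open scoped Classical in
/-- small subsets of the windows -/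
noncomputable def DDs {Λ : Type} [Fintype Λ] [DecidableEq Λ] (lv : Λ → ℕ) (h n : ℕ) (s : ℝ) : Finset (Finset Λ) :=
  (range h).biUnion fun b₀ => (wn lv b₀ (b₀ + n)).powerset.filter fun D => (D.card : ℝ) ≤ s

open scoped Classical in
private theorem V17_wn {Λ : Type} [Fintype Λ] [DecidableEq Λ] (lv : Λ → ℕ) (b₀ n : ℕ) (Y : ℝ)
    (hY : ∀ l, ((univ.filter fun p : Λ => lv p = l).card : ℝ) ≤ Y) :
    ((wn lv b₀ (b₀ + n)).card : ℝ) ≤ (n + 1) * Y := by
  have h1 : wn lv b₀ (b₀ + n) ⊆ (range (n + 1)).biUnion fun k => univ.filter fun p : Λ => lv p = b₀ + k := by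
    intro p hp
    simp only [wn, mem_filter, mem_univ, true_and] at hp
    rw [mem_biUnion]
    refine ⟨lv p - b₀, mem_range.2 (by omega), ?_⟩
    rw [mem_filter]
    exact ⟨mem_univ _, by omega⟩
  have h2 := (card_le_card h1).trans card_biUnion_le
  calc ((wn lv b₀ (b₀ + n)).card : ℝ) ≤ ((∑ k ∈ range (n + 1), (univ.filter fun p : Λ => lv p = b₀ + k).card : ℕ) : ℝ) := by
        exact_mod_cast h2
    _ = ∑ k ∈ range (n + 1), ((univ.filter fun p : Λ => lv p = b₀ + k).card : ℝ) := by push_cast; rfl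
    _ ≤ ∑ _k ∈ range (n + 1), Y := sum_le_sum fun k _ => hY _
    _ = (n + 1) * Y := by
        rw [sum_const, card_range, nsmul_eq_mul]
        push_cast
        ring

theorem DD_card {Λ : Type} [Fintype Λ] [DecidableEq Λ] (lv : Λ → ℕ) (h n : ℕ) (s L Y : ℝ) (hL : 0 ≤ L)
    (hY : ∀ l, ((univ.filter fun p : Λ => lv p = l).card : ℝ) ≤ Y) :
    ((DDs lv h n s).card : ℝ) ≤ h * Real.exp (L * s + (n + 1) * Y * Real.exp (-L)) := by
  classical
  have h1 : (DDs lv h n s).card ≤ ∑ b₀ ∈ range h, ((wn lv b₀ (b₀ + n)).powerset.filter fun D => (D.card : ℝ) ≤ s).card := by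
    unfold DDs
    exact card_biUnion_le
  calc ((DDs lv h n s).card : ℝ)
      ≤ ((∑ b₀ ∈ range h, ((wn lv b₀ (b₀ + n)).powerset.filter fun D => (D.card : ℝ) ≤ s).card : ℕ) : ℝ) := by
        exact_mod_cast h1
    _ = ∑ b₀ ∈ range h, (((wn lv b₀ (b₀ + n)).powerset.filter fun D => (D.card : ℝ) ≤ s).card : ℝ) := by
        push_cast
        rfl
    _ ≤ ∑ _b₀ ∈ range h, Real.exp (L * s + (n + 1) * Y * Real.exp (-L)) := by
        refine sum_le_sum fun b₀ _ => ?_
        refine (small_subsets _ s L hL).trans (Real.exp_le_exp.2 ?_)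
        have h2 := mul_le_mul_of_nonneg_right (V17_wn lv b₀ n Y hY) (Real.exp_pos (-L)).le
        linarith
    _ = h * Real.exp (L * s + (n + 1) * Y * Real.exp (-L)) := by
        rw [sum_const, card_range, nsmul_eq_mul]

open scoped Classical in
private theorem V17_cG {V : Type} [Fintype V] [DecidableEq V] {q : ℕ} (X : SimpleGraph V)
    (P : (V → Fin q) → Prop) (s : Finset (V → Fin q)) (hs : ∀ F, F ∈ s ↔ PrG X F ∧ P F) :
    cG X P = (s.card : ℝ) := by
  unfold cG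
  congr 2
  ext F
  rw [mem_filter, hs]
  exact ⟨fun h => h.2, fun h => ⟨mem_univ _, h⟩⟩

open scoped Classical in
private theorem V17_le {V : Type} [Fintype V] [DecidableEq V] {q : ℕ} (X : SimpleGraph V)
    (P : (V → Fin q) → Prop) (s : Finset (V → Fin q)) (hs : ∀ F ∈ s, PrG X F ∧ P F) :
    (s.card : ℝ) ≤ cG X P := by
  unfold cG
  refine Nat.cast_le.2 (card_le_card fun F hF => ?_)
  rw [mem_filter]
  exact ⟨mem_univ _, hs F hF⟩

open scoped Classical in
/-- Markov's inequality -/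
private theorem V17_markov {α : Type} (S : Finset α) (f : α → ℝ) (hf : ∀ F ∈ S, 0 ≤ f F) (e : ℝ) (he : 0 ≤ e)
    (h : ∑ F ∈ S, f F ≤ e * S.card) : (S.card : ℝ) ≤ 2 * ((S.filter fun F => f F ≤ 2 * e).card : ℝ) := by
  rcases he.eq_or_lt with h0 | h0
  · have h1 : S.filter (fun F => f F ≤ 2 * e) = S := by
      refine filter_true_of_mem fun F hF => ?_
      have h2 : f F ≤ ∑ F ∈ S, f F := single_le_sum hf hF
      rw [← h0] at h ⊢
      linarith
    rw [h1]
    have h2 : (0 : ℝ) ≤ (S.card : ℝ) := Nat.cast_nonneg _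
    linarith
  · have h1 : (S.card : ℝ) = ((S.filter fun F => f F ≤ 2 * e).card : ℝ) + ((S.filter fun F => ¬ f F ≤ 2 * e).card : ℝ) := by
      rw [← card_filter_add_card_filter_not (s := S) (fun F => f F ≤ 2 * e)]
      push_cast
      rfl
    have h2 : ((S.filter fun F => ¬ f F ≤ 2 * e).card : ℝ) * (2 * e) ≤ ∑ F ∈ S, f F := by
      calc ((S.filter fun F => ¬ f F ≤ 2 * e).card : ℝ) * (2 * e) = ∑ _F ∈ S.filter (fun F => ¬ f F ≤ 2 * e), 2 * e := by
            rw [sum_const, nsmul_eq_mul]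
        _ ≤ ∑ F ∈ S.filter (fun F => ¬ f F ≤ 2 * e), f F :=
            sum_le_sum fun F hF => (not_le.1 (mem_filter.1 hF).2).le
        _ ≤ ∑ F ∈ S, f F := sum_le_sum_of_subset_of_nonneg (filter_subset _ _) fun F hF _ => hf F hF
    have h3 : ((S.filter fun F => ¬ f F ≤ 2 * e).card : ℝ) * (2 * e) ≤ e * S.card := h2.trans h
    have h4 : 2 * ((S.filter fun F => ¬ f F ≤ 2 * e).card : ℝ) ≤ S.card := by
      have h5 : e * (2 * ((S.filter fun F => ¬ f F ≤ 2 * e).card : ℝ)) ≤ e * S.card := by linarith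
      exact le_of_mul_le_mul_left h5 h0
    linarith

open scoped Classical in
/-- half of the fibre is separated by a small set -/
private theorem V17_fib {V Λ : Type} [Fintype V] [DecidableEq V] [Fintype Λ] [DecidableEq Λ] {d q h : ℕ} (hR : Rg d q)
    (hq : 2 ≤ q) {X X' : SimpleGraph V} {ev : V → Prop} {G : SimpleGraph Λ} {lv : Λ → ℕ} {i : Bool → Λ → V}
    (hP : Par X ev) (hdeg : ∀ v, (nb X v).card ≤ 4 * d)
    (hL : Layer h X X' ev G lv i) (A₀ : Finset (Fin q)) (Y : ℝ)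
    (hY : ∀ l, ((univ.filter fun p : Λ => lv p = l).card : ℝ) ≤ Y) (n₁ m : ℕ) (hm : 1 ≤ m)
    (hh : 2 * (2 * n₁ + 2) + 8 ≤ h) (hρ : rh d q ≤ 1) (hd : 1 ≤ d) (s t : ℝ)
    (hs : (4 * d + 1) * (2 * ((2 * n₁ + 3) * Y * (rh d q ^ (n₁ - m) * ((4 * d) ^ 2) ^ m))) +
      2 * (2 * n₁ + 3) * t / (h * m) ≤ s) (F₀ : V → Fin q)
    (hQ : ((At d G (fun p => ev (i false p)) A₀ (fb i F₀ false) (fb i F₀ true)).card : ℝ) ≤ t) :
    cG X (fun F : V → Fin q => ∀ w, ¬ ev w → F w = F₀ w) ≤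
      2 * cG X (fun F : V → Fin q => (∀ w, ¬ ev w → F w = F₀ w) ∧
        ∃ D ∈ DDs lv h (2 * n₁ + 2) s, sp G lv h (fb i F false) (fb i F true) D) := by
  have hPG : Par G (fun p => ev (i false p)) := par_layer hL hP
  have hdG : ∀ p, (nb G p).card ≤ 4 * d := fun p => (card_nb_layer hL false p).trans (hdeg _)
  set A := At d G (fun p => ev (i false p)) A₀ (fb i F₀ false) (fb i F₀ true) with hA
  obtain ⟨b₀, hb1, hb2, hb3⟩ := window lv h (2 * n₁ + 2) hh A
  set W := wn lv b₀ (b₀ + (2 * n₁ + 2)) with hW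
  have hWm : ∀ p ∈ W, b₀ ≤ lv p ∧ lv p ≤ b₀ + (2 * n₁ + 2) := by
    intro p hp
    simpa only [hW, wn, mem_filter, mem_univ, true_and] using hp
  have hY0 : 0 ≤ Y := (Nat.cast_nonneg _).trans (hY 0)
  have hρ0 : 0 ≤ rh d q := by
    unfold rh
    positivity
  have hd1 : (1 : ℝ) ≤ (d : ℝ) := by exact_mod_cast hd
  have hD1 : (1 : ℝ) ≤ (4 * d : ℝ) ^ 2 := by
    have h1 : (1 : ℝ) ≤ 4 * d := by linarith
    exact one_le_pow₀ h1
  -- the mean of the number of starting points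
  have hPT := PT_sum hP hL W A (fun p hp => by
      have h1 := hWm p hp
      exact ⟨by omega, by omega⟩) (rh d q) ((4 * d) ^ 2) hρ0 hρ hD1 F₀ (by
      intro y hy hev hyA
      have hc : cert d G (fun p => ev (i false p)) A₀ A₀ (fb i F₀ false) (fb i F₀ true) y := by
        by_contra hcon
        refine hyA ?_
        rw [hA]
        unfold At
        rw [mem_filter]
        exact ⟨mem_univ _, hev, hcon⟩
      have h1 := row_le hR (by omega : 1 ≤ q) G (fun p => ev (i false p)) hPG A₀ A₀ (Finset.Subset.refl _)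
        (fb i F₀ false) (fb i F₀ true) y hev hc
      rwa [sdiff_self] at h1) (fun y => Mk_row_le G hdG ∅ _ _ y) n₁ m
  set S := univ.filter (fun F : V → Fin q => PrG X F ∧ ∀ w, ¬ ev w → F w = F₀ w) with hS
  have hcS : cG X (fun F : V → Fin q => ∀ w, ¬ ev w → F w = F₀ w) = (S.card : ℝ) :=
    V17_cG X _ S fun F => by rw [hS, mem_filter]; exact ⟨fun h => h.2, fun h => ⟨mem_univ _, h⟩⟩
  rw [hcS] at hPT ⊢
  set e : ℝ := (2 * n₁ + 3) * Y * (rh d q ^ (n₁ - m) * ((4 * d) ^ 2) ^ m) with he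
  have hpw : 0 ≤ rh d q ^ (n₁ - m) * ((4 * (d : ℝ)) ^ 2) ^ m := by positivity
  have he0 : 0 ≤ e := by
    rw [he]
    positivity
  have hWc : (W.card : ℝ) ≤ (2 * n₁ + 3) * Y := by
    have h1 := V17_wn lv b₀ (2 * n₁ + 2) Y hY
    push_cast at h1
    calc (W.card : ℝ) ≤ (2 * n₁ + 2 + 1) * Y := h1
      _ = (2 * n₁ + 3) * Y := by ring
  have hsum : ∑ F ∈ S, ((PT G (fun p => ev (i false p)) (fb i F false) (fb i F true) W A n₁ m).card : ℝ) ≤ e * S.card := by
    refine hPT.trans ?_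
    refine mul_le_mul_of_nonneg_right ?_ (Nat.cast_nonneg _)
    rw [he]
    exact mul_le_mul_of_nonneg_right hWc hpw
  have hM := V17_markov S (fun F => ((PT G (fun p => ev (i false p)) (fb i F false) (fb i F true) W A n₁ m).card : ℝ))
    (fun F _ => Nat.cast_nonneg _) e he0 hsum
  refine hM.trans ?_
  refine mul_le_mul_of_nonneg_left ?_ (by norm_num)
  refine V17_le X _ _ fun F hF => ?_
  rw [mem_filter, hS, mem_filter] at hF
  obtain ⟨⟨-, hF1, hF2⟩, hF3⟩ := hF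
  refine ⟨hF1, hF2, ?_⟩
  -- the separating set
  have hStc := St_card hPG hdG (fb i F false) (fb i F true) W A n₁ m
  set St := univ.filter (fun p => CP G (fb i F false) (fb i F true) W A (2 * n₁ + 2) m p) with hSt
  have hStW : St ⊆ W := by
    intro p hp
    rw [hSt, mem_filter] at hp
    obtain ⟨-, s', hs0, hsW, -⟩ := hp
    rw [← hs0]
    exact hsW 0 (Nat.zero_le _)
  obtain ⟨Del, hDel, hsp, hcard⟩ := exists_del (h := h) G lv hL.lvl (fb i F false) (fb i F true) A St b₀ (2 * n₁ + 2) m hm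
    hb1 hb2 (by
      intro p _ hpS hCP
      refine hpS ?_
      rw [hSt, mem_filter]
      exact ⟨mem_univ _, hCP⟩)
  refine ⟨Del, ?_, hsp⟩
  unfold DDs
  rw [mem_biUnion]
  refine ⟨b₀, mem_range.2 (by omega), ?_⟩
  rw [mem_filter, mem_powerset]
  refine ⟨hDel.trans (union_subset hStW inter_subset_right), ?_⟩
  have hh0 : (0 : ℝ) < h := by exact_mod_cast (by omega : 0 < h)
  have hm0 : (0 : ℝ) < m := by exact_mod_cast hm
  have h1 : (St.card : ℝ) ≤ (4 * d + 1) * (2 * e) := by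
    calc (St.card : ℝ) ≤ (((4 * d + 1) * (PT G (fun p => ev (i false p)) (fb i F false) (fb i F true) W A n₁ m).card : ℕ) : ℝ) := by
          exact_mod_cast hStc
      _ = (4 * d + 1) * ((PT G (fun p => ev (i false p)) (fb i F false) (fb i F true) W A n₁ m).card : ℝ) := by
          push_cast
          ring
      _ ≤ (4 * d + 1) * (2 * e) := mul_le_mul_of_nonneg_left hF3 (by positivity)
  have h2 : ((A ∩ W).card : ℝ) / m ≤ 2 * (2 * n₁ + 3) * t / (h * m) := by
    have h3 : ((A ∩ W).card : ℝ) * h ≤ 2 * (2 * n₁ + 3) * t := by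
      calc ((A ∩ W).card : ℝ) * h = (((A ∩ W).card * h : ℕ) : ℝ) := by push_cast; ring
        _ ≤ ((2 * (2 * n₁ + 2 + 1) * A.card : ℕ) : ℝ) := by exact_mod_cast hb3
        _ = 2 * (2 * n₁ + 3) * (A.card : ℝ) := by push_cast; ring
        _ ≤ 2 * (2 * n₁ + 3) * t := mul_le_mul_of_nonneg_left hQ (by positivity)
    rw [div_le_div_iff₀ hm0 (mul_pos hh0 hm0)]
    calc ((A ∩ W).card : ℝ) * (h * m) = (((A ∩ W).card : ℝ) * h) * m := by ring
      _ ≤ (2 * (2 * n₁ + 3) * t) * m := mul_le_mul_of_nonneg_right h3 hm0.le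
  linarith

theorem Q_le {V Λ : Type} [Fintype V] [DecidableEq V] [Fintype Λ] [DecidableEq Λ] {d q h : ℕ} (hR : Rg d q)
    (hq : 2 ≤ q) {X X' : SimpleGraph V} {ev : V → Prop} {G : SimpleGraph Λ} {lv : Λ → ℕ} {i : Bool → Λ → V}
    (hP : Par X ev) (hP' : Par X' ev) (hdeg : ∀ v, (nb X v).card ≤ 4 * d) (hdeg' : ∀ v, (nb X' v).card ≤ 4 * d)
    (hL : Layer h X X' ev G lv i) (A₀ : Finset (Fin q)) (Y : ℝ)
    (hY : ∀ l, ((univ.filter fun p : Λ => lv p = l).card : ℝ) ≤ Y) (n₁ m : ℕ) (hm : 1 ≤ m)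
    (hh : 2 * (2 * n₁ + 2) + 8 ≤ h) (hρ : rh d q ≤ 1) (hd : 1 ≤ d) (s t : ℝ)
    (hs : (4 * d + 1) * (2 * ((2 * n₁ + 3) * Y * (rh d q ^ (n₁ - m) * ((4 * d) ^ 2) ^ m))) +
      2 * (2 * n₁ + 3) * t / (h * m) ≤ s) :
    cG X (fun F : V → Fin q =>
        ((At d G (fun p => ev (i false p)) A₀ (fb i F false) (fb i F true)).card : ℝ) ≤ t) ≤
      2 * ((DDs lv h (2 * n₁ + 2) s).card * Real.exp (16 * d * s / q) * cG X' (fun _ : V → Fin q => True)) := by
  classical
  have hPG : Par G (fun p => ev (i false p)) := par_layer hL hP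
  have h1 : cG X (fun F : V → Fin q =>
        ((At d G (fun p => ev (i false p)) A₀ (fb i F false) (fb i F true)).card : ℝ) ≤ t) ≤
      2 * cG X (fun F : V → Fin q => ∃ D ∈ DDs lv h (2 * n₁ + 2) s, sp G lv h (fb i F false) (fb i F true) D) := by
    refine half_fib X ev _ _ ?_ ?_
    · intro F F' hFF
      have h2 := At_congr (d := d) hPG A₀ (fb i F false) (fb i F true) (fb i F' false) (fb i F' true) (by
        intro p hp
        refine ⟨hFF _ hp, hFF _ ?_⟩
        intro h3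
        exact hp ((ev_layer hL true p).1 h3))
      show ((At d G (fun p => ev (i false p)) A₀ (fb i F false) (fb i F true)).card : ℝ) ≤ t ↔ _
      rw [h2]
    · intro F₀ hF₀
      exact V17_fib hR hq hP hdeg hL A₀ Y hY n₁ m hm hh hρ hd s t hs F₀ hF₀
  have h2 := sep_count (d := d) hq hP' hdeg' hL (by omega : 2 ≤ h) (DDs lv h (2 * n₁ + 2) s) s (by
    intro D hD
    unfold DDs at hD
    rw [mem_biUnion] at hD
    obtain ⟨b₀, -, hD⟩ := hD
    exact (mem_filter.1 hD).2)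
  exact h1.trans (mul_le_mul_of_nonneg_left h2 (by norm_num))

end Pool.Agent.LC
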