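import Pool.Agent.Lib_MP_2c424f_lc.PIV
import Pool.Agent.Lib_MP_2c424f_lc5.V12b
import Pool.Agent.Lib_MP_2c424f_lc5.V16

/-!
# Part V, V18: alignment: many colourings have few uncertified points

`Bl = (ι × Bool) × (Fin d → Fin (l/2))`, `β ((j, b), t) a b' = i b (κ j (bpt t a b'))`, `n = |ι|`, `p = 2^{2n} e^{-θ n c}`, `r = θ n`.
`many_cells` (for the `2n` cells `(j, b)`, `hc`): the number of `F` for which at least `r` cells have `EvB K'` is at most `p Z`.
Otherwise: at most `r + (2n)(l/2)^d/d^K'` ... precisely the number of the blocks without `GDP` is at most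
`r (l/2)^d + 2n (l/2)^d / d^K' < θ (2n (l/2)^d)` (first part of `¬ EvB`; `hK : 1/d^K' < θ/2`; `n ≥ 1`, `l ≥ 2`), so the hypothesis `hp` of `alignG` holds.
`hpar`: `bev (bpt t a b) ↔ ¬ od a b` (`od`: odd number of ones in `a + b`) and `Cells.par`, `Layer.par`; `hfib`: a point of a closed block has
at most `2^d` representations (`a` determines `b`).
`alignG` (hypothesis `hs`): at least `Z/(2 cK)` colourings have at most `22 (q²/4+1) θ |Bl|` blocks without (`GDP` and `ALP = A₀`); remove the at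
most `p Z ≤ Z/(4 cK)` for which at least `r` cells have `EvB`; the others satisfy `At_bound` with `τ = 22 (q²/4+1) θ`.
-/

set_option autoImplicit false

open Finset Filter

namespace Pool.Agent.LC

open Pool.Agent.LO Pool.Agent.LIN Pool.Agent.THR Pool.Agent.COR

open scoped Classical in
theorem bpt_par {d l : ℕ} (t : Fin d → Fin (l / 2)) (a b : Bt d) : bev (bpt t a b) ↔ ¬ od a b := by
  unfold bev od
  have h1 : ∑ i, (bpt t a b i).val = 2 * (∑ i, ((t i).val + if a i = true ∧ b i = true then 1 else 0)) +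
      (univ.filter fun i => a i ≠ b i).card := by
    rw [card_filter, mul_sum, ← sum_add_distrib]
    refine sum_congr rfl fun i _ => ?_
    show 2 * (t i).val + b01 (a i) + b01 (b i) = _
    unfold b01
    cases a i <;> cases b i <;> simp <;> omega
  rw [h1, Nat.even_add, Nat.not_odd_iff_even]
  simp

open scoped Classical in
theorem bpt_fib {d l : ℕ} (t : Fin d → Fin (l / 2)) (v : BxV d l) :
    ((univ.filter fun p : Bt d × Bt d => bpt t p.1 p.2 = v).card : ℝ) ≤ 2 ^ d := by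
  have h1 : (univ.filter fun p : Bt d × Bt d => bpt t p.1 p.2 = v).card ≤ (univ : Finset (Bt d)).card := by
    refine card_le_card_of_injOn (fun p => p.1) (fun _ _ => mem_coe.2 (mem_univ _)) ?_
    rintro ⟨a, b⟩ h ⟨a', b'⟩ h' e
    have e1 : a = a' := e
    subst e1
    have h2 : bpt t a b = v := (mem_filter.1 (mem_coe.1 h)).2
    have h3 : bpt t a b' = v := (mem_filter.1 (mem_coe.1 h')).2
    have h4 : b = b' := by
      funext i
      have h5 : (bpt t a b i).val = (bpt t a b' i).val := by rw [h2, h3]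
      have h6 : 2 * (t i).val + b01 (a i) + b01 (b i) = 2 * (t i).val + b01 (a i) + b01 (b' i) := h5
      unfold b01 at h6
      cases hb : b i <;> cases hb' : b' i <;> simp [hb, hb'] at h6 ⊢
    rw [h4]
  have h2 : (univ : Finset (Bt d)).card = 2 ^ d := by
    rw [card_univ, Fintype.card_fun, Fintype.card_bool, Fintype.card_fin]
  rw [h2] at h1
  exact_mod_cast h1

open scoped Classical in
private theorem V18_cG {V : Type} [Fintype V] [DecidableEq V] {q : ℕ} (X : SimpleGraph V)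
    (P : (V → Fin q) → Prop) (s : Finset (V → Fin q)) (hs : ∀ F, F ∈ s ↔ PrG X F ∧ P F) :
    cG X P = (s.card : ℝ) := by
  unfold cG
  congr 2
  ext F
  rw [mem_filter, hs]
  exact ⟨fun h => h.2, fun h => ⟨mem_univ _, h⟩⟩

open scoped Classical in
private theorem V18_mono {V : Type} [Fintype V] [DecidableEq V] {q : ℕ} (X : SimpleGraph V) (P Q : (V → Fin q) → Prop)
    (h : ∀ F, P F → Q F) : cG X P ≤ cG X Q := by
  rw [V18_cG X P (univ.filter fun F => PrG X F ∧ P F) (by simp),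
    V18_cG X Q (univ.filter fun F => PrG X F ∧ Q F) (by simp)]
  have h1 : (univ.filter fun F => PrG X F ∧ P F) ⊆ (univ.filter fun F => PrG X F ∧ Q F) := by
    intro F hF
    rw [mem_filter] at hF ⊢
    exact ⟨mem_univ _, hF.2.1, h F hF.2.2⟩
  exact_mod_cast card_le_card h1

open scoped Classical in
private theorem V18_split {V : Type} [Fintype V] [DecidableEq V] {q : ℕ} (X : SimpleGraph V) (P Q R : (V → Fin q) → Prop)
    (h : ∀ F, P F → Q F ∨ R F) : cG X P ≤ cG X Q + cG X R := by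
  rw [V18_cG X P (univ.filter fun F => PrG X F ∧ P F) (by simp),
    V18_cG X Q (univ.filter fun F => PrG X F ∧ Q F) (by simp),
    V18_cG X R (univ.filter fun F => PrG X F ∧ R F) (by simp)]
  have h1 : (univ.filter fun F => PrG X F ∧ P F) ⊆
      (univ.filter fun F => PrG X F ∧ Q F) ∪ (univ.filter fun F => PrG X F ∧ R F) := by
    intro F hF
    rw [mem_union, mem_filter, mem_filter]
    rw [mem_filter] at hF
    rcases h F hF.2.2 with h2 | h2
    · exact Or.inl ⟨mem_univ _, hF.2.1, h2⟩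
    · exact Or.inr ⟨mem_univ _, hF.2.1, h2⟩
  have h2 := (card_le_card h1).trans (card_union_le _ _)
  exact_mod_cast h2

open scoped Classical in
/-- counting the bad blocks -/
private theorem V18_cnt {α : Type} [Fintype α] {d m : ℕ} (E : α → Prop) (B : α → (Fin d → Fin m) → Prop) (y r θ n : ℝ)
    (hm : 1 ≤ m) (hy : y < θ / 2) (hn : (Fintype.card α : ℝ) = 2 * n) (hn0 : 0 < n) (hr : r = θ * n) (hy0 : 0 ≤ y)
    (hE : ((univ.filter fun j => E j).card : ℝ) < r)
    (hB : ∀ j, ¬ E j → ((univ.filter fun t => ¬ B j t).card : ℝ) ≤ (m : ℝ) ^ d * y) :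
    ((univ.filter fun w : α × (Fin d → Fin m) => ¬ B w.1 w.2).card : ℝ) < θ * (2 * n * (m : ℝ) ^ d) := by
  have hm0 : (0 : ℝ) < (m : ℝ) ^ d := by positivity
  have h1 : ((univ.filter fun w : α × (Fin d → Fin m) => ¬ B w.1 w.2).card : ℝ) =
      ∑ j : α, ((univ.filter fun t => ¬ B j t).card : ℝ) := by
    have h2 : (univ.filter fun w : α × (Fin d → Fin m) => ¬ B w.1 w.2).card =
        ∑ j : α, (univ.filter fun t => ¬ B j t).card := by
      rw [card_filter, Fintype.sum_prod_type]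
      refine sum_congr rfl fun j _ => ?_
      rw [card_filter]
    rw [h2]
    push_cast
    rfl
  have h3 : ∀ j, ((univ.filter fun t => ¬ B j t).card : ℝ) ≤
      (if E j then (m : ℝ) ^ d else 0) + (m : ℝ) ^ d * y := by
    intro j
    by_cases hj : E j
    · rw [if_pos hj]
      have h4 : ((univ.filter fun t => ¬ B j t).card : ℝ) ≤ (m : ℝ) ^ d := by
        have h5 : (univ.filter fun t => ¬ B j t).card ≤ (univ : Finset (Fin d → Fin m)).card :=
          card_le_card (filter_subset _ _)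
        rw [card_univ, Fintype.card_fun, Fintype.card_fin, Fintype.card_fin] at h5
        exact_mod_cast h5
      have h6 : 0 ≤ (m : ℝ) ^ d * y := by positivity
      linarith
    · rw [if_neg hj, zero_add]
      exact hB j hj
  rw [h1]
  refine (sum_le_sum fun j _ => h3 j).trans_lt ?_
  rw [sum_add_distrib, ← sum_filter, sum_const, sum_const, nsmul_eq_mul, nsmul_eq_mul, card_univ, hn]
  have h7 : ((univ.filter fun j => E j).card : ℝ) * (m : ℝ) ^ d < r * (m : ℝ) ^ d :=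
    mul_lt_mul_of_pos_right hE hm0
  have h8 : 2 * n * ((m : ℝ) ^ d * y) ≤ 2 * n * ((m : ℝ) ^ d * (θ / 2)) := by
    have : (m : ℝ) ^ d * y ≤ (m : ℝ) ^ d * (θ / 2) := mul_le_mul_of_nonneg_left hy.le hm0.le
    exact mul_le_mul_of_nonneg_left this (by linarith)
  rw [hr] at h7
  nlinarith [h7, h8]

open scoped Classical in
private theorem V18_many {V Λ ι : Type} [Fintype V] [DecidableEq V] [Fintype ι] {d l q : ℕ}
    (X : SimpleGraph V) (i : Bool → Λ → V) (κ : ι → BxV d l → Λ) (K' : ℕ) (θ c : ℝ) (hc0 : 0 ≤ c) (n : ℕ)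
    (hn : n = Fintype.card ι)
    (hc : ∀ S : Finset (ι × Bool), cG X (fun F : V → Fin q => ∀ jb ∈ S, EvB K' (fun u => F (i jb.2 (κ jb.1 u)))) ≤
      cG X (fun _ : V → Fin q => True) * Real.exp (-(S.card * c))) :
    cG X (fun F : V → Fin q => θ * n ≤
        ((univ.filter fun jb : ι × Bool => EvB K' (fun u => F (i jb.2 (κ jb.1 u)))).card : ℝ)) ≤
      2 ^ (2 * n) * Real.exp (-(θ * n * c)) * cG X (fun _ : V → Fin q => True) := by
  have hmany := many_cells X (fun (jb : ι × Bool) (F : V → Fin q) => EvB K' (fun u => F (i jb.2 (κ jb.1 u)))) c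
    (θ * n) hc0 hc
  have hcard : Fintype.card (ι × Bool) = 2 * n := by
    rw [Fintype.card_prod, Fintype.card_bool, mul_comm, hn]
  rw [hcard] at hmany
  exact hmany

open scoped Classical in
private theorem V18_ev {ι : Type} [Fintype ι] {d l q : ℕ}
    (f : ι × Bool → BxV d l → Fin q) (K' : ℕ) (θ : ℝ) (n : ℕ) (hn : n = Fintype.card ι) (hn0 : 1 ≤ n) (hl1 : 1 ≤ l / 2)
    (hd : 1 ≤ d) (hK : 1 / (d : ℝ) ^ K' < θ / 2)
    (hcon : ((univ.filter fun jb : ι × Bool => EvB K' (f jb)).card : ℝ) < θ * n) :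
    ((univ.filter fun w : (ι × Bool) × (Fin d → Fin (l / 2)) =>
          ¬ GDP (fun a b => f w.1 (bpt w.2 a b))).card : ℝ) < θ * (2 * n * ((l / 2 : ℕ) : ℝ) ^ d) := by
  have hcard : (Fintype.card (ι × Bool) : ℝ) = 2 * (n : ℝ) := by
    rw [Fintype.card_prod, Fintype.card_bool, hn]
    push_cast
    ring
  have hn1 : (0 : ℝ) < n := by exact_mod_cast hn0
  refine V18_cnt (fun jb : ι × Bool => EvB K' (f jb))
    (fun jb t => GDP (fun a b => f jb (bpt t a b))) (1 / (d : ℝ) ^ K') (θ * n) θ n hl1 hK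
    hcard hn1 rfl (by positivity) hcon ?_
  intro jb hjb
  have h1 := (not_or.1 hjb).1
  rw [not_lt] at h1
  refine h1.trans (le_of_eq ?_)
  ring

open scoped Classical in
private theorem V18_fib {V Λ ι : Type} [Fintype V] [DecidableEq V] [Fintype ι] {d l : ℕ} {X : SimpleGraph V} {ev : V → Prop}
    {i : Bool → Λ → V} {κ : ι → BxV d l → Λ}
    (hc2 : Cells d l X ev (fun (jb : ι × Bool) u => i jb.2 (κ jb.1 u)))
    (w : (ι × Bool) × (Fin d → Fin (l / 2))) (v : V) :
      ((univ.filter fun p : Bt d × Bt d => i w.1.2 (κ w.1.1 (bpt w.2 p.1 p.2)) = v).card : ℝ) ≤ 2 ^ d := by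
  by_cases h0 : ∃ p₀ : Bt d × Bt d, i w.1.2 (κ w.1.1 (bpt w.2 p₀.1 p₀.2)) = v
  · obtain ⟨p₀, hp₀⟩ := h0
    refine le_trans ?_ (bpt_fib w.2 (bpt w.2 p₀.1 p₀.2))
    have h1 : (univ.filter fun p : Bt d × Bt d => i w.1.2 (κ w.1.1 (bpt w.2 p.1 p.2)) = v) ⊆
        (univ.filter fun p : Bt d × Bt d => bpt w.2 p.1 p.2 = bpt w.2 p₀.1 p₀.2) := by
      intro p hp
      rw [mem_filter] at hp ⊢
      exact ⟨mem_univ _, (hc2.inj w.1 w.1 _ _ (hp.2.trans hp₀.symm)).2⟩
    exact_mod_cast card_le_card h1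
  · have h1 : (univ.filter fun p : Bt d × Bt d => i w.1.2 (κ w.1.1 (bpt w.2 p.1 p.2)) = v) = ∅ :=
      filter_eq_empty_iff.2 fun p _ hp => h0 ⟨p, hp⟩
    rw [h1, card_empty, Nat.cast_zero]
    positivity

open scoped Classical in
private theorem V18_bl {ι : Type} [Fintype ι] {d l : ℕ} :
    (Fintype.card ((ι × Bool) × (Fin d → Fin (l / 2))) : ℝ) = 2 * Fintype.card ι * ((l / 2 : ℕ) : ℝ) ^ d := by
  rw [Fintype.card_prod, Fintype.card_prod, Fintype.card_bool, Fintype.card_fun, Fintype.card_fin, Fintype.card_fin]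
  push_cast
  ring

open scoped Classical in
private theorem V18_hevent {V Λ ι : Type} [Fintype V] [DecidableEq V] [Fintype ι] {d l q : ℕ}
    (X : SimpleGraph V) (i : Bool → Λ → V) (κ : ι → BxV d l → Λ) (K' : ℕ) (θ : ℝ) (hι : 1 ≤ Fintype.card ι)
    (hl1 : 1 ≤ l / 2) (hd : 1 ≤ d) (hK : 1 / (d : ℝ) ^ K' < θ / 2) :
    cG X (fun F : V → Fin q =>
      θ * Fintype.card ((ι × Bool) × (Fin d → Fin (l / 2))) ≤
        ((univ.filter fun w : (ι × Bool) × (Fin d → Fin (l / 2)) =>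
          ¬ GDP (fun a b => F (i w.1.2 (κ w.1.1 (bpt w.2 a b))))).card : ℝ)) ≤
    cG X (fun F : V → Fin q => θ * (Fintype.card ι : ℕ) ≤
        ((univ.filter fun jb : ι × Bool => EvB K' (fun u => F (i jb.2 (κ jb.1 u)))).card : ℝ)) := by
  refine V18_mono X (fun F : V → Fin q =>
      θ * Fintype.card ((ι × Bool) × (Fin d → Fin (l / 2))) ≤
        ((univ.filter fun w : (ι × Bool) × (Fin d → Fin (l / 2)) =>
          ¬ GDP (fun a b => F (i w.1.2 (κ w.1.1 (bpt w.2 a b))))).card : ℝ))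
    (fun F : V → Fin q => θ * (Fintype.card ι : ℕ) ≤
        ((univ.filter fun jb : ι × Bool => EvB K' (fun u => F (i jb.2 (κ jb.1 u)))).card : ℝ)) ?_
  intro F hF
  by_contra hcon
  rw [not_le] at hcon
  have h1 := V18_ev (fun jb u => F (i jb.2 (κ jb.1 u))) K' θ (Fintype.card ι) rfl hι hl1 hd hK hcon
  have hF' : θ * Fintype.card ((ι × Bool) × (Fin d → Fin (l / 2))) ≤
        ((univ.filter fun w : (ι × Bool) × (Fin d → Fin (l / 2)) =>
          ¬ GDP (fun a b => F (i w.1.2 (κ w.1.1 (bpt w.2 a b))))).card : ℝ) := hF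
  rw [V18_bl] at hF'
  exact absurd hF' (not_le.2 h1)

open scoped Classical in
private theorem V18_fin {V Λ ι : Type} [Fintype V] [DecidableEq V] [Fintype Λ] [DecidableEq Λ] [Fintype ι] {d l q : ℕ}
    {X : SimpleGraph V} {ev : V → Prop} {G : SimpleGraph Λ} {i : Bool → Λ → V} {κ : ι → BxV d l → Λ} (hl : Even l)
    (hC : Cells d l G (fun p => ev (i false p)) κ) (A₀ : Finset (Fin q)) (K' : ℕ) (θ : ℝ) :
    cG X (fun F : V → Fin q =>
        ((univ.filter fun w : (ι × Bool) × (Fin d → Fin (l / 2)) =>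
          ¬ (GDP (fun a b => F (i w.1.2 (κ w.1.1 (bpt w.2 a b)))) ∧
            ALP (fun a b => F (i w.1.2 (κ w.1.1 (bpt w.2 a b)))) = A₀)).card : ℝ) ≤
          22 * ((q : ℝ) ^ 2 / 4 + 1) * θ * Fintype.card ((ι × Bool) × (Fin d → Fin (l / 2)))) ≤
      cG X (fun F : V → Fin q =>
        ((At d G (fun p => ev (i false p)) A₀ (fb i F false) (fb i F true)).card : ℝ) ≤
          ((Fintype.card Λ : ℝ) - Fintype.card ι * ((l : ℝ) + 1) ^ d) +
          Fintype.card ι * (8 * d * ((l : ℝ) + 1) ^ (d - 1)) +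
          (2 * d + 1) * (θ * Fintype.card ι * ((l : ℝ) + 1) ^ d + 2 * Fintype.card ι * (l : ℝ) ^ d / (d : ℝ) ^ K' +
            22 * ((q : ℝ) ^ 2 / 4 + 1) * θ * (2 * Fintype.card ι * (l : ℝ) ^ d))) +
      cG X (fun F : V → Fin q => θ * (Fintype.card ι : ℕ) ≤
        ((univ.filter fun jb : ι × Bool => EvB K' (fun u => F (i jb.2 (κ jb.1 u)))).card : ℝ)) := by
  refine V18_split X
    (fun F : V → Fin q =>
        ((univ.filter fun w : (ι × Bool) × (Fin d → Fin (l / 2)) =>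
          ¬ (GDP (fun a b => F (i w.1.2 (κ w.1.1 (bpt w.2 a b)))) ∧
            ALP (fun a b => F (i w.1.2 (κ w.1.1 (bpt w.2 a b)))) = A₀)).card : ℝ) ≤
          22 * ((q : ℝ) ^ 2 / 4 + 1) * θ * Fintype.card ((ι × Bool) × (Fin d → Fin (l / 2))))
    (fun F : V → Fin q =>
        ((At d G (fun p => ev (i false p)) A₀ (fb i F false) (fb i F true)).card : ℝ) ≤
          ((Fintype.card Λ : ℝ) - Fintype.card ι * ((l : ℝ) + 1) ^ d) +
          Fintype.card ι * (8 * d * ((l : ℝ) + 1) ^ (d - 1)) +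
          (2 * d + 1) * (θ * Fintype.card ι * ((l : ℝ) + 1) ^ d + 2 * Fintype.card ι * (l : ℝ) ^ d / (d : ℝ) ^ K' +
            22 * ((q : ℝ) ^ 2 / 4 + 1) * θ * (2 * Fintype.card ι * (l : ℝ) ^ d)))
    (fun F : V → Fin q => θ * (Fintype.card ι : ℕ) ≤
        ((univ.filter fun jb : ι × Bool => EvB K' (fun u => F (i jb.2 (κ jb.1 u)))).card : ℝ)) ?_
  intro F hF
  by_cases hr : θ * (Fintype.card ι : ℕ) ≤
      ((univ.filter fun jb : ι × Bool => EvB K' (fun u => F (i jb.2 (κ jb.1 u)))).card : ℝ)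
  · exact Or.inr hr
  · refine Or.inl ?_
    have hF' : ((univ.filter fun w : (ι × Bool) × (Fin d → Fin (l / 2)) =>
          ¬ (GDP (fun a b => F (i w.1.2 (κ w.1.1 (bpt w.2 a b)))) ∧
            ALP (fun a b => F (i w.1.2 (κ w.1.1 (bpt w.2 a b)))) = A₀)).card : ℝ) ≤
          22 * ((q : ℝ) ^ 2 / 4 + 1) * θ * Fintype.card ((ι × Bool) × (Fin d → Fin (l / 2))) := hF
    rw [V18_bl] at hF'
    exact At_bound hl hC A₀ K' (θ * (Fintype.card ι : ℕ)) (22 * ((q : ℝ) ^ 2 / 4 + 1) * θ) F (not_le.1 hr).le hF'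

private theorem V18_arith {Z T C p θ Q R : ℝ} (hZ0 : 0 ≤ Z) (hC1 : 0 < C) (hp0 : 0 ≤ p) (hθ : 0 < θ) (hθ1 : θ ≤ 1)
    (hQ : 0 ≤ Q) (hs : 4 * (Q + 1) * C * p / θ ≤ 1) (hal : 1 / (2 * C) * Z ≤ R) (hfin : R ≤ T + p * Z) :
    Z ≤ 4 * C * T := by
  have hp4 : 4 * C * p ≤ 1 := by
    have h1 : 4 * (Q + 1) * C * p ≤ θ := by
      rw [div_le_iff₀ hθ] at hs
      linarith
    have h2 : 0 ≤ Q * (C * p) := by positivity
    nlinarith
  have h1 : 1 / (2 * C) * Z ≤ T + p * Z := hal.trans hfin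
  have h2 : Z ≤ 2 * C * T + 2 * C * p * Z := by
    have h3 : 2 * C * (1 / (2 * C) * Z) ≤ 2 * C * (T + p * Z) := mul_le_mul_of_nonneg_left h1 (by positivity)
    have h4 : 2 * C * (1 / (2 * C) * Z) = Z := by
      field_simp
    rw [h4] at h3
    linarith
  have h5 : 2 * C * p * Z ≤ 1 / 2 * Z := mul_le_mul_of_nonneg_right (by linarith) hZ0
  linarith

theorem Z_le {V Λ ι : Type} [Fintype V] [DecidableEq V] [Fintype Λ] [DecidableEq Λ] [Fintype ι] {d l q h : ℕ}
    (hd : 1 ≤ d) (hR : Rg d q) {X X' : SimpleGraph V} {ev : V → Prop} {G : SimpleGraph Λ} {lv : Λ → ℕ}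
    {i : Bool → Λ → V} {κ : ι → BxV d l → Λ} (hP : Par X ev) (hL : Layer h X X' ev G lv i) (hl : Even l) (hl2 : 2 ≤ l)
    (hC : Cells d l G (fun p => ev (i false p)) κ) (hlv : ∀ j u, 1 ≤ lv (κ j u) ∧ lv (κ j u) + 2 ≤ h)
    (hι : 1 ≤ Fintype.card ι) (A₀ : Finset (Fin q)) (hA : A₀.card = q / 2) (K' : ℕ) (θ c : ℝ) (hθ : 0 < θ) (hθ1 : θ ≤ 1)
    (hK : 1 / (d : ℝ) ^ K' < θ / 2) (hc0 : 0 ≤ c)
    (hc : ∀ S : Finset (ι × Bool), cG X (fun F : V → Fin q => ∀ jb ∈ S, EvB K' (fun u => F (i jb.2 (κ jb.1 u)))) ≤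
      cG X (fun _ : V → Fin q => True) * Real.exp (-(S.card * c)))
    (hs : 4 * ((q : ℝ) ^ 2 / 4 + 1) * cK d q (2 * Fintype.card Λ) *
      (2 ^ (2 * Fintype.card ι) * Real.exp (-(θ * Fintype.card ι * c))) / θ ≤ 1) :
    cG X (fun _ : V → Fin q => True) ≤ 4 * cK d q (2 * Fintype.card Λ) *
      cG X (fun F : V → Fin q =>
        ((At d G (fun p => ev (i false p)) A₀ (fb i F false) (fb i F true)).card : ℝ) ≤
          ((Fintype.card Λ : ℝ) - Fintype.card ι * ((l : ℝ) + 1) ^ d) +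
          Fintype.card ι * (8 * d * ((l : ℝ) + 1) ^ (d - 1)) +
          (2 * d + 1) * (θ * Fintype.card ι * ((l : ℝ) + 1) ^ d + 2 * Fintype.card ι * (l : ℝ) ^ d / (d : ℝ) ^ K' +
            22 * ((q : ℝ) ^ 2 / 4 + 1) * θ * (2 * Fintype.card ι * (l : ℝ) ^ d))) := by
  have hl1 : 1 ≤ l / 2 := by omega
  have hc2 := cells2 hL hC hlv
  have hmany := V18_many X i κ K' θ c hc0 (Fintype.card ι) rfl hc
  have hinj : Function.Injective (fun w : Bool × Λ => i w.1 w.2) := by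
    rintro ⟨b, p⟩ ⟨b', p'⟩ h
    obtain ⟨h1, h2⟩ := hL.inj b b' p p' h
    rw [h1, h2]
  have hUc : (univ.image (fun w : Bool × Λ => i w.1 w.2)).card = 2 * Fintype.card Λ := by
    rw [card_image_of_injective _ hinj, card_univ, Fintype.card_prod, Fintype.card_bool]
  have hpar : ∀ (w : (ι × Bool) × (Fin d → Fin (l / 2))) (a b : Bt d),
      ev (i w.1.2 (κ w.1.1 (bpt w.2 a b))) ↔ ¬ od a b := fun w a b => (hc2.par w.1 _).trans (bpt_par w.2 a b)
  have hUm : ∀ (w : (ι × Bool) × (Fin d → Fin (l / 2))) (a b : Bt d),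
      i w.1.2 (κ w.1.1 (bpt w.2 a b)) ∈ univ.image (fun w : Bool × Λ => i w.1 w.2) := fun w a b => by
    rw [mem_image]
    exact ⟨(w.1.2, κ w.1.1 (bpt w.2 a b)), mem_univ _, rfl⟩
  have hal := alignG hd hR V ((ι × Bool) × (Fin d → Fin (l / 2))) X ev hP
    (fun w a b => i w.1.2 (κ w.1.1 (bpt w.2 a b))) hpar (V18_fib hc2) (univ.image (fun w : Bool × Λ => i w.1 w.2)) hUm
    A₀ hA θ (2 ^ (2 * Fintype.card ι) * Real.exp (-(θ * Fintype.card ι * c))) hθ hθ1
    ((V18_hevent X i κ K' θ hι hl1 hd hK).trans hmany) (by rw [hUc]; exact hs)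
  rw [hUc] at hal
  refine V18_arith (Nat.cast_nonneg _) (by unfold cK; positivity) (by positivity) hθ hθ1 (by positivity) hs hal ?_
  exact (V18_fin hl hC A₀ K' θ).trans (add_le_add le_rfl hmany)

end Pool.Agent.LC
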