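import Pool.Agent.Lib_MP_2c424f_lc5.Defs5n

/-!
# Part V, V19a: numbers for the alignment

`l = 2^s`, `C = C₁ + 2 K₂ + 20`, `θ = d^{-(K₂+4)}`, `c = l^d / d^{C₁}`.
`Y ≥ (l+1)^d / h ≥ 3^d / 2^{d/2} ≥ 1` (`h Y ≥ λ ≥ n (l+1)^d`, `h ≤ 2^{d/2}`).
`n l^d ≥ n (l+1)^d / (1 + 1/l)^d ≥ h Y / 4` (`(1+1/l)^d ≤ e^{d/l} ≤ 2`, `1 - 1/d^C ≥ 1/2`).
`2 n log 2 ≤ θ n c / 2` since `l^d ≥ l ≥ d^C ≥ 4 d^{C₁+K₂+4}`; so `2^{2n} e^{-θ n c} ≤ e^{-θ n c/2} ≤ e^{-h Y / (8 d^{C₁+K₂+4})}`, and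
`h ≥ d^{2C}` gives an exponent of at least `d^{10} Y`.
`cK d q (2λ) = 2^{q³ λ / 2^d}` (`sz = 2^d/(2q)`), `q ≤ d`, `λ ≤ h Y ≤ 2^{d/2} Y`: at most `e^{d³ 2^{-d/2} Y} ≤ e^Y`.
`4 (q²/4+1)/θ ≤ 4 d² d^{K₂+4}`.
-/

set_option autoImplicit false

open Finset Filter

namespace Pool.Agent.LC

open Pool.Agent.LO Pool.Agent.LIN Pool.Agent.THR Pool.Agent.COR

theorem num1 (K₂ C₁ : ℕ) : ∃ d₀ : ℕ, ∀ (d q s h n lam : ℕ) (Y : ℝ), d₀ ≤ d →
    NumH (C₁ + 2 * K₂ + 20) d q s h n lam Y →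
    4 * ((q : ℝ) ^ 2 / 4 + 1) * cK d q (2 * lam) *
      (2 ^ (2 * n) * Real.exp (-(1 / (d : ℝ) ^ (K₂ + 4) * n * (((2 : ℝ) ^ s) ^ d / (d : ℝ) ^ C₁)))) /
        (1 / (d : ℝ) ^ (K₂ + 4)) ≤ 1 := by
  refine ⟨8 * (K₂ + 9), fun d q s h n lam Y hd H => ?_⟩
  obtain ⟨⟨-, hq1, hq2⟩, h1, h2, h3, h4, h5, h6, h7⟩ := H
  have hD0 : (8 * ((K₂ : ℝ) + 9)) ≤ d := by exact_mod_cast hd
  have hK0 : (0 : ℝ) ≤ K₂ := Nat.cast_nonneg _
  have hD : (72 : ℝ) ≤ d := by linarith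
  have hD1 : (1 : ℝ) ≤ d := by linarith
  have hDp : (0 : ℝ) < d := by linarith
  have hdpos : 1 ≤ d := by omega
  have hqd : (q : ℝ) ≤ d := by
    have : q ≤ d := by omega
    exact_mod_cast this
  have hq0 : (0 : ℝ) < q := by
    have : 0 < q := by omega
    exact_mod_cast this
  have hn1 : (1 : ℝ) ≤ n := by exact_mod_cast h4
  set L : ℝ := (2 : ℝ) ^ s with hL
  set D : ℝ := (d : ℝ) with hDdef
  have hL1 : 1 ≤ L := one_le_pow₀ (by norm_num)
  have hLp : 0 < L := by linarith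
  -- powers of `D`
  have hDC2 : D ^ 2 ≤ D ^ (C₁ + 2 * K₂ + 20) := pow_le_pow_right₀ hD1 (by omega)
  have hDsq : 72 * D ≤ D ^ 2 := by
    rw [sq]
    exact mul_le_mul_of_nonneg_right hD hDp.le
  have hDC1 : 2 ≤ D ^ (C₁ + 2 * K₂ + 20) := by linarith
  have hDCp : 0 < D ^ (C₁ + 2 * K₂ + 20) := by linarith
  have hDCD : D ^ (C₁ + 2 * K₂ + 20) ≤ D ^ (C₁ + 2 * K₂ + 20) * D ^ (C₁ + 2 * K₂ + 20) :=
    le_mul_of_one_le_right hDCp.le (by linarith)
  have hL2 : 2 * D ≤ L := by linarith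
  -- `(L + 1)^d ≤ 2 L^d`
  have hpow : (L + 1) ^ d ≤ 2 * L ^ d := by
    have e1 : (L + 1) ^ d = L ^ d * (1 / L + 1) ^ d := by
      rw [← mul_pow]
      congr 1
      field_simp
      ring
    have e2 : (1 / L + 1) ^ d ≤ Real.exp (1 / L) ^ d :=
      pow_le_pow_left₀ (by positivity) (Real.add_one_le_exp _) _
    have e3 : Real.exp (1 / L) ^ d = Real.exp (d * (1 / L)) := (Real.exp_nat_mul _ _).symm
    have e4 : (d : ℝ) * (1 / L) ≤ 1 / 2 := by
      rw [mul_one_div, div_le_iff₀ hLp]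
      linarith
    have e5 : Real.exp (1 / 2) ≤ 2 := by
      have e6 : Real.exp (1 / 2) * Real.exp (1 / 2) = Real.exp 1 := by
        rw [← Real.exp_add]
        norm_num
      have e7 := Real.exp_one_lt_d9
      by_contra hcon
      push Not at hcon
      have e8 := mul_lt_mul'' hcon hcon (by norm_num) (by norm_num)
      linarith
    have e8 : (1 / L + 1) ^ d ≤ 2 := by
      rw [e3] at e2
      exact e2.trans ((Real.exp_le_exp.mpr e4).trans e5)
    rw [e1, mul_comm (2 : ℝ)]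
    exact mul_le_mul_of_nonneg_left e8 (by positivity)
  -- `Y ≥ h ≥ D^(2C)`
  have hH2 : D ^ (C₁ + 2 * K₂ + 20) * D ^ (C₁ + 2 * K₂ + 20) ≤ h :=
    (mul_le_mul_of_nonneg_right h1 hDCp.le).trans h2
  have hHD : D ≤ h := by linarith
  have hHp : (0 : ℝ) < h := by linarith
  have hlow : (2 : ℝ) ^ d ≤ n * (L + 1) ^ d := by
    have e1 : (2 : ℝ) ^ d ≤ (L + 1) ^ d := pow_le_pow_left₀ (by norm_num) (by linarith) _
    exact e1.trans (le_mul_of_one_le_left (by positivity) hn1)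
  have hYH : (h : ℝ) ≤ Y := by
    have e1 : (h : ℝ) * h ≤ h * Y := by
      calc (h : ℝ) * h = (h : ℝ) ^ 2 := (sq _).symm
        _ ≤ 2 ^ d := h3
        _ ≤ n * (L + 1) ^ d := hlow
        _ ≤ lam := h7
        _ ≤ h * Y := h5
    exact le_of_mul_le_mul_left e1 hHp
  have hY1 : 1 ≤ Y := by linarith
  -- the exponent
  set P : ℝ := D ^ (K₂ + 4 + C₁) with hP
  have hPp : 0 < P := by positivity
  have hexp : 1 / D ^ (K₂ + 4) * n * (L ^ d / D ^ C₁) = n * L ^ d / P := by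
    rw [hP, pow_add D (K₂ + 4) C₁]
    field_simp
  have hnL : h * Y / 4 ≤ n * L ^ d := by
    have e1 : 1 / D ^ (C₁ + 2 * K₂ + 20) ≤ 1 / 2 := one_div_le_one_div_of_le (by norm_num) hDC1
    have e2 : 0 ≤ h * Y := by positivity
    have e3 : h * Y / 2 ≤ n * (L + 1) ^ d := by
      refine le_trans ?_ h6
      have e5 := mul_le_mul_of_nonneg_left e1 e2
      calc h * Y / 2 = h * Y - h * Y * (1 / 2) := by ring
        _ ≤ h * Y - h * Y * (1 / D ^ (C₁ + 2 * K₂ + 20)) := by linarith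
        _ = h * Y * (1 - 1 / D ^ (C₁ + 2 * K₂ + 20)) := by ring
    have e4 : n * (L + 1) ^ d ≤ n * (2 * L ^ d) := mul_le_mul_of_nonneg_left hpow (by positivity)
    linarith
  have hCsplit : D ^ (C₁ + 2 * K₂ + 20) = P * D ^ (K₂ + 16) := by
    rw [hP, ← pow_add]
    congr 1
    ring
  have hD16 : D ^ 2 ≤ D ^ (K₂ + 16) := pow_le_pow_right₀ hD1 (by omega)
  have hD2 : 4 ≤ D ^ (K₂ + 16) := by linarith
  have hE1 : 4 * n ≤ n * L ^ d / P := by
    rw [le_div_iff₀ hPp]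
    have e1 : L ≤ L ^ d := le_self_pow₀ hL1 (by omega)
    have e2 : 4 * P ≤ L ^ d := by
      calc 4 * P = P * 4 := mul_comm _ _
        _ ≤ P * D ^ (K₂ + 16) := mul_le_mul_of_nonneg_left hD2 hPp.le
        _ = D ^ (C₁ + 2 * K₂ + 20) := hCsplit.symm
        _ ≤ L := h1
        _ ≤ L ^ d := e1
    calc 4 * (n : ℝ) * P = n * (4 * P) := by ring
      _ ≤ n * L ^ d := mul_le_mul_of_nonneg_left e2 (by linarith)
  have hE2 : D ^ 2 * Y / 4 ≤ n * L ^ d / P := by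
    rw [le_div_iff₀ hPp]
    refine le_trans ?_ hnL
    have e1 : P * D ^ 2 ≤ h := by
      calc P * D ^ 2 ≤ P * D ^ (K₂ + 16) := mul_le_mul_of_nonneg_left hD16 hPp.le
        _ = D ^ (C₁ + 2 * K₂ + 20) := hCsplit.symm
        _ ≤ D ^ (C₁ + 2 * K₂ + 20) * D ^ (C₁ + 2 * K₂ + 20) := hDCD
        _ ≤ h := hH2
    have e2 : P * D ^ 2 * Y ≤ h * Y := mul_le_mul_of_nonneg_right e1 (by linarith)
    calc D ^ 2 * Y / 4 * P = P * D ^ 2 * Y / 4 := by ring
      _ ≤ h * Y / 4 := by linarith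
  -- the factor `cK`
  have hcK : cK d q (2 * lam) ≤ Real.exp Y := by
    have e1 : (q : ℝ) ^ 2 / 4 * ((2 * lam : ℕ) : ℝ) / sz d q ≤ Y := by
      unfold sz
      have e2 : (q : ℝ) ^ 2 / 4 * ((2 * lam : ℕ) : ℝ) / ((2 : ℝ) ^ d / (2 * q)) =
          (q : ℝ) ^ 3 * lam / 2 ^ d := by
        push_cast
        field_simp
        ring
      rw [e2, div_le_iff₀ (by positivity)]
      have e3 : (q : ℝ) ^ 3 ≤ D ^ 3 := pow_le_pow_left₀ hq0.le hqd 3
      have e4 : D ^ 3 ≤ h := by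
        have e5 : D ^ 3 ≤ D ^ (C₁ + 2 * K₂ + 20) := pow_le_pow_right₀ hD1 (by omega)
        linarith
      have e7 : (0 : ℝ) ≤ lam := Nat.cast_nonneg _
      calc (q : ℝ) ^ 3 * lam ≤ h * (h * Y) :=
            mul_le_mul (e3.trans e4) h5 e7 hHp.le
        _ = Y * (h : ℝ) ^ 2 := by ring
        _ ≤ Y * 2 ^ d := mul_le_mul_of_nonneg_left h3 (by linarith)
    have e8 : cK d q (2 * lam) ≤ (2 : ℝ) ^ Y :=
      Real.rpow_le_rpow_of_exponent_le (by norm_num) e1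
    refine e8.trans ?_
    rw [Real.rpow_def_of_pos (by norm_num)]
    refine Real.exp_le_exp.mpr ?_
    have e9 := Real.log_two_lt_d9
    calc Real.log 2 * Y ≤ 1 * Y := mul_le_mul_of_nonneg_right (by linarith) (by linarith)
      _ = Y := one_mul _
  have h2n : (2 : ℝ) ^ (2 * n) ≤ Real.exp (n * L ^ d / P / 2) := by
    have e1 : (2 : ℝ) ≤ Real.exp 1 := by
      have := Real.add_one_le_exp (1 : ℝ)
      linarith
    calc (2 : ℝ) ^ (2 * n) ≤ Real.exp 1 ^ (2 * n) := pow_le_pow_left₀ (by norm_num) e1 _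
      _ = Real.exp (2 * n) := by
        rw [← Real.exp_nat_mul]
        congr 1
        push_cast
        ring
      _ ≤ _ := Real.exp_le_exp.mpr (by linarith)
  have hfirst : 4 * ((q : ℝ) ^ 2 / 4 + 1) ≤ Real.exp 3 * Real.exp D ^ 2 := by
    have e1 : (4 : ℝ) ≤ Real.exp 3 := by
      have := Real.add_one_le_exp (3 : ℝ)
      linarith
    have e2 : D ≤ Real.exp D := by
      have := Real.add_one_le_exp D
      linarith
    have e3 : (q : ℝ) ^ 2 / 4 + 1 ≤ D ^ 2 := by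
      have e5 : (q : ℝ) ^ 2 ≤ D ^ 2 := pow_le_pow_left₀ hq0.le hqd 2
      linarith
    have e4 : D ^ 2 ≤ Real.exp D ^ 2 := pow_le_pow_left₀ hDp.le e2 2
    exact mul_le_mul e1 (e3.trans e4) (by positivity) (by positivity)
  have hlast : D ^ (K₂ + 4) ≤ Real.exp D ^ (K₂ + 4) := by
    have e2 : D ≤ Real.exp D := by
      have := Real.add_one_le_exp D
      linarith
    exact pow_le_pow_left₀ hDp.le e2 _
  have hcK0 : 0 ≤ cK d q (2 * lam) := by unfold cK; positivity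
  rw [hexp, div_div_eq_mul_div, div_one]
  calc 4 * ((q : ℝ) ^ 2 / 4 + 1) * cK d q (2 * lam) *
        (2 ^ (2 * n) * Real.exp (-(n * L ^ d / P))) * D ^ (K₂ + 4)
      ≤ Real.exp 3 * Real.exp D ^ 2 * Real.exp Y *
        (Real.exp (n * L ^ d / P / 2) * Real.exp (-(n * L ^ d / P))) * Real.exp D ^ (K₂ + 4) := by
        gcongr
    _ = Real.exp (3 + 2 * D + Y + (n * L ^ d / P / 2 + -(n * L ^ d / P)) + (K₂ + 4) * D) := by
        rw [Real.exp_add, Real.exp_add, Real.exp_add, Real.exp_add, Real.exp_add]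
        congr 1
        · congr 2
          congr 1
          rw [← Real.exp_nat_mul]
          norm_num
        · rw [← Real.exp_nat_mul]
          congr 1
          push_cast
          ring
    _ ≤ Real.exp 0 := by
        refine Real.exp_le_exp.mpr ?_
        have e1 : D ^ 2 * Y / 8 ≤ n * L ^ d / P / 2 := by linarith
        have e2 : (K₂ + 9) * D * Y ≤ D ^ 2 * Y / 8 := by
          have : (K₂ + 9) * D ≤ D ^ 2 / 8 := by
            have e6 := mul_le_mul_of_nonneg_right hD0 hDp.le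
            rw [← sq] at e6
            linarith
          have := mul_le_mul_of_nonneg_right this (by linarith : (0 : ℝ) ≤ Y)
          linarith
        have e3 : (K₂ + 6) * D ≤ (K₂ + 6) * D * Y := by
          exact le_mul_of_one_le_right (by positivity) hY1
        have e4 : 3 + Y ≤ 3 * D * Y := by
          have e6 : 216 * Y ≤ 3 * D * Y := mul_le_mul_of_nonneg_right (by linarith) (by linarith)
          linarith
        have e5 : (K₂ + 9) * D * Y = (K₂ + 6) * D * Y + 3 * D * Y := by ring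
        linarith
    _ = 1 := Real.exp_zero

end Pool.Agent.LC
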