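import Pool.Agent.Lib_MP_2c424f_lc5.Defs5n

/-!
# Part V, V19b: numbers for the bound of the uncertified points

`l = 2^s`, `n (l+1)^d ≤ λ ≤ h Y` and `λ - n (l+1)^d ≤ h Y / d^C`;  `n 8 d (l+1)^{d-1} = (8d/(l+1)) n (l+1)^d ≤ 8 d h Y / d^C`;
`(2d+1)(θ + 2/d^{K₂+5} + 44 (q²/4+1) θ) h Y` with `θ = d^{-(K₂+4)}`, `q²/4 + 1 ≤ d²`: at most `150 d³ θ h Y ≤ (150/d) h Y/d^{K₂}`.
-/

set_option autoImplicit false

open Finset Filter

namespace Pool.Agent.LC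

open Pool.Agent.LO Pool.Agent.LIN Pool.Agent.THR Pool.Agent.COR

theorem num2 (K₂ C₁ : ℕ) : ∃ d₀ : ℕ, ∀ (d q s h n lam : ℕ) (Y : ℝ), d₀ ≤ d →
    NumH (C₁ + 2 * K₂ + 20) d q s h n lam Y →
    ((lam : ℝ) - n * ((2 : ℝ) ^ s + 1) ^ d) + n * (8 * d * ((2 : ℝ) ^ s + 1) ^ (d - 1)) +
      (2 * d + 1) * (1 / (d : ℝ) ^ (K₂ + 4) * n * ((2 : ℝ) ^ s + 1) ^ d +
        2 * n * ((2 : ℝ) ^ s) ^ d / (d : ℝ) ^ (K₂ + 5) +
        22 * ((q : ℝ) ^ 2 / 4 + 1) * (1 / (d : ℝ) ^ (K₂ + 4)) * (2 * n * ((2 : ℝ) ^ s) ^ d)) ≤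
      h * Y / (d : ℝ) ^ K₂ := by
  refine ⟨150, fun d q s h n lam Y hd H => ?_⟩
  obtain ⟨hR, h1, -, -, h4, h5, h6, h7⟩ := H
  have hD : (150 : ℝ) ≤ d := by exact_mod_cast hd
  have hq : (q : ℝ) ^ 2 / 4 + 1 ≤ (d : ℝ) ^ 2 := by
    have h8 : (1000 : ℝ) * q ≤ 2 * d := by exact_mod_cast hR.2.1
    have h9 : (0 : ℝ) ≤ q := Nat.cast_nonneg q
    nlinarith
  generalize (q : ℝ) ^ 2 / 4 + 1 = Q at hq ⊢
  have hQ : Q ≤ (d : ℝ) ^ 2 := hq
  have hl : (1 : ℝ) ≤ 2 ^ s := one_le_pow₀ (by norm_num)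
  have hn : (1 : ℝ) ≤ n := by exact_mod_cast h4
  have hpow : (((2 : ℝ) ^ s + 1) ^ (d - 1)) * ((2 : ℝ) ^ s + 1) = ((2 : ℝ) ^ s + 1) ^ d := by
    rw [← pow_succ]
    congr 1
    omega
  have hB : (n : ℝ) * ((2 : ℝ) ^ s) ^ d ≤ n * ((2 : ℝ) ^ s + 1) ^ d :=
    mul_le_mul_of_nonneg_left (pow_le_pow_left₀ (by linarith) (by linarith) d) (by linarith)
  have hB0 : 0 ≤ (n : ℝ) * ((2 : ℝ) ^ s) ^ d := by positivity
  have hG0 : 0 ≤ ((2 : ℝ) ^ s + 1) ^ (d - 1) := by positivity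
  generalize (2 : ℝ) ^ s = l at *
  generalize hW : (h : ℝ) * Y = W at *
  have hAW : n * (l + 1) ^ d ≤ W := h7.trans h5
  have hW0 : 0 ≤ W := hB0.trans (hB.trans hAW)
  have hP : 0 < (d : ℝ) ^ K₂ := by positivity
  have hC : (d : ℝ) ^ K₂ * (d : ℝ) ^ 2 ≤ (d : ℝ) ^ (C₁ + 2 * K₂ + 20) := by
    rw [← pow_add]
    exact pow_le_pow_right₀ (by linarith) (by omega)
  generalize (d : ℝ) ^ (C₁ + 2 * K₂ + 20) = M at *
  have hM : 0 < M := lt_of_lt_of_le (by positivity) hC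
  have e4 : (d : ℝ) ^ (K₂ + 4) = (d : ℝ) ^ K₂ * (d : ℝ) ^ 4 := pow_add _ _ _
  have e5 : (d : ℝ) ^ (K₂ + 5) = (d : ℝ) ^ K₂ * (d : ℝ) ^ 5 := pow_add _ _ _
  rw [e4, e5]
  generalize (d : ℝ) ^ K₂ = P at *
  generalize (d : ℝ) = D at *
  have hD0 : 0 < D := by linarith
  -- the first two terms
  have hWM : W / M ≤ W / (P * D ^ 2) := div_le_div_of_nonneg_left hW0 (by positivity) hC
  have t1 : (lam : ℝ) - n * (l + 1) ^ d ≤ W / M := by
    have : W * (1 - 1 / M) = W - W / M := by ring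
    linarith
  have t2 : n * (8 * D * (l + 1) ^ (d - 1)) ≤ 8 * D * (W / M) := by
    have h8 : (n : ℝ) * (l + 1) ^ (d - 1) ≤ W / M := by
      rw [le_div_iff₀ hM]
      have h9 : (n : ℝ) * (l + 1) ^ (d - 1) * M ≤ n * (l + 1) ^ (d - 1) * (l + 1) :=
        mul_le_mul_of_nonneg_left (by linarith) (by positivity)
      have h10 : (n : ℝ) * (l + 1) ^ (d - 1) * (l + 1) = n * (l + 1) ^ d := by
        rw [mul_assoc, hpow]
      linarith
    calc n * (8 * D * (l + 1) ^ (d - 1)) = 8 * D * (n * (l + 1) ^ (d - 1)) := by ring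
      _ ≤ 8 * D * (W / M) := mul_le_mul_of_nonneg_left h8 (by positivity)
  have t12 : W / M + 8 * D * (W / M) ≤ 9 * (W / P) / D := by
    have h8 : W / M + 8 * D * (W / M) ≤ 9 * D * (W / (P * D ^ 2)) := by
      have h9 : 0 ≤ W / M := by positivity
      nlinarith
    refine h8.trans (le_of_eq ?_)
    field_simp
  -- the third term
  have hθ : 0 < 1 / (P * D ^ 4) := by positivity
  have hθ5 : 1 / (P * D ^ 5) ≤ 1 / (P * D ^ 4) := by
    refine one_div_le_one_div_of_le (by positivity) ?_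
    refine mul_le_mul_of_nonneg_left ?_ hP.le
    exact pow_le_pow_right₀ (by linarith) (by norm_num)
  have t3 : 1 / (P * D ^ 4) * n * (l + 1) ^ d + 2 * n * l ^ d / (P * D ^ 5) +
      22 * Q * (1 / (P * D ^ 4)) * (2 * n * l ^ d) ≤ 47 * D ^ 2 * (1 / (P * D ^ 4)) * W := by
    have a1 : 1 / (P * D ^ 4) * n * (l + 1) ^ d ≤ 1 / (P * D ^ 4) * W := by
      rw [mul_assoc]
      exact mul_le_mul_of_nonneg_left hAW hθ.le
    have a2 : 2 * n * l ^ d / (P * D ^ 5) ≤ 2 * (1 / (P * D ^ 4) * W) := by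
      have b1 : 2 * n * l ^ d / (P * D ^ 5) = 2 * ((n * l ^ d) * (1 / (P * D ^ 5))) := by ring
      rw [b1]
      have b2 : (n * l ^ d) * (1 / (P * D ^ 5)) ≤ W * (1 / (P * D ^ 4)) :=
        mul_le_mul (hB.trans hAW) hθ5 (by positivity) hW0
      linarith
    have a3 : 22 * Q * (1 / (P * D ^ 4)) * (2 * n * l ^ d) ≤
        44 * D ^ 2 * (1 / (P * D ^ 4) * W) := by
      have b1 : 22 * Q * (1 / (P * D ^ 4)) * (2 * n * l ^ d) =
          44 * (Q * (1 / (P * D ^ 4) * (n * l ^ d))) := by ring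
      rw [b1]
      have b2 : Q * (1 / (P * D ^ 4) * (n * l ^ d)) ≤ D ^ 2 * (1 / (P * D ^ 4) * W) := by
        refine mul_le_mul hQ ?_ (by positivity) (by positivity)
        exact mul_le_mul_of_nonneg_left (hB.trans hAW) hθ.le
      linarith
    have a4 : 0 ≤ 1 / (P * D ^ 4) * W := by positivity
    have a5 : (1 : ℝ) ≤ D ^ 2 := by nlinarith
    nlinarith
  have t3' : (2 * D + 1) * (1 / (P * D ^ 4) * n * (l + 1) ^ d + 2 * n * l ^ d / (P * D ^ 5) +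
      22 * Q * (1 / (P * D ^ 4)) * (2 * n * l ^ d)) ≤ 141 * (W / P) / D := by
    have a1 : (0 : ℝ) ≤ 47 * D ^ 2 * (1 / (P * D ^ 4)) * W := by positivity
    refine (mul_le_mul_of_nonneg_left t3 (by linarith)).trans ?_
    have a2 : (2 * D + 1) * (47 * D ^ 2 * (1 / (P * D ^ 4)) * W) ≤
        3 * D * (47 * D ^ 2 * (1 / (P * D ^ 4)) * W) :=
      mul_le_mul_of_nonneg_right (by linarith) a1
    refine a2.trans (le_of_eq ?_)
    field_simp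
    ring
  have hfin : 150 * (W / P) / D ≤ W / P := by
    rw [div_le_iff₀ hD0]
    have : 0 ≤ W / P := by positivity
    nlinarith
  have hsum : 9 * (W / P) / D + 141 * (W / P) / D = 150 * (W / P) / D := by ring
  linarith

end Pool.Agent.LC
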