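import Pool.Agent.Lib_MP_2c424f_lc5.Defs5
import Pool.Agent.Lib_MP_2c424f_lc5.Defs5n

/-!
# Part V, V19c: numbers for the separating set

`rh = 200 a² e^{-a/2}`, `a = 2d/q ≥ 1000`: `rh ≤ e^{-400}` (e.g. `e^{a/4} ≥ a²·...`: `a² ≤ 2·16² e^{a/4}/...`; any crude bound: `x^2 ≤ 64 e^{x/4}`
for `x ≥ 0`, so `rh ≤ 12800 e^{-a/4} ≤ 12800 e^{-250} ≤ e^{-200}`).
`rh^{d²-d} (16 d²)^d ≤ e^{-200 (d²-d) + d log(16 d²)} ≤ e^{-d²}` for `d` large; the first term is at most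
`(4d+1) 2 (2d²+3) Y e^{-d²} ≤ Y/(2 d^{K+3})`; the second is `2(2d²+3) Y / d^{K+7} ≤ 10 Y/d^{K+5} ≤ Y/(2 d^{K+3})` (`h > 0`).
-/

set_option autoImplicit false

open Finset Filter

namespace Pool.Agent.LC

open Pool.Agent.LO Pool.Agent.LIN Pool.Agent.THR Pool.Agent.COR

private theorem V19c_q_pos {d q : ℕ} (hd : 1 ≤ d) (hR : Rg d q) : 1 ≤ q := by
  obtain ⟨_, _, h3⟩ := hR
  by_contra hq
  have : q = 0 := by omega
  subst this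
  omega

private theorem V19c_ra {d q : ℕ} (hR : Rg d q) (hq : 1 ≤ q) : 1000 ≤ ra d q ∧ ra d q ≤ 2000 := by
  obtain ⟨_, h2, h3⟩ := hR
  have hq' : (0 : ℝ) < q := by exact_mod_cast hq
  have h2' : (1000 : ℝ) * q ≤ 2 * d := by exact_mod_cast h2
  have h3' : (2 : ℝ) * d ≤ 2000 * q := by exact_mod_cast h3
  unfold ra
  constructor
  · rwa [le_div_iff₀ hq']
  · rwa [div_le_iff₀ hq']

private theorem V19c_exp2 (n : ℕ) : (2 : ℝ) ^ n ≤ Real.exp n := by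
  have h1 : (2 : ℝ) ≤ Real.exp 1 := by
    have := Real.add_one_le_exp (1 : ℝ)
    linarith
  have h2 : Real.exp (n : ℝ) = Real.exp 1 ^ n := by
    rw [← Real.exp_nat_mul, mul_one]
  rw [h2]
  exact pow_le_pow_left₀ (by norm_num) h1 n

theorem rh_le {d q : ℕ} (hd : 1 ≤ d) (hR : Rg d q) (hq : 1 ≤ q) : rh d q ≤ Real.exp (-200) := by
  obtain ⟨h1, h2⟩ := V19c_ra hR hq
  unfold rh
  have h3 : Real.exp (-ra d q / 2) ≤ Real.exp (-500) := Real.exp_le_exp.2 (by linarith)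
  have h4 : ra d q ^ 2 ≤ 2000 ^ 2 := pow_le_pow_left₀ (by linarith) h2 2
  have h5 : (2 : ℝ) ^ 30 ≤ Real.exp 300 := by
    have h0 := V19c_exp2 30
    have h0' : Real.exp ((30 : ℕ) : ℝ) ≤ Real.exp 300 := Real.exp_le_exp.2 (by norm_num)
    exact h0.trans h0'
  have h6 : Real.exp (-200) = Real.exp 300 * Real.exp (-500) := by
    rw [← Real.exp_add]
    norm_num
  rw [h6]
  have h7 : (200 : ℝ) * ra d q ^ 2 ≤ Real.exp 300 := by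
    refine le_trans ?_ h5
    calc (200 : ℝ) * ra d q ^ 2 ≤ 200 * 2000 ^ 2 := by linarith
      _ ≤ 2 ^ 30 := by norm_num
  exact mul_le_mul h7 h3 (Real.exp_pos _).le (Real.exp_pos _).le

private theorem V19c_rh_nonneg (d q : ℕ) : 0 ≤ rh d q := by
  unfold rh
  positivity

private theorem V19c_main {d q : ℕ} (hd : 2 ≤ d) (hR : Rg d q) :
    rh d q ^ (d ^ 2 - d) * ((4 * (d : ℝ)) ^ 2) ^ d ≤ Real.exp (-((d : ℝ) ^ 2)) := by
  have hq := V19c_q_pos (by omega) hR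
  have h1 := rh_le (by omega) hR hq
  have hdr : (2 : ℝ) ≤ d := by exact_mod_cast hd
  have hle : d ≤ d ^ 2 := by nlinarith
  have h2 : rh d q ^ (d ^ 2 - d) ≤ Real.exp (-200 * ((d : ℝ) ^ 2 - d)) := by
    have h3 : Real.exp (-200 * ((d : ℝ) ^ 2 - d)) = Real.exp (-200) ^ (d ^ 2 - d) := by
      rw [← Real.exp_nat_mul, Nat.cast_sub hle]
      push_cast
      ring_nf
    rw [h3]
    exact pow_le_pow_left₀ (V19c_rh_nonneg d q) h1 _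
  have h4 : 4 * (d : ℝ) ≤ Real.exp (2 + d) := by
    rw [Real.exp_add]
    have h5 : (4 : ℝ) ≤ Real.exp 2 := by
      have := V19c_exp2 2
      norm_num at this
      exact_mod_cast this
    have h6 : (d : ℝ) ≤ Real.exp d := by
      have := Real.add_one_le_exp (d : ℝ)
      linarith
    exact mul_le_mul h5 h6 (by positivity) (Real.exp_pos _).le
  have h7 : ((4 * (d : ℝ)) ^ 2) ^ d ≤ Real.exp (2 * d * (2 + d)) := by
    have h8 : Real.exp (2 * d * (2 + (d : ℝ))) = (Real.exp (2 + d) ^ 2) ^ d := by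
      rw [← pow_mul, ← Real.exp_nat_mul]
      push_cast
      ring_nf
    rw [h8]
    exact pow_le_pow_left₀ (by positivity) (pow_le_pow_left₀ (by positivity) h4 2) d
  calc rh d q ^ (d ^ 2 - d) * ((4 * (d : ℝ)) ^ 2) ^ d
      ≤ Real.exp (-200 * ((d : ℝ) ^ 2 - d)) * Real.exp (2 * d * (2 + d)) :=
        mul_le_mul h2 h7 (by positivity) (Real.exp_pos _).le
    _ = Real.exp (-200 * ((d : ℝ) ^ 2 - d) + 2 * d * (2 + d)) := (Real.exp_add _ _).symm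
    _ ≤ Real.exp (-((d : ℝ) ^ 2)) := Real.exp_le_exp.2 (by nlinarith)

theorem num3 (K : ℕ) : ∃ d₀ : ℕ, ∀ (d q h : ℕ) (Y : ℝ), d₀ ≤ d → Rg d q → 1 ≤ h → 0 ≤ Y →
    (4 * d + 1) * (2 * ((2 * ((d ^ 2 : ℕ) : ℝ) + 3) * Y * (rh d q ^ (d ^ 2 - d) * ((4 * d) ^ 2) ^ d))) +
      2 * (2 * ((d ^ 2 : ℕ) : ℝ) + 3) * (h * Y / (d : ℝ) ^ (K + 6)) / (h * d) ≤ Y / (d : ℝ) ^ (K + 3) := by
  -- `100 x^(K+6) ≤ e^x` for `x` large
  have hlim : Tendsto (fun x : ℝ => x ^ (K + 6) * Real.exp (-x)) atTop (nhds 0) :=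
    Real.tendsto_pow_mul_exp_neg_atTop_nhds_zero (K + 6)
  have hev : ∀ᶠ n : ℕ in atTop, (n : ℝ) ^ (K + 6) * Real.exp (-(n : ℝ)) < 1 / 100 :=
    (hlim.comp tendsto_natCast_atTop_atTop).eventually (gt_mem_nhds (by norm_num))
  obtain ⟨N, hN⟩ := eventually_atTop.1 hev
  refine ⟨max N 5, fun d q h Y hd hR hh hY => ?_⟩
  have hdN : N ≤ d := le_trans (le_max_left _ _) hd
  have hd5 : 5 ≤ d := le_trans (le_max_right _ _) hd
  have hdr : (5 : ℝ) ≤ d := by exact_mod_cast hd5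
  have hd0 : (0 : ℝ) < d := by linarith
  have hh0 : (0 : ℝ) < h := by exact_mod_cast hh
  have h1 := V19c_main (by omega) hR
  have h2 := hN d hdN
  have h3 : 100 * (d : ℝ) ^ (K + 6) ≤ Real.exp ((d : ℝ) ^ 2) := by
    rw [Real.exp_neg] at h2
    have h4 : (d : ℝ) ^ (K + 6) < 1 / 100 * Real.exp d := by
      rwa [← div_eq_mul_inv, div_lt_iff₀ (Real.exp_pos _)] at h2
    have h5 : Real.exp (d : ℝ) ≤ Real.exp ((d : ℝ) ^ 2) := Real.exp_le_exp.2 (by nlinarith)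
    linarith
  have hcast : ((d ^ 2 : ℕ) : ℝ) = (d : ℝ) ^ 2 := by push_cast; rfl
  rw [hcast]
  have hA : (4 * (d : ℝ) + 1) * (2 * ((2 * (d : ℝ) ^ 2 + 3) * Y * (rh d q ^ (d ^ 2 - d) * ((4 * (d : ℝ)) ^ 2) ^ d))) ≤
      Y / (2 * (d : ℝ) ^ (K + 3)) := by
    have h4 : (4 * (d : ℝ) + 1) * (2 * ((2 * (d : ℝ) ^ 2 + 3) * Y * (rh d q ^ (d ^ 2 - d) * ((4 * (d : ℝ)) ^ 2) ^ d))) ≤
        (5 * d) * (2 * ((5 * (d : ℝ) ^ 2) * Y * Real.exp (-((d : ℝ) ^ 2)))) := by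
      have h5 : 4 * (d : ℝ) + 1 ≤ 5 * d := by linarith
      have h6 : 2 * (d : ℝ) ^ 2 + 3 ≤ 5 * (d : ℝ) ^ 2 := by nlinarith
      have h7 : 0 ≤ rh d q ^ (d ^ 2 - d) * ((4 * (d : ℝ)) ^ 2) ^ d :=
        mul_nonneg (pow_nonneg (V19c_rh_nonneg d q) _) (by positivity)
      gcongr
    refine h4.trans ?_
    rw [le_div_iff₀ (by positivity), Real.exp_neg]
    have h8 : 0 < Real.exp ((d : ℝ) ^ 2) := Real.exp_pos _
    have h9 : 5 * (d : ℝ) * (2 * (5 * (d : ℝ) ^ 2 * Y * (Real.exp ((d : ℝ) ^ 2))⁻¹)) * (2 * (d : ℝ) ^ (K + 3)) =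
        Y * (100 * (d : ℝ) ^ (K + 6) / Real.exp ((d : ℝ) ^ 2)) := by
      rw [pow_add (d : ℝ) K 6, pow_add (d : ℝ) K 3]
      field_simp
      ring
    rw [h9]
    have h10 : 100 * (d : ℝ) ^ (K + 6) / Real.exp ((d : ℝ) ^ 2) ≤ 1 := (div_le_one h8).2 h3
    calc Y * (100 * (d : ℝ) ^ (K + 6) / Real.exp ((d : ℝ) ^ 2)) ≤ Y * 1 := by gcongr
      _ = Y := mul_one Y
  have hB : 2 * (2 * (d : ℝ) ^ 2 + 3) * (h * Y / (d : ℝ) ^ (K + 6)) / (h * d) ≤ Y / (2 * (d : ℝ) ^ (K + 3)) := by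
    have h4 : 2 * (2 * (d : ℝ) ^ 2 + 3) * (h * Y / (d : ℝ) ^ (K + 6)) / (h * d) =
        2 * (2 * (d : ℝ) ^ 2 + 3) * Y / ((d : ℝ) ^ (K + 3) * (d : ℝ) ^ 4) := by
      have e1 : (d : ℝ) ^ (K + 6) = (d : ℝ) ^ (K + 3) * (d : ℝ) ^ 3 := by rw [← pow_add]
      rw [e1]
      field_simp
    rw [h4, div_le_div_iff₀ (by positivity) (by positivity)]
    have h5 : 2 * (2 * (d : ℝ) ^ 2 + 3) * 2 ≤ (d : ℝ) ^ 4 := by
      have h25 : (25 : ℝ) ≤ (d : ℝ) ^ 2 := by nlinarith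
      have e2 : (d : ℝ) ^ 4 = (d : ℝ) ^ 2 * (d : ℝ) ^ 2 := by ring
      rw [e2]
      nlinarith
    have h6 : 0 ≤ Y * (d : ℝ) ^ (K + 3) := by positivity
    calc 2 * (2 * (d : ℝ) ^ 2 + 3) * Y * (2 * (d : ℝ) ^ (K + 3)) =
          (2 * (2 * (d : ℝ) ^ 2 + 3) * 2) * (Y * (d : ℝ) ^ (K + 3)) := by ring
      _ ≤ (d : ℝ) ^ 4 * (Y * (d : ℝ) ^ (K + 3)) := by gcongr
      _ = Y * ((d : ℝ) ^ (K + 3) * (d : ℝ) ^ 4) := by ring
  have hC : Y / (2 * (d : ℝ) ^ (K + 3)) + Y / (2 * (d : ℝ) ^ (K + 3)) = Y / (d : ℝ) ^ (K + 3) := by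
    field_simp
    ring
  linarith

end Pool.Agent.LC
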