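import Pool.Agent.Lib_MP_2c424f_lc5.Defs5n

/-!
# Part V, V19d: the final numbers

`s' = Y/d^{K+3}`, `L = (K+6) log d`, `e^{-L} = d^{-(K+6)}`.  `Y ≥ (l+1)^d/h ≥ d^{C d}/2^{d/2}` (as in V19a), so `8 h ≤ 2^{d+3} ≤ exp(Y/d^{K+1})`.
`cK d q (2λ) ≤ exp(d³ 2^{-d/2} Y) ≤ exp(Y/d^{K+1})` (V19a).  `L s' = (K+6) log d Y/d^{K+3} ≤ Y/d^{K+2}`,
`(2d²+3) Y e^{-L} ≤ 3 Y/d^{K+4}`, `16 d s'/q = 8 a s' ≤ 16000 Y/d^{K+3} ≤ Y/d^{K+2}`.  The sum of the exponents is at most `Y/d^K`.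
-/

set_option autoImplicit false

open Finset Filter

namespace Pool.Agent.LC

open Pool.Agent.LO Pool.Agent.LIN Pool.Agent.THR Pool.Agent.COR

private theorem V19d_log (K d : ℕ) (hd : 4 * (K + 6) ^ 2 ≤ d) : ((K : ℝ) + 6) * Real.log d ≤ d := by
  have hd' : 4 * ((K : ℝ) + 6) ^ 2 ≤ d := by exact_mod_cast hd
  have hK : (0 : ℝ) ≤ K := Nat.cast_nonneg K
  have hd0 : (0 : ℝ) < d := lt_of_lt_of_le (by positivity) hd'
  have h1 : Real.log (Real.sqrt d) = Real.log d / 2 := Real.log_sqrt hd0.le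
  have h2 : Real.log (Real.sqrt d) ≤ Real.sqrt d - 1 := Real.log_le_sub_one_of_pos (Real.sqrt_pos.2 hd0)
  have h3 : 2 * ((K : ℝ) + 6) ≤ Real.sqrt d := by
    apply Real.le_sqrt_of_sq_le
    nlinarith
  have h4 : Real.sqrt d * Real.sqrt d = d := Real.mul_self_sqrt hd0.le
  have h5 : Real.log d ≤ 2 * Real.sqrt d := by linarith
  have h6 : 0 ≤ Real.sqrt d := Real.sqrt_nonneg _
  calc ((K : ℝ) + 6) * Real.log d ≤ ((K : ℝ) + 6) * (2 * Real.sqrt d) :=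
        mul_le_mul_of_nonneg_left h5 (by positivity)
    _ = 2 * ((K : ℝ) + 6) * Real.sqrt d := by ring
    _ ≤ Real.sqrt d * Real.sqrt d := mul_le_mul_of_nonneg_right h3 h6
    _ = d := h4

private theorem V19d_exp (K d : ℕ) (hd : 1 ≤ d) :
    Real.exp (-(((K : ℝ) + 6) * Real.log d)) = 1 / (d : ℝ) ^ (K + 6) := by
  have hd0 : (0 : ℝ) < d := by exact_mod_cast hd
  have h1 : ((K : ℝ) + 6) * Real.log d = Real.log ((d : ℝ) ^ (K + 6)) := by
    rw [Real.log_pow]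
    push_cast
    ring
  rw [Real.exp_neg, h1, Real.exp_log (by positivity), one_div]

theorem num4 (K C₁ : ℕ) : ∃ d₀ : ℕ, ∀ (d q s h n lam : ℕ) (Y : ℝ), d₀ ≤ d →
    NumH (C₁ + 2 * (K + 6) + 20) d q s h n lam Y →
    4 * cK d q (2 * lam) * (2 * (h * Real.exp ((K + 6) * Real.log d * (Y / (d : ℝ) ^ (K + 3)) +
      (((2 * d ^ 2 + 2 : ℕ) : ℝ) + 1) * Y * Real.exp (-((K + 6) * Real.log d))) *
      Real.exp (16 * d * (Y / (d : ℝ) ^ (K + 3)) / q))) ≤ Real.exp (Y / (d : ℝ) ^ K) := by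
  refine ⟨4 * (K + 6) ^ 2 + 16000, ?_⟩
  rintro d q s h n lam Y hd ⟨⟨-, hR1, hR2⟩, h1, h2, h3, h4, h5, -, h7⟩
  obtain ⟨C, hC⟩ : ∃ C, C = C₁ + 2 * (K + 6) + 20 := ⟨_, rfl⟩
  rw [← hC] at h1 h2
  have hdn : 16000 ≤ d := le_trans (Nat.le_add_left _ _) hd
  have hq : 1 ≤ q := by omega
  have hD : (16000 : ℝ) ≤ d := by exact_mod_cast hdn
  have hD0 : (0 : ℝ) < d := by linarith
  have hD1 : (1 : ℝ) ≤ d := by linarith
  have hq0 : (0 : ℝ) < q := by exact_mod_cast hq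
  have hqd : (q : ℝ) ≤ d := by
    have : q ≤ d := by omega
    exact_mod_cast this
  have hdq : (d : ℝ) ≤ 1000 * q := by
    have : d ≤ 1000 * q := by omega
    exact_mod_cast this
  have hlog := V19d_log K d (by omega)
  have hexp := V19d_exp K d (by omega)
  -- the size of `h`
  have hs : (1 : ℝ) ≤ 2 ^ s := one_le_pow₀ (by norm_num)
  have hDC : (1 : ℝ) ≤ (d : ℝ) ^ C := one_le_pow₀ hD1
  have hh : (d : ℝ) ^ C ≤ h := le_trans (le_mul_of_one_le_left (by positivity) hs) h2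
  have hh0 : (0 : ℝ) < h := by linarith
  have hC4 : (d : ℝ) ^ (K + 4) ≤ (d : ℝ) ^ C := pow_le_pow_right₀ hD1 (by omega)
  -- the size of `Y`
  have hn : (1 : ℝ) ≤ n := by exact_mod_cast h4
  have hY1 : ((2 : ℝ) ^ s + 1) ^ d ≤ h * Y := by
    have e1 : ((2 : ℝ) ^ s + 1) ^ d ≤ n * ((2 : ℝ) ^ s + 1) ^ d := le_mul_of_one_le_left (by positivity) hn
    linarith
  have hhd : (h : ℝ) ≤ 2 ^ d := by
    have e1 : (h : ℝ) * 1 ≤ h ^ 2 := by
      rw [sq]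
      exact mul_le_mul_of_nonneg_left (by linarith) hh0.le
    linarith
  have hY0 : 0 < Y := by
    have e1 : 0 < (h : ℝ) * Y := lt_of_lt_of_le (by positivity) hY1
    exact (pos_iff_pos_of_mul_pos e1).1 hh0
  have hY2 : (d : ℝ) ^ (K + 4) / 2 ≤ Y := by
    have e1 : (2 : ℝ) ^ d * Y ≥ h * Y := mul_le_mul_of_nonneg_right hhd hY0.le
    have e2 : ((d : ℝ) ^ C) ^ d ≤ ((2 : ℝ) ^ s + 1) ^ d := pow_le_pow_left₀ (by positivity) (by linarith) d
    have e3 : ((d : ℝ) ^ C) ^ d ≤ 2 ^ d * Y := by linarith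
    have e4 : ((d : ℝ) ^ C / 2) ^ d ≤ Y := by
      rw [div_pow, div_le_iff₀ (by positivity)]
      linarith
    have e5 : (1 : ℝ) ≤ (d : ℝ) ^ C / 2 := by
      have e6 : (d : ℝ) ^ 1 ≤ (d : ℝ) ^ C := pow_le_pow_right₀ hD1 (by omega)
      rw [pow_one] at e6
      linarith
    have e7 : (d : ℝ) ^ C / 2 ≤ ((d : ℝ) ^ C / 2) ^ d := le_self_pow₀ e5 (by omega)
    linarith
  obtain ⟨X, hX⟩ : ∃ X, X = Y / (d : ℝ) ^ (K + 1) := ⟨_, rfl⟩
  have hX0 : 0 ≤ X := by rw [hX]; positivity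
  -- `8 h`
  have f1 : 8 * (h : ℝ) ≤ Real.exp X := by
    have e1 : (d : ℝ) ^ (K + 4) / 2 / (d : ℝ) ^ (K + 1) ≤ X := by
      rw [hX]
      exact div_le_div_of_nonneg_right hY2 (by positivity)
    have e2 : (d : ℝ) ^ (K + 4) / 2 / (d : ℝ) ^ (K + 1) = (d : ℝ) ^ 3 / 2 := by
      rw [show K + 4 = (K + 1) + 3 by ring, pow_add]
      field_simp
    have e3 : 2 * (d : ℝ) ≤ (d : ℝ) ^ 3 / 2 := by
      have : (d : ℝ) ^ 3 = d * d * d := by ring
      rw [this]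
      nlinarith
    have e4 : 2 * (d : ℝ) ≤ X := by linarith
    have e5 : (8 : ℝ) ≤ 2 ^ d := by
      have e6 : (2 : ℝ) ^ 3 ≤ 2 ^ d := pow_le_pow_right₀ (by norm_num) (by omega)
      linarith
    have e7 : (2 : ℝ) ^ d ≤ Real.exp d := by
      have e8 : (2 : ℝ) ≤ Real.exp 1 := by
        have := Real.add_one_le_exp (1 : ℝ)
        linarith
      calc (2 : ℝ) ^ d ≤ (Real.exp 1) ^ d := pow_le_pow_left₀ (by norm_num) e8 d
        _ = Real.exp d := by rw [← Real.exp_nat_mul, mul_one]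
    calc 8 * (h : ℝ) ≤ 2 ^ d * 2 ^ d := mul_le_mul e5 hhd hh0.le (by positivity)
      _ ≤ Real.exp d * Real.exp d := mul_le_mul e7 e7 (by positivity) (Real.exp_nonneg _)
      _ = Real.exp (2 * d) := by rw [← Real.exp_add]; ring_nf
      _ ≤ Real.exp X := Real.exp_le_exp.2 e4
  -- `cK`
  have f2 : cK d q (2 * lam) ≤ Real.exp X := by
    unfold cK sz
    have e1 : (q : ℝ) ^ 2 / 4 * ((2 * lam : ℕ) : ℝ) / (2 ^ d / (2 * q)) = (q : ℝ) ^ 3 * lam / 2 ^ d := by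
      push_cast
      field_simp
      ring
    rw [e1]
    have e2 : (q : ℝ) ^ 3 * lam / 2 ^ d ≤ X := by
      have g1 : (q : ℝ) ^ 3 ≤ (d : ℝ) ^ 3 := pow_le_pow_left₀ hq0.le hqd 3
      have g2 : (q : ℝ) ^ 3 * lam ≤ (d : ℝ) ^ 3 * (h * Y) :=
        mul_le_mul g1 h5 (Nat.cast_nonneg _) (by positivity)
      rw [hX, div_le_div_iff₀ (by positivity) (by positivity)]
      calc (q : ℝ) ^ 3 * lam * (d : ℝ) ^ (K + 1) ≤ (d : ℝ) ^ 3 * (h * Y) * (d : ℝ) ^ (K + 1) :=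
            mul_le_mul_of_nonneg_right g2 (by positivity)
        _ = Y * (h * (d : ℝ) ^ (K + 4)) := by ring
        _ ≤ Y * (h * h) := by
            refine mul_le_mul_of_nonneg_left ?_ hY0.le
            exact mul_le_mul_of_nonneg_left (le_trans hC4 hh) hh0.le
        _ = Y * (h : ℝ) ^ 2 := by ring
        _ ≤ Y * 2 ^ d := mul_le_mul_of_nonneg_left h3 hY0.le
    have e3 : 0 ≤ (q : ℝ) ^ 3 * lam / 2 ^ d := by positivity
    have e4 : Real.log 2 ≤ 1 := by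
      have := Real.log_le_sub_one_of_pos (show (0 : ℝ) < 2 by norm_num)
      linarith
    rw [Real.rpow_def_of_pos (by norm_num)]
    apply Real.exp_le_exp.2
    calc Real.log 2 * ((q : ℝ) ^ 3 * lam / 2 ^ d) ≤ 1 * ((q : ℝ) ^ 3 * lam / 2 ^ d) :=
          mul_le_mul_of_nonneg_right e4 e3
      _ ≤ X := by rw [one_mul]; exact e2
  -- the exponents
  have hX3 : Y / (d : ℝ) ^ (K + 3) = X / (d : ℝ) ^ 2 := by
    rw [hX, show K + 3 = (K + 1) + 2 by ring, pow_add]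
    field_simp
  have f3 : ((K : ℝ) + 6) * Real.log d * (Y / (d : ℝ) ^ (K + 3)) ≤ X / d := by
    rw [hX3]
    calc ((K : ℝ) + 6) * Real.log d * (X / (d : ℝ) ^ 2) ≤ d * (X / (d : ℝ) ^ 2) :=
          mul_le_mul_of_nonneg_right hlog (by positivity)
      _ = X / d := by field_simp
  have f4 : (((2 * d ^ 2 + 2 : ℕ) : ℝ) + 1) * Y * Real.exp (-(((K : ℝ) + 6) * Real.log d)) ≤ X / d := by
    rw [hexp]
    have e1 : Y = X * (d : ℝ) ^ (K + 1) := by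
      rw [hX]
      field_simp
    have e2 : (((2 * d ^ 2 + 2 : ℕ) : ℝ) + 1) * Y * (1 / (d : ℝ) ^ (K + 6)) =
        (2 * (d : ℝ) ^ 2 + 3) * X / (d : ℝ) ^ 5 := by
      rw [e1, show K + 6 = (K + 1) + 5 by ring, pow_add]
      push_cast
      field_simp
      ring
    rw [e2, div_le_div_iff₀ (by positivity) hD0]
    have e3 : (2 * (d : ℝ) ^ 2 + 3) * d ≤ (d : ℝ) ^ 5 := by
      have g1 : 2 * (d : ℝ) ^ 2 + 3 ≤ (d : ℝ) ^ 3 := by nlinarith [sq_nonneg (d : ℝ)]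
      have g2 : (d : ℝ) ^ 3 * d ≤ (d : ℝ) ^ 5 := by
        rw [← pow_succ]
        exact pow_le_pow_right₀ hD1 (by omega)
      exact le_trans (mul_le_mul_of_nonneg_right g1 hD0.le) g2
    calc (2 * (d : ℝ) ^ 2 + 3) * X * d = X * ((2 * (d : ℝ) ^ 2 + 3) * d) := by ring
      _ ≤ X * (d : ℝ) ^ 5 := mul_le_mul_of_nonneg_left e3 hX0
  have f5 : 16 * d * (Y / (d : ℝ) ^ (K + 3)) / q ≤ X / d := by
    rw [hX3, div_le_iff₀ hq0]
    have e1 : 16 * (d : ℝ) * (X / (d : ℝ) ^ 2) = X / d * 16 := by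
      field_simp
    rw [e1]
    refine mul_le_mul_of_nonneg_left ?_ (by positivity)
    linarith
  have hXd : X / d ≤ X / 5 := div_le_div_of_nonneg_left hX0 (by norm_num) (by linarith)
  have hfin : 5 * X ≤ Y / (d : ℝ) ^ K := by
    have e1 : Y / (d : ℝ) ^ K = X * d := by
      rw [hX, pow_succ]
      field_simp
    rw [e1, mul_comm]
    exact mul_le_mul_of_nonneg_left (by linarith) hX0
  obtain ⟨E1, hE1⟩ : ∃ E1, E1 = ((K : ℝ) + 6) * Real.log d * (Y / (d : ℝ) ^ (K + 3)) := ⟨_, rfl⟩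
  obtain ⟨E2, hE2⟩ : ∃ E2, E2 = (((2 * d ^ 2 + 2 : ℕ) : ℝ) + 1) * Y *
    Real.exp (-(((K : ℝ) + 6) * Real.log d)) := ⟨_, rfl⟩
  obtain ⟨E3, hE3⟩ : ∃ E3, E3 = 16 * d * (Y / (d : ℝ) ^ (K + 3)) / q := ⟨_, rfl⟩
  rw [← hE1, ← hE2, ← hE3]
  rw [← hE1] at f3
  rw [← hE2] at f4
  rw [← hE3] at f5
  have hcK : 0 ≤ cK d q (2 * lam) := by
    unfold cK
    positivity
  calc 4 * cK d q (2 * lam) * (2 * (h * Real.exp (E1 + E2) * Real.exp E3))
      = (8 * h) * cK d q (2 * lam) * (Real.exp (E1 + E2) * Real.exp E3) := by ring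
    _ ≤ Real.exp X * Real.exp X * (Real.exp (E1 + E2) * Real.exp E3) := by
        refine mul_le_mul_of_nonneg_right ?_ (by positivity)
        exact mul_le_mul f1 f2 hcK (Real.exp_nonneg _)
    _ = Real.exp (X + X + (E1 + E2 + E3)) := by
        rw [← Real.exp_add, ← Real.exp_add, ← Real.exp_add]
    _ ≤ Real.exp (Y / (d : ℝ) ^ K) := by
        apply Real.exp_le_exp.2
        linarith

end Pool.Agent.LC
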