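import Pool.Agent.Lib_MP_2c424f_lc.PII
import Pool.Agent.Lib_MP_2c424f_lc5.V17
import Pool.Agent.Lib_MP_2c424f_lc5.V18
import Pool.Agent.Lib_MP_2c424f_lc5.V19a
import Pool.Agent.Lib_MP_2c424f_lc5.V19b
import Pool.Agent.Lib_MP_2c424f_lc5.V19c
import Pool.Agent.Lib_MP_2c424f_lc5.V19d

/-!
# Part V, V20: the switching theorem

`C₁` from `cells_rare (K + 11)`, `K₂ = K + 6`, `C = C₁ + 2 K₂ + 20`, `d₀` the maximum of the bounds of `num1 K₂ C₁`, `num2 K₂ C₁`, `num3 K`,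
`num4 K C₁`, `cells_rare` and 1000.  Let `l = 2^s`, `n = |ι|`, `λ = |Λ|`.
`λ ≤ h Y` (levels `0, …, h-1`, each of size `≤ Y`), `n (l+1)^d ≤ λ` (`Cells.inj`).
If `n = 0` then `h Y (1 - 1/d^C) ≤ 0`, so `Y ≤ 0` (and `Y ≥ 0`), every level is empty, `Λ` is empty and `X' = X` (`Layer.oo`): equality.
Otherwise `NumH C d q s h n λ Y`.  Fix `A₀` with `q/2` elements.  `cells2` and `cells_rare` give `hc` of `Z_le` with `c = l^d/d^{C₁}`
(`C₁ ≤ C` for the hypothesis `d^{C₁} ≤ 2^s`), `num1` gives `hs`, `num2` bounds the threshold by `t = h Y/d^{K₂}` (monotonicity of `cG` in the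
event).  `Q_le` with `n₁ = d²`, `m = d`, `s = Y/d^{K+3}` (`num3`, `rh_le`), `DD_card` with `L = (K+6) log d`, `num4`.
-/

set_option autoImplicit false

open Finset Filter

namespace Pool.Agent.LC

open Pool.Agent.LO Pool.Agent.LIN Pool.Agent.THR Pool.Agent.COR

private theorem V20_nn {V : Type} [Fintype V] [DecidableEq V] {q : ℕ} (X : SimpleGraph V)
    (P : (V → Fin q) → Prop) : 0 ≤ cG X P := Nat.cast_nonneg _

open scoped Classical in
private theorem V20_mono {V : Type} [Fintype V] [DecidableEq V] {q : ℕ} (X : SimpleGraph V)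
    (P Q : (V → Fin q) → Prop) (h : ∀ F, P F → Q F) : cG X P ≤ cG X Q := by
  unfold cG
  have h1 : (univ.filter fun f : V → Fin q => PrG X f ∧ P f) ⊆
      (univ.filter fun f : V → Fin q => PrG X f ∧ Q f) := by
    intro F hF
    rw [mem_filter] at hF ⊢
    exact ⟨hF.1, hF.2.1, h F hF.2.2⟩
  exact_mod_cast card_le_card h1

private theorem V20_card {Λ : Type} [Fintype Λ] (lv : Λ → ℕ) (h : ℕ) (hlt : ∀ p, lv p < h) (Y : ℝ)
    (hY : ∀ l, ((univ.filter fun p : Λ => lv p = l).card : ℝ) ≤ Y) :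
    (Fintype.card Λ : ℝ) ≤ h * Y := by
  have h1 : (univ : Finset Λ).card = ∑ l ∈ range h, (univ.filter fun p : Λ => lv p = l).card :=
    card_eq_sum_card_fiberwise (fun p _ => mem_coe.2 (mem_range.2 (hlt p)))
  rw [← card_univ, h1, Nat.cast_sum]
  calc ∑ l ∈ range h, ((univ.filter fun p : Λ => lv p = l).card : ℝ) ≤ ∑ _l ∈ range h, Y :=
        sum_le_sum fun l _ => hY l
    _ = h * Y := by rw [sum_const, card_range, nsmul_eq_mul]

private theorem V20_inj {ι Λ : Type} [Fintype ι] [Fintype Λ] {d l : ℕ} {G : SimpleGraph Λ}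
    {ev : Λ → Prop} {κ : ι → BxV d l → Λ} (hC : Cells d l G ev κ) :
    Fintype.card ι * (l + 1) ^ d ≤ Fintype.card Λ := by
  have h1 : Fintype.card (ι × BxV d l) ≤ Fintype.card Λ :=
    Fintype.card_le_of_injective (fun p => κ p.1 p.2) (fun p p' hpp => by
      obtain ⟨h1, h2⟩ := hC.inj _ _ _ _ hpp
      exact Prod.ext h1 h2)
  rw [Fintype.card_prod] at h1
  have h2 : Fintype.card (BxV d l) = (l + 1) ^ d := by
    simp [BxV]
  rw [h2] at h1
  exact h1

private theorem V20_cK (d q u : ℕ) : 0 ≤ cK d q u := by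
  unfold cK
  exact (Real.rpow_pos_of_pos (by norm_num) _).le

open scoped Classical in
theorem switchA (K : ℕ) : ∃ C d₀ : ℕ, ∀ d q : ℕ, d₀ ≤ d → Rg d q → ∀ s h : ℕ, (d : ℝ) ^ C ≤ 2 ^ s →
    (2 : ℝ) ^ s * (d : ℝ) ^ C ≤ h → (h : ℝ) ^ 2 ≤ 2 ^ d →
    ∀ (V Λ ι : Type) [Fintype V] [DecidableEq V] [Fintype Λ] [DecidableEq Λ] [Fintype ι]
      (X X' : SimpleGraph V) (ev : V → Prop) (G : SimpleGraph Λ) (lv : Λ → ℕ) (i : Bool → Λ → V)
      (κ : ι → BxV d (2 ^ s) → Λ) (Y : ℝ),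
      Par X ev → Par X' ev → (∀ v, (nb X v).card ≤ 4 * d) → (∀ v, (nb X' v).card ≤ 4 * d) →
      Layer h X X' ev G lv i → Cells d (2 ^ s) G (fun p => ev (i false p)) κ →
      (∀ j u, 1 ≤ lv (κ j u) ∧ lv (κ j u) + 2 ≤ h) →
      (∀ l, ((univ.filter fun p : Λ => lv p = l).card : ℝ) ≤ Y) →
      h * Y * (1 - 1 / (d : ℝ) ^ C) ≤ Fintype.card ι * ((2 : ℝ) ^ s + 1) ^ d →
      cG X (fun _ : V → Fin q => True) ≤ Real.exp (Y / (d : ℝ) ^ K) * cG X' (fun _ : V → Fin q => True) := by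
  obtain ⟨C₁, dc, hcr⟩ := cells_rare (K + 6 + 5)
  obtain ⟨e1, hn1⟩ := num1 (K + 6) C₁
  obtain ⟨e2, hn2⟩ := num2 (K + 6) C₁
  obtain ⟨e3, hn3⟩ := num3 K
  obtain ⟨e4, hn4⟩ := num4 K C₁
  refine ⟨C₁ + 2 * (K + 6) + 20, dc + e1 + e2 + e3 + e4 + 4000, ?_⟩
  intro d q hd hR s h hs1 hs2 hs3 V Λ ι _ _ _ _ _ X X' ev G lv i κ Y hP hP' hdeg hdeg' hL hC hlv hY hcov
  have hd4 : 4000 ≤ d := by omega
  have hdR : (4000 : ℝ) ≤ d := by exact_mod_cast hd4
  have hd1R : (1 : ℝ) ≤ d := by linarith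
  have hd0 : (0 : ℝ) < d := by linarith
  have hY0 : 0 ≤ Y := le_trans (Nat.cast_nonneg _) (hY 0)
  have hC3 : (d : ℝ) ^ 3 ≤ (d : ℝ) ^ (C₁ + 2 * (K + 6) + 20) :=
    pow_le_pow_right₀ hd1R (by omega)
  have hC2 : (2 : ℝ) ≤ (d : ℝ) ^ (C₁ + 2 * (K + 6) + 20) := by
    calc (2 : ℝ) ≤ d := by linarith
      _ = (d : ℝ) ^ 1 := (pow_one _).symm
      _ ≤ _ := pow_le_pow_right₀ hd1R (by omega)
  have hl2 : (2 : ℝ) ≤ 2 ^ s := hC2.trans hs1
  have hhC : (d : ℝ) ^ (C₁ + 2 * (K + 6) + 20) ≤ h := by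
    refine le_trans ?_ hs2
    have h0 : (0 : ℝ) ≤ (d : ℝ) ^ (C₁ + 2 * (K + 6) + 20) := by positivity
    nlinarith
  have hh0 : (0 : ℝ) < h := by linarith
  have hlam : (Fintype.card Λ : ℝ) ≤ h * Y := V20_card lv h hL.lt Y hY
  have hinj : (Fintype.card ι : ℝ) * ((2 : ℝ) ^ s + 1) ^ d ≤ Fintype.card Λ := by
    have h1 := V20_inj hC
    exact_mod_cast h1
  rcases Nat.eq_zero_or_pos (Fintype.card ι) with hn | hn
  · have h1 : h * Y * (1 - 1 / (d : ℝ) ^ (C₁ + 2 * (K + 6) + 20)) ≤ 0 := by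
      rw [hn] at hcov
      simpa using hcov
    have h2 : 0 < 1 - 1 / (d : ℝ) ^ (C₁ + 2 * (K + 6) + 20) := by
      have h21 : 1 / (d : ℝ) ^ (C₁ + 2 * (K + 6) + 20) ≤ 1 / 2 :=
        one_div_le_one_div_of_le (by norm_num) hC2
      linarith
    have h3 : h * Y ≤ 0 := by
      by_contra hc
      push Not at hc
      exact absurd h1 (not_le.2 (mul_pos hc h2))
    have h4 : (Fintype.card Λ : ℝ) ≤ 0 := hlam.trans h3
    have h5 : Fintype.card Λ = 0 := by
      have h51 : Fintype.card Λ ≤ 0 := by exact_mod_cast h4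
      omega
    haveI : IsEmpty Λ := Fintype.card_eq_zero_iff.1 h5
    have h6 : X' = X := by
      ext v w
      exact hL.oo v w (fun _ p' => isEmptyElim p') (fun _ p' => isEmptyElim p')
    rw [h6]
    have h7 : 1 ≤ Real.exp (Y / (d : ℝ) ^ K) := Real.one_le_exp (by positivity)
    have h8 := V20_nn X (fun _ : V → Fin q => True)
    nlinarith
  · have hN : NumH (C₁ + 2 * (K + 6) + 20) d q s h (Fintype.card ι) (Fintype.card Λ) Y :=
      ⟨hR, hs1, hs2, hs3, hn, hlam, hcov, hinj⟩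
    have hqd : 2 ≤ q := by
      have h1 := hR.2.2
      omega
    have hs0 : 1 ≤ s := by
      rcases Nat.eq_zero_or_pos s with h0 | h0
      · rw [h0] at hl2
        norm_num at hl2
      · exact h0
    have hlev : Even (2 ^ s) := Nat.even_pow.2 ⟨even_two, by omega⟩
    have hl2n : 2 ≤ 2 ^ s := by exact_mod_cast hl2
    obtain ⟨A₀, hA₀⟩ : ∃ A₀ : Finset (Fin q), A₀.card = q / 2 := by
      obtain ⟨A, _, hA⟩ := exists_subset_card_eq (s := (univ : Finset (Fin q))) (n := q / 2)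
        (by rw [card_univ, Fintype.card_fin]; omega)
      exact ⟨A, hA⟩
    have hcr' : ∀ S : Finset (ι × Bool),
        cG X (fun F : V → Fin q => ∀ jb ∈ S, EvB (K + 6 + 5) (fun u => F (i jb.2 (κ jb.1 u)))) ≤
        cG X (fun _ : V → Fin q => True) *
          Real.exp (-(S.card * (((2 : ℝ) ^ s) ^ d / (d : ℝ) ^ C₁))) := by
      intro S
      have h1 := hcr d q (by omega) hR s (le_trans (pow_le_pow_right₀ hd1R (by omega)) hs1) V
        (ι × Bool) X ev (fun jb u => i jb.2 (κ jb.1 u)) hP (cells2 hL hC hlv) hdeg S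
      rw [mul_div_assoc] at h1
      exact h1
    have hθ0 : (0 : ℝ) < 1 / (d : ℝ) ^ (K + 6 + 4) := by positivity
    have hθ1 : (1 : ℝ) / (d : ℝ) ^ (K + 6 + 4) ≤ 1 := by
      rw [div_le_one (by positivity)]
      exact one_le_pow₀ hd1R
    have hK : 1 / (d : ℝ) ^ (K + 6 + 5) < 1 / (d : ℝ) ^ (K + 6 + 4) / 2 := by
      rw [div_div]
      refine one_div_lt_one_div_of_lt (by positivity) ?_
      have h0 : (0 : ℝ) < (d : ℝ) ^ (K + 6 + 4) := by positivity
      have h1 : (d : ℝ) ^ (K + 6 + 5) = (d : ℝ) ^ (K + 6 + 4) * d := by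
        rw [← pow_succ]
      rw [h1]
      nlinarith
    have hZ := Z_le (h := h) (by omega : 1 ≤ d) hR hP hL hlev hl2n hC hlv hn A₀ hA₀ (K + 6 + 5)
      (1 / (d : ℝ) ^ (K + 6 + 4)) (((2 : ℝ) ^ s) ^ d / (d : ℝ) ^ C₁) hθ0 hθ1 hK (by positivity) hcr'
      (hn1 d q s h (Fintype.card ι) (Fintype.card Λ) Y (by omega) hN)
    have hb := hn2 d q s h (Fintype.card ι) (Fintype.card Λ) Y (by omega) hN
    have hZ2 : cG X (fun _ : V → Fin q => True) ≤ 4 * cK d q (2 * Fintype.card Λ) *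
        cG X (fun F : V → Fin q =>
          ((At d G (fun p => ev (i false p)) A₀ (fb i F false) (fb i F true)).card : ℝ) ≤
            h * Y / (d : ℝ) ^ (K + 6)) := by
      refine hZ.trans (mul_le_mul_of_nonneg_left ?_ (mul_nonneg (by norm_num) (V20_cK _ _ _)))
      refine V20_mono X _ _ (fun F hF => hF.trans ?_)
      push_cast
      exact hb
    have hhn : 2 * (2 * d ^ 2 + 2) + 8 ≤ h := by
      have h1 : (2 * (2 * (d : ℝ) ^ 2 + 2) + 8 : ℝ) ≤ h := by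
        refine le_trans ?_ (hC3.trans hhC)
        have h2 : (d : ℝ) ^ 3 = d * (d : ℝ) ^ 2 := by ring
        have h3 : (1 : ℝ) ≤ (d : ℝ) ^ 2 := one_le_pow₀ hd1R
        rw [h2]
        nlinarith
      exact_mod_cast h1
    have hρ : rh d q ≤ 1 := (rh_le (by omega) hR (by omega)).trans
      (Real.exp_le_one_iff.2 (by norm_num))
    have hh1 : 1 ≤ h := by
      have : (0 : ℝ) < h := hh0
      exact_mod_cast this
    have hQ := Q_le (h := h) hR hqd hP hP' hdeg hdeg' hL A₀ Y hY (d ^ 2) d (by omega) hhn hρ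
      (by omega) (Y / (d : ℝ) ^ (K + 3)) (h * Y / (d : ℝ) ^ (K + 6))
      (hn3 d q h Y (by omega) hR hh1 hY0)
    have hL0 : 0 ≤ ((K : ℝ) + 6) * Real.log d :=
      mul_nonneg (by positivity) (Real.log_nonneg hd1R)
    have hD := DD_card lv h (2 * d ^ 2 + 2) (Y / (d : ℝ) ^ (K + 3)) (((K : ℝ) + 6) * Real.log d) Y
      hL0 hY
    have h4 := hn4 d q s h (Fintype.card ι) (Fintype.card Λ) Y (by omega) hN
    have hZ0 := V20_nn X' (fun _ : V → Fin q => True)
    have hcK := V20_cK d q (2 * Fintype.card Λ)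
    calc cG X (fun _ : V → Fin q => True)
        ≤ 4 * cK d q (2 * Fintype.card Λ) *
          cG X (fun F : V → Fin q =>
            ((At d G (fun p => ev (i false p)) A₀ (fb i F false) (fb i F true)).card : ℝ) ≤
              h * Y / (d : ℝ) ^ (K + 6)) := hZ2
      _ ≤ 4 * cK d q (2 * Fintype.card Λ) *
          (2 * ((DDs lv h (2 * d ^ 2 + 2) (Y / (d : ℝ) ^ (K + 3))).card *
            Real.exp (16 * d * (Y / (d : ℝ) ^ (K + 3)) / q) *
              cG X' (fun _ : V → Fin q => True))) :=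
        mul_le_mul_of_nonneg_left hQ (mul_nonneg (by norm_num) hcK)
      _ ≤ 4 * cK d q (2 * Fintype.card Λ) *
          (2 * ((h * Real.exp (((K : ℝ) + 6) * Real.log d * (Y / (d : ℝ) ^ (K + 3)) +
            (((2 * d ^ 2 + 2 : ℕ) : ℝ) + 1) * Y * Real.exp (-(((K : ℝ) + 6) * Real.log d)))) *
            Real.exp (16 * d * (Y / (d : ℝ) ^ (K + 3)) / q) *
              cG X' (fun _ : V → Fin q => True))) := by
        refine mul_le_mul_of_nonneg_left ?_ (mul_nonneg (by norm_num) hcK)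
        refine mul_le_mul_of_nonneg_left ?_ (by norm_num)
        refine mul_le_mul_of_nonneg_right ?_ hZ0
        exact mul_le_mul_of_nonneg_right hD (Real.exp_pos _).le
      _ = (4 * cK d q (2 * Fintype.card Λ) *
          (2 * (h * Real.exp (((K : ℝ) + 6) * Real.log d * (Y / (d : ℝ) ^ (K + 3)) +
            (((2 * d ^ 2 + 2 : ℕ) : ℝ) + 1) * Y * Real.exp (-(((K : ℝ) + 6) * Real.log d))) *
            Real.exp (16 * d * (Y / (d : ℝ) ^ (K + 3)) / q)))) *
              cG X' (fun _ : V → Fin q => True) := by ring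
      _ ≤ Real.exp (Y / (d : ℝ) ^ K) * cG X' (fun _ : V → Fin q => True) :=
        mul_le_mul_of_nonneg_right h4 hZ0

end Pool.Agent.LC
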